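import Pool.Agent.H505R5.PC.Defs

/-! AE: from the subsequences `⌊(1 + θ) ^ j⌋` to all `N`. -/

set_option autoImplicit false

open MeasureTheory Finset Filter Topology
open scoped BigOperators ENNReal

namespace Pool.Agent.H505R5.PC

lemma AE_sub {u : ℕ → ℕ} (hu : Monotone u) (hu2 : Tendsto u atTop atTop) {P : ℕ → Prop}
    (hP : ∀ᶠ j in atTop, P j) : ∀ᶠ N : ℕ in atTop, ∃ j, u j ≤ N ∧ N < u (j + 1) ∧ P j := by
  classical
  obtain ⟨J, hJ⟩ := eventually_atTop.1 hP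
  filter_upwards [eventually_ge_atTop (u J)] with N hN
  have hex : ∃ k, N < u k := by
    obtain ⟨k, hk⟩ := (hu2.eventually_gt_atTop N).exists
    exact ⟨k, hk⟩
  set k := Nat.find hex with hk
  have h1 : N < u k := Nat.find_spec hex
  have h2 : J < k := by
    by_contra hcon
    push Not at hcon
    have := hu hcon
    omega
  obtain ⟨j, hj⟩ : ∃ j, k = j + 1 := ⟨k - 1, by omega⟩
  refine ⟨j, ?_, ?_, hJ j (by omega)⟩
  · have h3 : ¬ N < u j := Nat.find_min hex (by omega)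
    omega
  · rw [← hj]
    exact h1

lemma AE_par {s ε : ℝ} (hε : 0 < ε) : ∃ m : ℕ,
    2 * s * (1 + 2 / ((m : ℝ) + 1)) ^ 2 < 2 * s + ε / 2 ∧
    2 * s - ε / 2 < 2 * s / (1 + 2 / ((m : ℝ) + 1)) ^ 2 := by
  have h1 : Tendsto (fun m : ℕ => 1 + 2 / ((m : ℝ) + 1)) atTop (𝓝 1) := by
    have h2 : Tendsto (fun m : ℕ => 2 * (1 / ((m : ℝ) + 1))) atTop (𝓝 (2 * 0)) :=
      tendsto_one_div_add_atTop_nhds_zero_nat.const_mul 2
    have h3 := h2.const_add 1
    rw [mul_zero, add_zero] at h3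
    refine h3.congr fun m => ?_
    ring
  have h2 := (h1.pow 2).const_mul (2 * s)
  have h3 := (tendsto_const_nhds (x := 2 * s)).div (h1.pow 2) (by norm_num)
  rw [one_pow, mul_one] at h2
  rw [one_pow, div_one] at h3
  exact ((h2.eventually_lt_const (by linarith)).and (h3.eventually_const_lt (by linarith))).exists

lemma AE_det (F : ℕ → ℝ → ℝ) (hF0 : ∀ N η, 0 ≤ F N η)
    (hF : ∀ (N N' : ℕ) (η η' : ℝ), N ≤ N' → η ≤ η' → F N η ≤ F N' η')
    (h : ∀ q : ℚ, 0 < q → ∀ n m : ℕ, ∀ᶠ j : ℕ in atTop,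
      |F ⌊(1 + 1 / ((m : ℝ) + 1)) ^ j⌋₊ ((q : ℝ) / ⌊(1 + 1 / ((m : ℝ) + 1)) ^ j⌋₊) /
        ⌊(1 + 1 / ((m : ℝ) + 1)) ^ j⌋₊ - 2 * q| ≤ 1 / ((n : ℝ) + 1)) (s : ℝ) (hs : 0 < s) :
    Tendsto (fun N : ℕ => F N (s / N) / N) atTop (𝓝 (2 * s)) := by
  rw [Metric.tendsto_nhds]
  intro ε hε
  obtain ⟨m, hm1, hm2⟩ := AE_par (s := s) hε
  set θ : ℝ := 1 / ((m : ℝ) + 1) with hθ
  have hθ0 : 0 < θ := by positivity
  have hθ1 : θ ≤ 1 := by
    rw [hθ, div_le_one (by positivity)]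
    have : (0:ℝ) ≤ m := Nat.cast_nonneg m
    linarith
  have hL : 1 + 2 / ((m : ℝ) + 1) = 1 + 2 * θ := by rw [hθ]; ring
  rw [hL] at hm1 hm2
  set L : ℝ := 1 + 2 * θ with hLdef
  have hL1 : 1 ≤ L := by rw [hLdef]; linarith
  have hL3 : L ≤ 3 := by rw [hLdef]; linarith
  have hL0 : 0 < L := by linarith
  set δ : ℝ := ε / 24 with hδ
  have hδ0 : 0 < δ := by positivity
  obtain ⟨n, hn⟩ := exists_nat_one_div_lt hδ0
  obtain ⟨q2, hq2, hq2'⟩ := exists_rat_btwn (show L * s < L * s + δ by linarith)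
  have hsL : 0 < s / L := by positivity
  obtain ⟨q1, hq1, hq1'⟩ := exists_rat_btwn (show max 0 (s / L - δ) < s / L from
    max_lt hsL (by linarith))
  have hq10 : (0:ℝ) < q1 := lt_of_le_of_lt (le_max_left _ _) hq1
  have hq1'' : s / L - δ < q1 := lt_of_le_of_lt (le_max_right _ _) hq1
  have hq20 : (0:ℝ) < q2 := lt_trans (by positivity) hq2
  have hq10' : 0 < q1 := by exact_mod_cast hq10
  have hq20' : 0 < q2 := by exact_mod_cast hq20
  set u : ℕ → ℕ := fun j => ⌊(1 + θ) ^ j⌋₊ with hu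
  have hmono : Monotone u := fun i j hij =>
    Nat.floor_mono (pow_le_pow_right₀ (by linarith) hij)
  have htend : Tendsto u atTop atTop :=
    tendsto_nat_floor_atTop.comp (tendsto_pow_atTop_atTop_of_one_lt (by linarith))
  have hu1 : ∀ j, 1 ≤ u j := by
    intro j
    refine Nat.le_floor ?_
    rw [Nat.cast_one]
    exact one_le_pow₀ (by linarith)
  have hup : ∀ j, (u (j + 1) : ℝ) ≤ (1 + θ) * ((u j : ℝ) + 1) := by
    intro j
    have e1 : (u (j + 1) : ℝ) ≤ (1 + θ) ^ (j + 1) := Nat.floor_le (by positivity)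
    have e2 : (1 + θ) ^ j < (u j : ℝ) + 1 := Nat.lt_floor_add_one _
    rw [pow_succ, mul_comm] at e1
    exact e1.trans (mul_le_mul_of_nonneg_left e2.le (by linarith))
  have E1 : ∀ᶠ j in atTop, |F (u (j + 1)) ((q2 : ℝ) / u (j + 1)) / u (j + 1) - 2 * q2| ≤
      1 / ((n : ℝ) + 1) := (tendsto_add_atTop_nat 1).eventually (h q2 hq20' n m)
  have E2 : ∀ᶠ j in atTop, |F (u j) ((q1 : ℝ) / u j) / u j - 2 * q1| ≤
      1 / ((n : ℝ) + 1) := h q1 hq10' n m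
  have E3 : ∀ᶠ j in atTop, (1 + θ) / θ ≤ (u j : ℝ) :=
    (tendsto_natCast_atTop_atTop.comp htend).eventually_ge_atTop _
  have E := AE_sub hmono htend (E1.and (E2.and E3))
  filter_upwards [E] with N hN
  obtain ⟨j, hj1, hj2, g1, g2, g3⟩ := hN
  have hx1 : (1:ℝ) ≤ u j := by exact_mod_cast hu1 j
  have hxN : (u j : ℝ) ≤ N := by exact_mod_cast hj1
  have hNy : (N : ℝ) ≤ u (j + 1) := by exact_mod_cast hj2.le
  have hyx : (u (j + 1) : ℝ) ≤ L * u j := by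
    rw [div_le_iff₀ hθ0] at g3
    refine (hup j).trans ?_
    rw [hLdef]
    nlinarith
  set x : ℝ := (u j : ℝ)
  set y : ℝ := (u (j + 1) : ℝ)
  have hx0 : 0 < x := by linarith
  have hN0 : (0:ℝ) < N := by linarith
  have hy0 : 0 < y := by linarith
  have hyN : y ≤ L * N := hyx.trans (mul_le_mul_of_nonneg_left hxN hL0.le)
  have hNx : (N : ℝ) ≤ L * x := hNy.trans hyx
  -- the upper bound
  have up1 : F N (s / N) ≤ F (u (j + 1)) ((q2 : ℝ) / y) := by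
    refine hF _ _ _ _ hj2.le ?_
    rw [div_le_div_iff₀ hN0 hy0]
    calc s * y ≤ s * (L * N) := mul_le_mul_of_nonneg_left hyN hs.le
      _ = L * s * N := by ring
      _ ≤ q2 * N := mul_le_mul_of_nonneg_right hq2.le hN0.le
  have up2 : F (u (j + 1)) ((q2 : ℝ) / y) ≤ (2 * q2 + δ) * y := by
    have := (abs_le.mp g1).2
    rw [← div_le_iff₀ hy0]
    linarith
  have up3 : F N (s / N) / N ≤ (2 * q2 + δ) * L := by
    rw [div_le_iff₀ hN0]
    calc F N (s / N) ≤ (2 * q2 + δ) * y := up1.trans up2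
      _ ≤ (2 * q2 + δ) * (L * N) := mul_le_mul_of_nonneg_left hyN (by linarith)
      _ = _ := by ring
  have up4 : (2 * q2 + δ) * L < 2 * s + ε := by
    have e1 : (2 * (q2 : ℝ) + δ) * L ≤ (2 * (L * s) + 3 * δ) * L :=
      mul_le_mul_of_nonneg_right (by linarith) hL0.le
    have e2 : 3 * δ * L ≤ 3 * δ * 3 := mul_le_mul_of_nonneg_left hL3 (by linarith)
    have e3 : (2 * (L * s) + 3 * δ) * L = 2 * s * L ^ 2 + 3 * δ * L := by ring
    have e4 : δ = ε / 24 := hδ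
    linarith
  -- the lower bound
  have lo1 : F (u j) ((q1 : ℝ) / x) ≤ F N (s / N) := by
    refine hF _ _ _ _ hj1 ?_
    rw [div_le_div_iff₀ hx0 hN0]
    calc (q1 : ℝ) * N ≤ q1 * (L * x) := mul_le_mul_of_nonneg_left hNx hq10.le
      _ ≤ (s / L) * (L * x) := mul_le_mul_of_nonneg_right hq1'.le (by positivity)
      _ = s * x := by field_simp
  have lo2 : (2 * q1 - δ) * x ≤ F (u j) ((q1 : ℝ) / x) := by
    have := (abs_le.mp g2).1
    rw [← le_div_iff₀ hx0]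
    linarith
  have lo3 : (2 * q1 - δ) / L ≤ F N (s / N) / N := by
    have e1 : F (u j) ((q1 : ℝ) / x) / (L * x) ≤ F N (s / N) / N :=
      div_le_div₀ (hF0 _ _) lo1 hN0 hNx
    refine le_trans ?_ e1
    rw [div_le_div_iff₀ hL0 (by positivity)]
    calc (2 * (q1 : ℝ) - δ) * (L * x) = (2 * q1 - δ) * x * L := by ring
      _ ≤ F (u j) ((q1 : ℝ) / x) * L := mul_le_mul_of_nonneg_right lo2 hL0.le
  have lo4 : 2 * s - ε < (2 * q1 - δ) / L := by
    have e1 : (2 * (s / L) - 3 * δ) / L ≤ (2 * (q1 : ℝ) - δ) / L :=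
      div_le_div_of_nonneg_right (by linarith) hL0.le
    have e2 : (2 * (s / L) - 3 * δ) / L = 2 * s / L ^ 2 - 3 * δ / L := by
      field_simp
    have e3 : 3 * δ / L ≤ 3 * δ := div_le_self (by linarith) hL1
    have e4 : δ = ε / 24 := hδ
    linarith
  rw [Real.dist_eq, abs_lt]
  constructor <;> linarith

lemma AE_mono {A A' : Finset ℤ} {η η' : ℝ} (hA : A ⊆ A') (hη : η ≤ η') (α : T) :
    Cnt A η α ≤ Cnt A' η' α := by
  unfold Cnt
  refine card_le_card fun p hp => ?_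
  simp only [mem_filter, mem_product] at hp ⊢
  exact ⟨⟨hA hp.1.1, hA hp.1.2⟩, hp.2.1, hp.2.2.trans_le hη⟩

theorem t_AE (h1 : S_BC) : S_AE := by
  intro a C c₀ ha hC hc hE
  have hall : ∀ᵐ α : T, ∀ (q : {q : ℚ // 0 < q}) (n m : ℕ), ∀ᶠ j : ℕ in atTop,
      |(Cnt (fst a ⌊(1 + 1 / ((m : ℝ) + 1)) ^ j⌋₊)
        (((q : ℚ) : ℝ) / ⌊(1 + 1 / ((m : ℝ) + 1)) ^ j⌋₊) α : ℝ) /
        ⌊(1 + 1 / ((m : ℝ) + 1)) ^ j⌋₊ - 2 * ((q : ℚ) : ℝ)| ≤ 1 / ((n : ℝ) + 1) := by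
    rw [ae_all_iff]
    intro q
    rw [ae_all_iff]
    intro n
    rw [ae_all_iff]
    intro m
    exact h1 a C c₀ ((q : ℚ) : ℝ) (1 / ((n : ℝ) + 1)) (1 / ((m : ℝ) + 1)) ha hC hc
      (by exact_mod_cast q.2) (by positivity) (by positivity) hE
  filter_upwards [hall] with α hα
  intro s hs
  exact AE_det (fun N η => (Cnt (fst a N) η α : ℝ)) (fun N η => Nat.cast_nonneg _)
    (fun N N' η η' hN hη => by
      exact_mod_cast AE_mono (image_subset_image (range_subset_range.2 hN)) hη α)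
    (fun q hq n m => hα ⟨q, hq⟩ n m) s hs

end Pool.Agent.H505R5.PC
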