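import Pool.Agent.H505R5.PC.Defs

set_option autoImplicit false

open MeasureTheory Finset Filter Topology
open scoped BigOperators ENNReal

namespace Pool.Agent.H505R5.PC

theorem BC_tendsto (θ : ℝ) (hθ : 0 < θ) :
    Tendsto (fun j : ℕ => ⌊(1 + θ) ^ j⌋₊) atTop atTop :=
  tendsto_nat_floor_atTop.comp (tendsto_pow_atTop_atTop_of_one_lt (by linarith))

theorem BC_log (θ : ℝ) (hθ : 0 < θ) : ∀ᶠ j : ℕ in atTop,
    (j : ℝ) * (Real.log (1 + θ) / 2) ≤ Real.log ⌊(1 + θ) ^ j⌋₊ := by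
  have hl : 0 < Real.log (1 + θ) := Real.log_pos (by linarith)
  have h1 : Tendsto (fun j : ℕ => (j : ℝ) * (Real.log (1 + θ) / 2)) atTop atTop :=
    tendsto_natCast_atTop_atTop.atTop_mul_const (by positivity)
  filter_upwards [h1.eventually_ge_atTop (Real.log 2),
    (BC_tendsto θ hθ).eventually_ge_atTop 1] with j hj hj1
  have hx : (0 : ℝ) < (1 + θ) ^ j := by positivity
  have hN : (1 : ℝ) ≤ (⌊(1 + θ) ^ j⌋₊ : ℝ) := by exact_mod_cast hj1
  have h2 : (1 + θ) ^ j / 2 ≤ (⌊(1 + θ) ^ j⌋₊ : ℝ) := by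
    have := Nat.lt_floor_add_one ((1 + θ) ^ j)
    linarith
  have h3 : Real.log ((1 + θ) ^ j / 2) ≤ Real.log ⌊(1 + θ) ^ j⌋₊ :=
    Real.log_le_log (by positivity) h2
  rw [Real.log_div hx.ne' (by norm_num), Real.log_pow] at h3
  linarith

theorem BC_card (a : ℕ → ℤ) (ha : Function.Injective a) (N : ℕ) : (fst a N).card = N := by
  unfold fst
  rw [Finset.card_image_of_injective _ ha, Finset.card_range]

theorem t_BC (hPS : S_PS) : S_BC := by
  intro a C c₀ s ε θ ha hC hc₀ hs hε hθ hE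
  obtain ⟨c, hc, N₀, hN₀⟩ := hPS C c₀ s ε hC hc₀ hs hε
  set δ : ℝ := Real.log (1 + θ) / 2 with hδ
  have hδ0 : 0 < δ := by
    have : 0 < Real.log (1 + θ) := Real.log_pos (by linarith)
    positivity
  set S : ℕ → Set T := fun j => {α | ε < |(Cnt (fst a ⌊(1 + θ) ^ j⌋₊)
    (s / ⌊(1 + θ) ^ j⌋₊) α : ℝ) / ⌊(1 + θ) ^ j⌋₊ - 2 * s|} with hS
  have hbound : ∀ᶠ j : ℕ in atTop, ‖(volume : Measure T).real (S j)‖ ≤
      δ ^ (-(1 + c)) * (j : ℝ) ^ (-(1 + c)) := by
    filter_upwards [BC_log θ hθ, (BC_tendsto θ hθ).eventually_ge_atTop (max N₀ 2),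
      eventually_gt_atTop 0] with j hj hjN hj0
    have hN0 : N₀ ≤ ⌊(1 + θ) ^ j⌋₊ := (le_max_left _ _).trans hjN
    have hN2 : 2 ≤ ⌊(1 + θ) ^ j⌋₊ := (le_max_right _ _).trans hjN
    have h1 := hN₀ (fst a ⌊(1 + θ) ^ j⌋₊) (by rw [BC_card a ha]; exact hN0)
      (by rw [BC_card a ha]; exact hE _ hN2)
    rw [BC_card a ha] at h1
    have hjr : (0 : ℝ) < j := by exact_mod_cast hj0
    rw [Real.norm_of_nonneg measureReal_nonneg]
    refine h1.trans ?_
    rw [← Real.mul_rpow hδ0.le hjr.le]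
    apply Real.rpow_le_rpow_of_nonpos (by positivity) _ (by linarith)
    rw [mul_comm]
    exact hj
  have hsum : Summable (fun j => (volume : Measure T).real (S j)) := by
    apply Summable.of_norm_bounded_eventually_nat
      (g := fun j : ℕ => δ ^ (-(1 + c)) * (j : ℝ) ^ (-(1 + c)))
    · exact (Real.summable_nat_rpow.mpr (by linarith)).mul_left _
    · exact hbound
  have hne : ∑' j, (volume : Measure T) (S j) ≠ ∞ := by
    have h1 : (fun j => (volume : Measure T) (S j)) =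
        fun j => ENNReal.ofReal ((volume : Measure T).real (S j)) := by
      funext j
      rw [ofReal_measureReal]
    rw [h1]
    exact hsum.tsum_ofReal_ne_top
  filter_upwards [ae_eventually_notMem hne] with α hα
  filter_upwards [hα] with j hj
  simpa [hS] using hj

end Pool.Agent.H505R5.PC
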