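import Pool.Agent.H505R5.PC.Defs

/-! CHAR: a finite model of a random completely multiplicative function (Dirichlet characters
modulo a prime number larger than `B`). -/

set_option autoImplicit false

namespace Pool.Agent.H505R5.PC

theorem CHAR_cast {B q m n : ℕ} (hq : B + 1 ≤ q) (hm : m ≤ B) (hn : n ≤ B) :
    ((n : ZMod q) = (m : ZMod q)) ↔ m = n := by
  constructor
  · intro h
    rw [ZMod.natCast_eq_natCast_iff'] at h
    rw [Nat.mod_eq_of_lt (by omega), Nat.mod_eq_of_lt (by omega)] at h
    exact h.symm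
  · rintro rfl
    rfl

theorem t_CHAR : S_CHAR := by
  intro B
  obtain ⟨q, hq, hqp⟩ := Nat.exists_infinite_primes (B + 1)
  have hf : Fact q.Prime := ⟨hqp⟩
  have hne : NeZero q := ⟨hqp.ne_zero⟩
  have hcard : Nat.card (DirichletCharacter ℂ q) = q - 1 := by
    rw [DirichletCharacter.card_eq_totient_of_hasEnoughRootsOfUnity, Nat.totient_prime hqp]
  have h2 := hqp.two_le
  have hcard' : Fintype.card (DirichletCharacter ℂ q) = (q - 2) + 1 := by
    rw [← Nat.card_eq_fintype_card, hcard]
    omega
  let e : Fin ((q - 2) + 1) ≃ DirichletCharacter ℂ q := (Fintype.equivFinOfCardEq hcard').symm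
  refine ⟨q - 2, fun i n => e i (n : ZMod q), ?_, ?_⟩
  · intro i m n _ _
    simp only [Nat.cast_mul, map_mul]
  · intro m n hm hmB hn hnB
    have h1 : ∑ i, e i (m : ZMod q) * (starRingEnd ℂ) (e i (n : ZMod q)) =
        ∑ χ : DirichletCharacter ℂ q, χ ((n : ZMod q)⁻¹) * χ (m : ZMod q) := by
      rw [← Equiv.sum_comp e]
      apply Finset.sum_congr rfl
      intro i _
      have h3 : (starRingEnd ℂ) (e i (n : ZMod q)) = e i ((n : ZMod q)⁻¹) := by
        have := MulChar.star_apply' (e i) (n : ZMod q)
        rw [MulChar.inv_apply'] at this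
        exact this
      rw [h3, mul_comm]
    have hu : IsUnit (n : ZMod q) := by
      rw [isUnit_iff_ne_zero]
      intro h0
      rw [ZMod.natCast_eq_zero_iff] at h0
      have := Nat.le_of_dvd hn h0
      omega
    rw [h1, DirichletCharacter.sum_char_inv_mul_char_eq ℂ hu, Nat.totient_prime hqp]
    by_cases hmn : m = n
    · rw [if_pos ((CHAR_cast hq hmB hnB).2 hmn), if_pos hmn]
      have : q - 1 = (q - 2) + 1 := by omega
      rw [this]
      push_cast
      rfl
    · rw [if_neg (fun h => hmn ((CHAR_cast hq hmB hnB).1 h)), if_neg hmn]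

end Pool.Agent.H505R5.PC
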