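import Pool.Agent.H505R5.PC.Defs

set_option autoImplicit false

open MeasureTheory Finset Filter Topology
open scoped BigOperators ENNReal

namespace Pool.Agent.H505R5.PC

theorem CNT_rp_le (A : Finset ℤ) (v : ℤ) : rp A v ≤ A.card := by
  unfold rp
  refine Finset.card_le_card_of_injOn (fun p => p.2) ?_ ?_
  · intro p hp
    simp only [coe_filter, mem_product, Set.mem_setOf_eq] at hp
    exact hp.1.2
  · intro p hp q hq hpq
    simp only [coe_filter, mem_product, Set.mem_setOf_eq] at hp hq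
    simp only at hpq
    refine Prod.ext ?_ hpq
    have h1 := hp.2
    have h2 := hq.2
    rw [hpq] at h1
    linarith

/-- off-diagonal pairs -/
def CNT_off (A : Finset ℤ) : Finset (ℤ × ℤ) := (A ×ˢ A).filter (fun p => p.1 ≠ p.2)

theorem CNT_maps (A : Finset ℤ) : ∀ p ∈ CNT_off A, p.1 - p.2 ∈ Df A := by
  intro p hp
  simp only [CNT_off, mem_filter, mem_product] at hp
  unfold Df
  rw [mem_erase]
  refine ⟨sub_ne_zero.2 hp.2, ?_⟩
  exact mem_image.2 ⟨p, mem_product.2 hp.1, rfl⟩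

theorem CNT_fiber (A : Finset ℤ) (v : ℤ) (hv : v ∈ Df A) :
    (CNT_off A).filter (fun p => p.1 - p.2 = v) = (A ×ˢ A).filter (fun p => p.1 - p.2 = v) := by
  have hv0 : v ≠ 0 := by
    unfold Df at hv
    exact (mem_erase.1 hv).1
  ext p
  simp only [CNT_off, mem_filter, mem_product]
  constructor
  · rintro ⟨⟨h1, _⟩, h3⟩
    exact ⟨h1, h3⟩
  · rintro ⟨h1, h3⟩
    refine ⟨⟨h1, ?_⟩, h3⟩
    intro h
    apply hv0
    rw [← h3, h, sub_self]

theorem CNT_sum (A : Finset ℤ) (f : ℤ → ℝ) :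
    ∑ p ∈ CNT_off A, f (p.1 - p.2) = ∑ v ∈ Df A, (rp A v : ℝ) * f v := by
  rw [← Finset.sum_fiberwise_of_maps_to (CNT_maps A)]
  refine Finset.sum_congr rfl fun v hv => ?_
  rw [CNT_fiber A v hv]
  rw [Finset.sum_congr rfl (g := fun _ => f v)]
  · rw [Finset.sum_const, nsmul_eq_mul]
    rfl
  · intro p hp
    rw [(mem_filter.1 hp).2]

theorem CNT_off_card (A : Finset ℤ) :
    ((CNT_off A).card : ℝ) = (A.card : ℝ) ^ 2 - A.card := by
  have h : CNT_off A = A.offDiag := by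
    ext p
    simp only [CNT_off, mem_filter, mem_product, mem_offDiag]
    tauto
  rw [h, Finset.offDiag_card]
  have : A.card ≤ A.card * A.card := Nat.le_mul_self _
  rw [Nat.cast_sub this]
  push_cast
  ring

theorem CNT_energy (A : Finset ℤ) : ∑ v ∈ Df A, (rp A v : ℝ) ^ 2 ≤ En A := by
  have hcard : ∑ v ∈ Df A, (rp A v) ^ 2 ≤ En A := by
    have h1 : ∀ v, (rp A v) ^ 2 = (((A ×ˢ A).filter (fun p => p.1 - p.2 = v)) ×ˢ
        ((A ×ˢ A).filter (fun p => p.1 - p.2 = v))).card := by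
      intro v
      rw [Finset.card_product, sq]
      rfl
    rw [Finset.sum_congr rfl (fun v _ => h1 v)]
    have h2 : ∑ v ∈ Df A, (((A ×ˢ A).filter (fun p => p.1 - p.2 = v)) ×ˢ
        ((A ×ˢ A).filter (fun p => p.1 - p.2 = v))).card =
        ((Df A).sigma (fun v => ((A ×ˢ A).filter (fun p => p.1 - p.2 = v)) ×ˢ
        ((A ×ˢ A).filter (fun p => p.1 - p.2 = v)))).card := by
      rw [Finset.card_sigma]
    rw [h2]
    unfold En
    refine Finset.card_le_card_of_injOn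
      (fun x => ((x.2.1.1, x.2.2.2), (x.2.2.1, x.2.1.2))) ?_ ?_
    · rintro ⟨v, p, q⟩ hx
      simp only [coe_sigma, Set.mem_sigma_iff, mem_coe, mem_product, mem_filter] at hx
      obtain ⟨_, ⟨⟨h1, h2⟩, h3⟩, ⟨h4, h5⟩, h6⟩ := hx
      simp only [coe_filter, mem_product, Set.mem_setOf_eq]
      refine ⟨⟨⟨h1, h5⟩, h4, h2⟩, ?_⟩
      linarith
    · rintro ⟨v, ⟨p1, p2⟩, ⟨q1, q2⟩⟩ hx ⟨v', ⟨p1', p2'⟩, ⟨q1', q2'⟩⟩ hx' h
      simp only [coe_sigma, Set.mem_sigma_iff, mem_coe, mem_product, mem_filter] at hx hx'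
      simp only [Prod.mk.injEq] at h
      obtain ⟨⟨e1, e2⟩, e3, e4⟩ := h
      subst e1 e2 e3 e4
      have hv : v = v' := by
        rw [← hx.2.1.2, ← hx'.2.1.2]
      subst hv
      rfl
  exact_mod_cast hcard

theorem t_CNT : S_CNT := by
  intro A η α hA
  refine ⟨?_, ?_, CNT_rp_le A, CNT_energy A⟩
  · rw [← CNT_sum A (fun v => ind η v α - 2 * η), Finset.sum_sub_distrib, Finset.sum_const,
      nsmul_eq_mul, CNT_off_card]
    have h : (Cnt A η α : ℝ) = ∑ p ∈ CNT_off A, ind η (p.1 - p.2) α := by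
      unfold ind Cnt
      rw [Finset.sum_ite, Finset.sum_const_zero, add_zero, Finset.sum_const, nsmul_eq_mul, mul_one]
      congr 2
      ext p
      simp only [CNT_off, mem_filter, mem_product]
      tauto
    rw [h]
    ring
  · have h := CNT_sum A (fun _ => 1)
    simp only [mul_one, Finset.sum_const, nsmul_eq_mul] at h
    rw [← h, CNT_off_card]
    have : (0 : ℝ) ≤ A.card := by positivity
    linarith

end Pool.Agent.H505R5.PC
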