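import Pool.Agent.H505R5.PC.Defs

/-! Task CX (helper672). -/

set_option autoImplicit false

open MeasureTheory Finset Filter Topology
open scoped BigOperators ENNReal

namespace Pool.Agent.H505R5.PC

theorem CX_cube (k : ℕ) : (k : ℝ) ^ 3 ≤ ∑ j ∈ Icc 1 k, 3 * (j : ℝ) ^ 2 := by
  induction k with
  | zero => simp
  | succ k ih =>
    rw [Finset.sum_Icc_succ_top (by omega)]
    push_cast
    nlinarith [ih, (Nat.cast_nonneg k : (0 : ℝ) ≤ k)]

/-- every pair counted by `Cx` lies on a line with at least two points -/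
theorem CX_le (A : Finset ℤ) (x : ℚ) (V : Finset ℚ)
    (hV : ∀ a ∈ A, ∀ b ∈ A, (a : ℚ) - x * b ∈ V) :
    Cx A x ≤ ∑ t ∈ V.filter (fun t => 2 ≤ pl A x t), pl A x t ^ 2 := by
  classical
  unfold Cx
  set S := ((A ×ˢ A) ×ˢ (A ×ˢ A)).filter (fun p =>
    p.2.1 ≠ p.2.2 ∧ ((p.1.1 : ℚ) - p.1.2) = x * (p.2.1 - p.2.2)) with hS
  have hmem : ∀ p ∈ S, (p.1.1 ∈ A ∧ p.1.2 ∈ A) ∧ (p.2.1 ∈ A ∧ p.2.2 ∈ A) ∧ p.2.1 ≠ p.2.2 ∧
      (p.1.2 : ℚ) - x * p.2.2 = p.1.1 - x * p.2.1 := by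
    intro p hp
    simp only [hS, Finset.mem_filter, Finset.mem_product] at hp
    refine ⟨hp.1.1, hp.1.2, hp.2.1, ?_⟩
    have := hp.2.2
    linarith
  have hmaps : ∀ p ∈ S, (p.1.1 : ℚ) - x * p.2.1 ∈ V.filter (fun t => 2 ≤ pl A x t) := by
    intro p hp
    obtain ⟨h1, h2, h3, h4⟩ := hmem p hp
    refine Finset.mem_filter.2 ⟨hV _ h1.1 _ h2.1, ?_⟩
    unfold pl
    have hsub : ({(p.1.1, p.2.1), (p.1.2, p.2.2)} : Finset (ℤ × ℤ)) ⊆
        (A ×ˢ A).filter (fun q => (q.1 : ℚ) - x * q.2 = (p.1.1 : ℚ) - x * p.2.1) := by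
      intro q hq
      rw [Finset.mem_insert, Finset.mem_singleton] at hq
      rcases hq with rfl | rfl
      · exact Finset.mem_filter.2 ⟨Finset.mem_product.2 ⟨h1.1, h2.1⟩, rfl⟩
      · exact Finset.mem_filter.2 ⟨Finset.mem_product.2 ⟨h1.2, h2.2⟩, h4⟩
    refine le_trans ?_ (Finset.card_le_card hsub)
    rw [Finset.card_pair]
    intro h
    exact h3 (congrArg Prod.snd h)
  rw [Finset.card_eq_sum_card_fiberwise hmaps]
  refine Finset.sum_le_sum fun t _ => ?_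
  have hinj : (S.filter (fun p => (p.1.1 : ℚ) - x * p.2.1 = t)).card ≤
      (((A ×ˢ A).filter (fun q => (q.1 : ℚ) - x * q.2 = t)) ×ˢ
        ((A ×ˢ A).filter (fun q => (q.1 : ℚ) - x * q.2 = t))).card := by
    refine Finset.card_le_card_of_injOn (fun p => ((p.1.1, p.2.1), (p.1.2, p.2.2))) ?_ ?_
    · intro p hp
      have hp' := Finset.mem_filter.1 (Finset.mem_coe.1 hp)
      obtain ⟨h1, h2, h3, h4⟩ := hmem p hp'.1
      refine Finset.mem_coe.2 (Finset.mem_product.2 ⟨Finset.mem_filter.2 ⟨?_, ?_⟩,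
        Finset.mem_filter.2 ⟨?_, ?_⟩⟩)
      · exact Finset.mem_product.2 ⟨h1.1, h2.1⟩
      · exact hp'.2
      · exact Finset.mem_product.2 ⟨h1.2, h2.2⟩
      · exact h4.trans hp'.2
    · rintro ⟨⟨a, b⟩, ⟨c, d⟩⟩ _ ⟨⟨a', b'⟩, ⟨c', d'⟩⟩ _ h
      simp only [Prod.mk.injEq] at h ⊢
      tauto
  rw [Finset.card_product] at hinj
  unfold pl
  rw [sq]
  exact hinj

theorem CX_sum (A : Finset ℤ) (x : ℚ) (V : Finset ℚ) :
    ∑ t ∈ V, pl A x t ≤ A.card ^ 2 := by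
  classical
  unfold pl
  rw [← Finset.card_biUnion]
  · refine (Finset.card_le_card (Finset.biUnion_subset.2 fun t _ =>
      Finset.filter_subset _ _)).trans ?_
    rw [Finset.card_product, sq]
  · intro t _ t' _ hne
    refine Finset.disjoint_filter.2 fun p _ h1 h2 => hne (h1.symm.trans h2)

theorem CX_pl_le (A : Finset ℤ) (x t : ℚ) : pl A x t ≤ A.card ^ 2 := by
  unfold pl
  refine (Finset.card_le_card (Finset.filter_subset _ _)).trans ?_
  rw [Finset.card_product, sq]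

theorem t_CX (hST : S_ST) : S_CX := by
  classical
  obtain ⟨c, hc, hST⟩ := hST
  refine ⟨6 * c, by positivity, ?_⟩
  intro A X hA hX
  have hN1 : 1 ≤ A.card := Finset.card_pos.2 hA
  set V : Finset ℚ := X.biUnion fun x => (A ×ˢ A).image (fun p => (p.1 : ℚ) - x * p.2) with hV
  have hVm : ∀ x ∈ X, ∀ a ∈ A, ∀ b ∈ A, (a : ℚ) - x * b ∈ V := by
    intro x hx a ha b hb
    refine Finset.mem_biUnion.2 ⟨x, hx, Finset.mem_image.2 ⟨(a, b), ?_, rfl⟩⟩
    exact Finset.mem_product.2 ⟨ha, hb⟩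
  set N : ℝ := (A.card : ℝ) with hN
  have hN1' : 1 ≤ N := by rw [hN]; exact_mod_cast hN1
  set W : Finset (ℚ × ℚ) := (X ×ˢ V).filter (fun l => 2 ≤ pl A l.1 l.2) with hW
  -- one slope
  have h1 : ∀ x ∈ X, (Cx A x : ℝ) ^ 2 ≤
      N ^ 2 * ∑ t ∈ V.filter (fun t => 2 ≤ pl A x t), (pl A x t : ℝ) ^ 3 := by
    intro x hx
    have e1 : (Cx A x : ℝ) ≤ ∑ t ∈ V.filter (fun t => 2 ≤ pl A x t), (pl A x t : ℝ) ^ 2 := by
      exact_mod_cast CX_le A x V (hVm x hx)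
    have e2 : (∑ t ∈ V.filter (fun t => 2 ≤ pl A x t), (pl A x t : ℝ) ^ 2) ^ 2 ≤
        (∑ t ∈ V.filter (fun t => 2 ≤ pl A x t), (pl A x t : ℝ)) *
          ∑ t ∈ V.filter (fun t => 2 ≤ pl A x t), (pl A x t : ℝ) ^ 3 :=
      Finset.sum_sq_le_sum_mul_sum_of_sq_le_mul _ (fun t _ => by positivity)
        (fun t _ => by positivity) (fun t _ => le_of_eq (by ring))
    have e3 : ∑ t ∈ V.filter (fun t => 2 ≤ pl A x t), (pl A x t : ℝ) ≤ N ^ 2 := by
      have e4 := CX_sum A x (V.filter (fun t => 2 ≤ pl A x t))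
      rw [hN]
      exact_mod_cast e4
    refine (pow_le_pow_left₀ (Nat.cast_nonneg _) e1 2).trans (e2.trans ?_)
    exact mul_le_mul_of_nonneg_right e3 (Finset.sum_nonneg fun t _ => by positivity)
  -- all slopes
  have h2 : ∑ x ∈ X, (Cx A x : ℝ) ^ 2 ≤ N ^ 2 * ∑ l ∈ W, (pl A l.1 l.2 : ℝ) ^ 3 := by
    refine (Finset.sum_le_sum h1).trans (le_of_eq ?_)
    rw [← Finset.mul_sum, hW, Finset.sum_filter, Finset.sum_product]
    congr 1
    refine Finset.sum_congr rfl fun x _ => ?_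
    rw [Finset.sum_filter]
  -- layer cake
  set J : ℕ := A.card ^ 2 with hJ
  have h3 : ∑ l ∈ W, (pl A l.1 l.2 : ℝ) ^ 3 ≤
      ∑ j ∈ Icc 1 J, 3 * (j : ℝ) ^ 2 * ((W.filter (fun l => j ≤ pl A l.1 l.2)).card : ℝ) := by
    have e1 : ∀ l ∈ W, (pl A l.1 l.2 : ℝ) ^ 3 ≤
        ∑ j ∈ Icc 1 J, if j ≤ pl A l.1 l.2 then 3 * (j : ℝ) ^ 2 else 0 := by
      intro l _
      refine (CX_cube _).trans (le_of_eq ?_)
      rw [← Finset.sum_filter]
      refine Finset.sum_congr ?_ fun _ _ => rfl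
      ext j
      have := CX_pl_le A l.1 l.2
      simp only [Finset.mem_Icc, Finset.mem_filter]
      omega
    refine (Finset.sum_le_sum e1).trans (le_of_eq ?_)
    rw [Finset.sum_comm]
    refine Finset.sum_congr rfl fun j _ => ?_
    rw [← Finset.sum_filter, Finset.sum_const, nsmul_eq_mul, mul_comm]
  have h4 : ∀ j ∈ Icc 1 J, 3 * (j : ℝ) ^ 2 *
      ((W.filter (fun l => j ≤ pl A l.1 l.2)).card : ℝ) ≤ 3 * c * N ^ 4 * (1 / (j : ℝ)) := by
    intro j hj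
    have hj1 : 1 ≤ j := (Finset.mem_Icc.1 hj).1
    have hj1' : (1 : ℝ) ≤ j := by exact_mod_cast hj1
    have hjpos : (0 : ℝ) < j := by linarith
    have hpos : ∀ l ∈ W, 0 < l.1 ∧ 2 ≤ pl A l.1 l.2 := by
      intro l hl
      have := Finset.mem_filter.1 hl
      exact ⟨hX _ (Finset.mem_product.1 this.1).1, this.2⟩
    have e1 : ((W.filter (fun l => j ≤ pl A l.1 l.2)).card : ℝ) * (j : ℝ) ^ 3 ≤ c * N ^ 4 := by
      rcases Nat.lt_or_ge j 2 with h | h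
      · have hj0 : j = 1 := by omega
        subst hj0
        have e2 := hST A 2 (W.filter (fun l => 1 ≤ pl A l.1 l.2)) le_rfl
          (fun l hl => hpos l (Finset.mem_filter.1 hl).1)
        have e3 : (0 : ℝ) ≤ ((W.filter (fun l => 1 ≤ pl A l.1 l.2)).card : ℝ) :=
          Nat.cast_nonneg _
        push_cast at e2 ⊢
        nlinarith
      · exact hST A j _ h (fun l hl => ⟨(hpos l (Finset.mem_filter.1 hl).1).1,
          (Finset.mem_filter.1 hl).2⟩)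
    rw [mul_one_div, le_div_iff₀ hjpos]
    calc 3 * (j : ℝ) ^ 2 * ((W.filter (fun l => j ≤ pl A l.1 l.2)).card : ℝ) * j
        = 3 * (((W.filter (fun l => j ≤ pl A l.1 l.2)).card : ℝ) * (j : ℝ) ^ 3) := by ring
      _ ≤ 3 * (c * N ^ 4) := by linarith
      _ = 3 * c * N ^ 4 := by ring
  have h5 : ∑ j ∈ Icc 1 J, (1 / (j : ℝ)) ≤ 2 * (1 + Real.log N) := by
    have e1 := harmonic_le_one_add_log J
    have e2 : ((harmonic J : ℚ) : ℝ) = ∑ j ∈ Icc 1 J, (1 / (j : ℝ)) := by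
      rw [harmonic_eq_sum_Icc]
      push_cast
      refine Finset.sum_congr rfl fun j _ => ?_
      rw [one_div]
    rw [e2] at e1
    have e3 : Real.log (J : ℝ) = 2 * Real.log N := by
      rw [hJ]
      push_cast
      rw [Real.log_pow]
      push_cast
      rfl
    rw [e3] at e1
    have e4 : 0 ≤ Real.log N := Real.log_nonneg hN1'
    linarith
  have hlog : 0 ≤ Real.log N := Real.log_nonneg hN1'
  have h6 : ∑ l ∈ W, (pl A l.1 l.2 : ℝ) ^ 3 ≤ 3 * c * N ^ 4 * (2 * (1 + Real.log N)) := by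
    refine h3.trans ((Finset.sum_le_sum h4).trans ?_)
    rw [← Finset.mul_sum]
    exact mul_le_mul_of_nonneg_left h5 (by positivity)
  calc ∑ x ∈ X, (Cx A x : ℝ) ^ 2 ≤ N ^ 2 * ∑ l ∈ W, (pl A l.1 l.2 : ℝ) ^ 3 := h2
    _ ≤ N ^ 2 * (3 * c * N ^ 4 * (2 * (1 + Real.log N))) :=
        mul_le_mul_of_nonneg_left h6 (by positivity)
    _ = 6 * c * N ^ 6 * (1 + Real.log N) * 1 := by ring
    _ ≤ 6 * c * N ^ 6 * (1 + Real.log N) * (1 + Real.log N) :=
        mul_le_mul_of_nonneg_left (by linarith) (by positivity)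
    _ = 6 * c * (1 + Real.log N) ^ 2 * N ^ 6 := by ring

end Pool.Agent.H505R5.PC
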