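import Mathlib

/-! Metric Poissonian pair correlations and additive energy (MP_ab562c_nt): every exponent `C > 1`
is admissible. Definitions and the statements (Props `S_X`) of all tasks. -/

set_option autoImplicit false

open MeasureTheory Finset Filter Topology
open scoped BigOperators ENNReal

namespace Pool.Agent.H505R5.PC

/-- the circle `ℝ / ℤ`; `‖α‖` is the distance to the nearest integer, `volume` has mass one -/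
abbrev T : Type := UnitAddCircle

/-- number of representations of `v` as a difference of two elements of `A` -/
def rp (A : Finset ℤ) (v : ℤ) : ℕ := ((A ×ˢ A).filter (fun p => p.1 - p.2 = v)).card

/-- additive energy -/
def En (A : Finset ℤ) : ℕ :=
  (((A ×ˢ A) ×ˢ (A ×ˢ A)).filter (fun p => p.1.1 + p.1.2 = p.2.1 + p.2.2)).card

/-- nonzero differences -/
def Df (A : Finset ℤ) : Finset ℤ := ((A ×ˢ A).image (fun p => p.1 - p.2)).erase 0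

/-- number of pairs of distinct elements with `‖(a - a') α‖ < η` -/
noncomputable def Cnt (A : Finset ℤ) (η : ℝ) (α : T) : ℕ :=
  ((A ×ˢ A).filter (fun p => p.1 ≠ p.2 ∧ ‖(p.1 - p.2) • α‖ < η)).card

/-- height of the rational number `v / w` -/
def ht (v w : ℤ) : ℕ := max v.natAbs w.natAbs / Int.gcd v w

/-- the numerator of `v / w` -/
def qn (v w : ℤ) : ℕ := v.natAbs / Int.gcd v w

/-- indicator of `‖v α‖ < η` -/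
noncomputable def ind (η : ℝ) (v : ℤ) (α : T) : ℝ := if ‖v • α‖ < η then 1 else 0

noncomputable def harm (K : ℕ) : ℝ := ∑ n ∈ Icc 1 K, (1 : ℝ) / n

/-- the gcd sum over pairs of height at most `K` -/
noncomputable def G (D : Finset ℤ) (ρ : ℤ → ℝ) (K : ℕ) : ℝ :=
  ∑ v ∈ D, ∑ w ∈ D, if ht v w ≤ K then ρ v * ρ w / (ht v w : ℝ) else 0

/-- second moment of the random Dirichlet polynomial -/
noncomputable def Q2 (D : Finset ℤ) (ρ : ℤ → ℝ) : ℝ :=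
  ∑ v ∈ D, ∑ w ∈ D, if v.natAbs = w.natAbs then ρ v * ρ w else 0

/-- fourth moment of the random Dirichlet polynomial -/
noncomputable def Q4 (D : Finset ℤ) (ρ : ℤ → ℝ) : ℝ :=
  ∑ p ∈ (D ×ˢ D) ×ˢ (D ×ˢ D),
    if (p.1.1 * p.1.2).natAbs = (p.2.1 * p.2.2).natAbs
      then ρ p.1.1 * ρ p.1.2 * (ρ p.2.1 * ρ p.2.2) else 0

/-! ### Measure theory on the circle -/

/-- M1 -/
def S_M1 : Prop := ∀ (v : ℤ) (η : ℝ), v ≠ 0 → 0 ≤ η → η ≤ 1 / 2 →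
  (volume : Measure T).real {α | ‖v • α‖ < η} = 2 * η

/-- M2: joint measure -/
def S_M2 : Prop := ∀ (v w : ℤ) (η : ℝ), v ≠ 0 → w ≠ 0 → 0 ≤ η → η ≤ 1 / 2 →
  (volume : Measure T).real {α | ‖v • α‖ < η ∧ ‖w • α‖ < η} ≤ 4 * η ^ 2 + 2 * η / ht v w

/-- M3: coincidences -/
def S_M3 : Prop := ∀ (v w : ℤ) (η : ℝ), v ≠ 0 → w ≠ 0 → 0 ≤ η →
  {α : T | ‖(Int.gcd v w : ℤ) • α‖ < η / ht v w} ⊆ {α | ‖v • α‖ < η ∧ ‖w • α‖ < η}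

/-- VL: second moment bound (pairs of height more than `H` are trivial) -/
def S_VL : Prop := ∀ (D : Finset ℤ) (ρ : ℤ → ℝ) (η a : ℝ) (H : ℕ), 0 ∉ D → (∀ v, 0 ≤ ρ v) →
  0 ≤ η → η ≤ 1 / 2 → 0 < a → 1 ≤ H →
  (volume : Measure T).real {α | a < |∑ v ∈ D, ρ v * (ind η v α - 2 * η)|} ≤
    (2 * η * G D ρ H + 2 * η * (∑ v ∈ D, ρ v) ^ 2 / H) / a ^ 2

/-- VH: truncated second moment bound -/
def S_VH : Prop := ∀ (D : Finset ℤ) (ρ : ℤ → ℝ) (η a r : ℝ) (K H : ℕ), 0 ∉ D → (∀ v, 0 ≤ ρ v) →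
  0 ≤ η → η ≤ 1 / 2 → 0 < a → 1 ≤ K → K ≤ H → 0 ≤ r → r ≤ 1 →
  (∀ v ∈ D, ∑ q ∈ (D.filter (fun w => ht v w ≤ H)).image (qn v), (1 : ℝ) / max q K ≤ r) →
  (volume : Measure T).real {α | a < |∑ v ∈ D, ρ v * (ind η v α - 2 * η)|} ≤
    12 * η * (∑ v ∈ D, ρ v) * r / a + 9 / a ^ 2 * (8 * η ^ 2 * (∑ v ∈ D, ρ v) ^ 2 * r +
      2 * η * G D ρ K + 2 * η * (∑ v ∈ D, ρ v) ^ 2 / H)

/-! ### The random model -/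

/-- CHAR: a finite model of a random completely multiplicative function -/
def S_CHAR : Prop := ∀ B : ℕ, ∃ (g : ℕ) (χ : Fin (g + 1) → ℕ → ℂ),
  (∀ i, ∀ m n : ℕ, 0 < m → 0 < n → χ i (m * n) = χ i m * χ i n) ∧
  ∀ m n : ℕ, 0 < m → m ≤ B → 0 < n → n ≤ B →
    ∑ i, χ i m * (starRingEnd ℂ) (χ i n) = if m = n then ((g : ℂ) + 1) else 0

/-- MOMZ: moments of `∑ n ^ (-1/2) χ n` -/
def S_MOMZ : Prop := ∀ (K k : ℕ), 1 ≤ k →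
  ∑ p ∈ (Fintype.piFinset (fun _ : Fin k => Icc 1 K)) ×ˢ
      (Fintype.piFinset (fun _ : Fin k => Icc 1 K)),
    (if ∏ i, p.1 i = ∏ i, p.2 i then
      (∏ i, (Real.sqrt (p.1 i))⁻¹) * ∏ i, (Real.sqrt (p.2 i))⁻¹ else 0) ≤ harm K ^ (k ^ 2)

/-- HLD: Hölder's inequality for finite averages -/
def S_HLD : Prop := ∀ (n k : ℕ) (x z : Fin (n + 1) → ℝ), (∀ i, 0 ≤ x i) → (∀ i, 0 ≤ z i) → 2 ≤ k →
  (∑ i, x i ^ 2 * z i ^ 2) ^ k ≤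
    (∑ i, x i ^ 2) ^ (k - 2) * (∑ i, x i ^ 4) * ∑ i, z i ^ (2 * k)

/-- HOL: the gcd sum inequality -/
def S_HOL : Prop := ∀ (D : Finset ℤ) (ρ : ℤ → ℝ) (K k : ℕ), 0 ∉ D → (∀ v, 0 ≤ ρ v) → 2 ≤ k →
  G D ρ K ^ k ≤ Q2 D ρ ^ (k - 2) * Q4 D ρ * harm K ^ (k ^ 2)

/-! ### Incidences -/

/-- number of points of `A × A` on the line `a - x b = t` -/
def pl (A : Finset ℤ) (x t : ℚ) : ℕ :=
  ((A ×ˢ A).filter (fun p => (p.1 : ℚ) - x * p.2 = t)).card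

/-- energy of `A` and its dilate -/
def Cx (A : Finset ℤ) (x : ℚ) : ℕ :=
  (((A ×ˢ A) ×ˢ (A ×ˢ A)).filter (fun p =>
    p.2.1 ≠ p.2.2 ∧ ((p.1.1 : ℚ) - p.1.2) = x * (p.2.1 - p.2.2))).card

/-- ST: rich lines of a Cartesian product -/
def S_ST : Prop := ∃ c : ℝ, 0 < c ∧ ∀ (A : Finset ℤ) (k : ℕ) (L : Finset (ℚ × ℚ)), 2 ≤ k →
  (∀ l ∈ L, 0 < l.1 ∧ k ≤ pl A l.1 l.2) → (L.card : ℝ) * (k : ℝ) ^ 3 ≤ c * (A.card : ℝ) ^ 4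

/-- CX -/
def S_CX : Prop := ∃ c : ℝ, 0 < c ∧ ∀ (A : Finset ℤ) (X : Finset ℚ), A.Nonempty →
  (∀ x ∈ X, 0 < x) →
  ∑ x ∈ X, (Cx A x : ℝ) ^ 2 ≤ c * (1 + Real.log A.card) ^ 2 * (A.card : ℝ) ^ 6

/-- Q4B -/
def S_Q4B : Prop := ∃ c : ℝ, 0 < c ∧ ∀ (A D : Finset ℤ), A.Nonempty → 0 ∉ D →
  Q4 D (fun v => (rp A v : ℝ)) ≤ c * (1 + Real.log A.card) ^ 2 * (A.card : ℝ) ^ 6

/-- Q2B -/
def S_Q2B : Prop := ∀ (D : Finset ℤ) (ρ : ℤ → ℝ), (∀ v, 0 ≤ ρ v) →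
  Q2 D ρ ≤ 2 * ∑ v ∈ D, ρ v ^ 2

/-! ### Chains of popular differences -/

/-- `w 0, w 1, ..., w (M - 1)` is a chain with respect to `v` and the primes larger than `y` -/
def Chain (v : ℤ) (y M : ℕ) (w : Fin M → ℤ) : Prop :=
  ∀ i, ∃ p : ℕ, p.Prime ∧ y < p ∧ p ∣ qn v (w i) ∧ ∀ j, j < i → ¬ p ∣ qn v (w j)

/-- IND: independence of a chain -/
def S_IND : Prop := ∀ (v : ℤ) (m M : ℕ) (w : Fin M → ℤ), v ≠ 0 → (∀ i, w i ≠ 0) →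
  Chain v m M w → ∀ c c' : Fin M → ℕ, ∑ i, c i = m → ∑ i, c' i = m →
  ∑ i, (c i : ℤ) * w i = ∑ i, (c' i : ℤ) * w i → c = c'

/-- JEN: few independent popular differences -/
def S_JEN : Prop := ∀ (A : Finset ℤ) (m M : ℕ) (w : Fin M → ℤ) (κ : ℝ), A.Nonempty → 0 < κ →
  (∀ i, (A.card : ℝ) / κ ≤ rp A (w i)) →
  (∀ c c' : Fin M → ℕ, ∑ i, c i = m → ∑ i, c' i = m →
    ∑ i, (c i : ℤ) * w i = ∑ i, (c' i : ℤ) * w i → c = c') →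
  (M : ℝ) ^ m ≤ A.card * m.factorial * κ ^ (2 * m)

/-- LEN: the length of a chain of popular differences -/
def S_LEN : Prop := ∀ (A : Finset ℤ) (v : ℤ) (m M : ℕ) (w : Fin M → ℤ) (κ : ℝ), A.Nonempty →
  0 < κ → 1 ≤ m → Real.log A.card ≤ m → v ≠ 0 → (∀ i, w i ≠ 0) →
  (∀ i, (A.card : ℝ) / κ ≤ rp A (w i)) → Chain v m M w → (M : ℝ) ≤ 3 * m * κ ^ 2

/-- PRM: few primes -/
def S_PRM : Prop := ∀ (v : ℤ) (W : Finset ℤ) (y M H : ℕ), v ≠ 0 → 0 ∉ W →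
  (∀ w ∈ W, qn v w ≤ H) → 1 ≤ H →
  (∀ (M' : ℕ) (w : Fin M' → ℤ), (∀ i, w i ∈ W) → Chain v y M' w → M' ≤ M) →
  ∃ P : Finset ℕ, P.card ≤ y + M * Nat.log 2 H ∧
    ∀ w ∈ W, ∀ p : ℕ, p.Prime → p ∣ qn v w → p ∈ P

/-- RNK: Rankin's trick -/
def S_RNK : Prop := ∀ (P V : Finset ℕ) (K : ℕ) (τ : ℝ), 1 ≤ K → 0 < τ → τ ≤ 1 / 2 →
  (∀ n ∈ V, 0 < n ∧ ∀ p : ℕ, p.Prime → p ∣ n → p ∈ P) →
  ∑ n ∈ V, (1 : ℝ) / max n K ≤ (K : ℝ) ^ (-τ) * Real.exp (4 * ((P.card : ℝ) + 1) ^ τ / τ)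

/-- RHO: the input of VH -/
def S_RHO : Prop := ∀ (A : Finset ℤ) (κ τ : ℝ) (m K H : ℕ), A.Nonempty → 1 ≤ κ → 0 < τ →
  τ ≤ 1 / 2 → 1 ≤ m → Real.log A.card ≤ m → 1 ≤ K → K ≤ H →
  ∀ v ∈ (Df A).filter (fun v => (A.card : ℝ) / κ ≤ rp A v),
  ∑ q ∈ (((Df A).filter (fun v => (A.card : ℝ) / κ ≤ rp A v)).filter
      (fun w => ht v w ≤ H)).image (qn v), (1 : ℝ) / max q K ≤
    (K : ℝ) ^ (-τ) * Real.exp (4 * ((m : ℝ) + 3 * m * κ ^ 2 * Nat.log 2 H + 1) ^ τ / τ)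

/-! ### Numerics -/

/-- NUM1 -/
def S_NUM1 : Prop := ∀ e : ℝ, 0 < e → e ≤ 1 → ∃ N₀ : ℕ, ∀ N : ℕ, N₀ ≤ N →
  1 ≤ ⌊Real.exp (Real.log N ^ e)⌋₊ ∧
  ⌊Real.exp (Real.log N ^ e)⌋₊ ≤ ⌈N * Real.log N ^ 4⌉₊ ∧
  (⌊Real.exp (Real.log N ^ e)⌋₊ : ℝ) ^ (-(e / 200)) *
    Real.exp (4 * ((⌈Real.log N⌉₊ : ℝ) + 3 * ⌈Real.log N⌉₊ * (Real.log N ^ 30) ^ 2 *
      Nat.log 2 ⌈N * Real.log N ^ 4⌉₊ + 1) ^ (e / 200) / (e / 200)) ≤ (Real.log N) ^ (-(4 : ℝ))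

/-- NUM2 -/
def S_NUM2 : Prop := ∀ C c₀ c₁ B : ℝ, 1 < C → 0 < c₀ → 0 < c₁ → 0 < B →
  ∃ (k : ℕ) (e c : ℝ), 2 ≤ k ∧ 0 < e ∧ e ≤ 1 ∧ 0 < c ∧ c ≤ 1 ∧ ∃ N₀ : ℕ, ∀ N : ℕ, N₀ ≤ N →
  ∀ g : ℝ, 0 ≤ g → g ^ k ≤ (2 * (c₀ * (N : ℝ) ^ 3 / (Real.log N) ^ C)) ^ (k - 2) *
    (c₁ * (1 + Real.log N) ^ 2 * (N : ℝ) ^ 6) * harm ⌊Real.exp (Real.log N ^ e)⌋₊ ^ (k ^ 2) →
  B * g / (N : ℝ) ^ 3 ≤ (Real.log N) ^ (-(1 + c))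

/-- NUM3 -/
def S_NUM3 : Prop := ∀ c₁ B : ℝ, 0 < c₁ → 0 < B → ∃ N₀ : ℕ, ∀ N : ℕ, N₀ ≤ N →
  ∀ g : ℝ, 0 ≤ g → g ^ 3 ≤ (2 * ((N : ℝ) ^ 3 / (Real.log N) ^ 30)) *
    (c₁ * (1 + Real.log N) ^ 2 * (N : ℝ) ^ 6) * harm ⌈N * Real.log N ^ 4⌉₊ ^ 9 →
  B * (g / (N : ℝ) ^ 3 + N / (⌈N * Real.log N ^ 4⌉₊ : ℝ)) ≤ (Real.log N) ^ (-(3 : ℝ))

/-! ### Assembly for one set -/

/-- CNT: the counting function -/
def S_CNT : Prop := ∀ (A : Finset ℤ) (η : ℝ) (α : T), A.Nonempty →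
  (Cnt A η α : ℝ) - 2 * η * ((A.card : ℝ) ^ 2 - A.card) =
    ∑ v ∈ Df A, (rp A v : ℝ) * (ind η v α - 2 * η) ∧
  ∑ v ∈ Df A, (rp A v : ℝ) ≤ (A.card : ℝ) ^ 2 ∧ (∀ v, rp A v ≤ A.card) ∧
  ∑ v ∈ Df A, (rp A v : ℝ) ^ 2 ≤ En A

/-- LOW: the unpopular differences -/
def S_LOW : Prop := ∀ s ε : ℝ, 0 < s → 0 < ε → ∃ N₀ : ℕ, ∀ A : Finset ℤ, N₀ ≤ A.card →
  (volume : Measure T).real {α | ε * A.card < |∑ v ∈ (Df A).filter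
      (fun v => (rp A v : ℝ) < A.card / (Real.log A.card) ^ 30),
      (rp A v : ℝ) * (ind (s / A.card) v α - 2 * (s / A.card))|} ≤ (Real.log A.card) ^ (-(3 : ℝ))

/-- HIGH: the popular differences -/
def S_HIGH : Prop := ∀ C c₀ s ε : ℝ, 1 < C → 0 < c₀ → 0 < s → 0 < ε → ∃ c : ℝ, 0 < c ∧
  ∃ N₀ : ℕ, ∀ A : Finset ℤ, N₀ ≤ A.card →
  (En A : ℝ) ≤ c₀ * (A.card : ℝ) ^ 3 / (Real.log A.card) ^ C →
  (volume : Measure T).real {α | ε * A.card < |∑ v ∈ (Df A).filter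
      (fun v => (A.card : ℝ) / (Real.log A.card) ^ 30 ≤ rp A v),
      (rp A v : ℝ) * (ind (s / A.card) v α - 2 * (s / A.card))|} ≤ (Real.log A.card) ^ (-(1 + c))

/-- PS: the theorem for one set -/
def S_PS : Prop := ∀ C c₀ s ε : ℝ, 1 < C → 0 < c₀ → 0 < s → 0 < ε → ∃ c : ℝ, 0 < c ∧
  ∃ N₀ : ℕ, ∀ A : Finset ℤ, N₀ ≤ A.card →
  (En A : ℝ) ≤ c₀ * (A.card : ℝ) ^ 3 / (Real.log A.card) ^ C →
  (volume : Measure T).real {α | ε < |(Cnt A (s / A.card) α : ℝ) / A.card - 2 * s|} ≤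
    (Real.log A.card) ^ (-(1 + c))

/-! ### From one set to sequences -/

/-- the first `N` terms -/
def fst (a : ℕ → ℤ) (N : ℕ) : Finset ℤ := (range N).image a

/-- BC: Borel-Cantelli along `⌊(1 + θ) ^ j⌋` -/
def S_BC : Prop := ∀ (a : ℕ → ℤ) (C c₀ s ε θ : ℝ), Function.Injective a → 1 < C → 0 < c₀ →
  0 < s → 0 < ε → 0 < θ →
  (∀ N : ℕ, 2 ≤ N → (En (fst a N) : ℝ) ≤ c₀ * (N : ℝ) ^ 3 / (Real.log N) ^ C) →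
  ∀ᵐ α : T, ∀ᶠ j : ℕ in atTop,
    |(Cnt (fst a ⌊(1 + θ) ^ j⌋₊) (s / ⌊(1 + θ) ^ j⌋₊) α : ℝ) / ⌊(1 + θ) ^ j⌋₊ - 2 * s| ≤ ε

/-- AE: almost everywhere on the circle -/
def S_AE : Prop := ∀ (a : ℕ → ℤ) (C c₀ : ℝ), Function.Injective a → 1 < C → 0 < c₀ →
  (∀ N : ℕ, 2 ≤ N → (En (fst a N) : ℝ) ≤ c₀ * (N : ℝ) ^ 3 / (Real.log N) ^ C) →
  ∀ᵐ α : T, ∀ s : ℝ, 0 < s →
    Tendsto (fun N : ℕ => (Cnt (fst a N) (s / N) α : ℝ) / N) atTop (𝓝 (2 * s))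

/-- distance to the nearest integer -/
noncomputable def nint (x : ℝ) : ℝ := |x - round x|

/-- Poissonian pair correlations -/
def PPC (x : ℕ → ℝ) : Prop := ∀ s : ℝ, 0 < s →
  Tendsto (fun N : ℕ => (1 / (N : ℝ)) * ((((range N) ×ˢ (range N)).filter
    (fun p => p.1 ≠ p.2 ∧ nint (x p.1 - x p.2) < s / N)).card : ℝ)) atTop (𝓝 (2 * s))

/-- energy of the first `N` terms of a sequence -/
def EnSeq (a : ℕ → ℤ) (N : ℕ) : ℕ :=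
  (((range N ×ˢ range N) ×ˢ (range N ×ˢ range N)).filter
    (fun p => a p.1.1 + a p.1.2 = a p.2.1 + a p.2.2)).card

/-- FIN: the final theorem -/
def S_FIN : Prop := ∀ C : ℝ, 1 < C → ∀ a : ℕ → ℤ, Function.Injective a →
  (fun N : ℕ => (EnSeq a N : ℝ)) =O[atTop] (fun N : ℕ => (N : ℝ) ^ 3 / (Real.log N) ^ C) →
  ∀ᵐ α : ℝ, PPC (fun n => Int.fract (a n * α))

end Pool.Agent.H505R5.PC
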