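import Pool.Agent.H505R5.PC.Defs

/-!
# FIN: from the circle to the real line, from the set of values to the sequence
-/

set_option autoImplicit false

open MeasureTheory Finset Filter Topology
open scoped BigOperators ENNReal

namespace Pool.Agent.H505R5.PC

theorem FIN_energy (a : ℕ → ℤ) (ha : Function.Injective a) (N : ℕ) :
    EnSeq a N = En (fst a N) := by
  unfold EnSeq En fst
  apply Finset.card_bij (fun p _ => ((a p.1.1, a p.1.2), (a p.2.1, a p.2.2)))
  · intro p hp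
    simp only [mem_filter, mem_product, mem_range] at hp
    simp only [mem_filter, mem_product, mem_image, mem_range]
    exact ⟨⟨⟨⟨p.1.1, hp.1.1.1, rfl⟩, ⟨p.1.2, hp.1.1.2, rfl⟩⟩,
      ⟨⟨p.2.1, hp.1.2.1, rfl⟩, ⟨p.2.2, hp.1.2.2, rfl⟩⟩⟩, hp.2⟩
  · intro p _ q _ h
    simp only [Prod.mk.injEq] at h
    exact Prod.ext (Prod.ext (ha h.1.1) (ha h.1.2)) (Prod.ext (ha h.2.1) (ha h.2.2))
  · intro q hq
    simp only [mem_filter, mem_product, mem_image, mem_range] at hq
    obtain ⟨⟨⟨⟨i, hi, hi'⟩, ⟨j, hj, hj'⟩⟩, ⟨⟨k, hk, hk'⟩, ⟨l, hl, hl'⟩⟩⟩, hs⟩ := hq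
    refine ⟨((i, j), (k, l)), ?_, ?_⟩
    · simp only [mem_filter, mem_product, mem_range]
      refine ⟨⟨⟨hi, hj⟩, ⟨hk, hl⟩⟩, ?_⟩
      rw [hi', hj', hk', hl']
      exact hs
    · simp only [hi', hj', hk', hl']

theorem FIN_norm (m n : ℤ) (x : ℝ) :
    nint (Int.fract (m * x) - Int.fract (n * x)) = ‖(m - n) • (x : T)‖ := by
  have h1 : (m - n) • (x : T) = (((m * x - n * x : ℝ)) : T) := by
    rw [← AddCircle.coe_zsmul]
    congr 1
    rw [zsmul_eq_mul]
    push_cast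
    ring
  have h2 : (((m * x - n * x : ℝ)) : T) =
      ((Int.fract (m * x) - Int.fract (n * x) : ℝ) : T) := by
    have h3 : (m * x - n * x : ℝ) = (Int.fract (m * x) - Int.fract (n * x)) +
        ((⌊(m : ℝ) * x⌋ - ⌊(n : ℝ) * x⌋ : ℤ) : ℝ) := by
      unfold Int.fract
      push_cast
      ring
    rw [h3, AddCircle.coe_add]
    have h4 : ((((⌊(m : ℝ) * x⌋ - ⌊(n : ℝ) * x⌋ : ℤ) : ℝ)) : T) = 0 := by
      rw [AddCircle.coe_eq_zero_iff]
      exact ⟨⌊(m : ℝ) * x⌋ - ⌊(n : ℝ) * x⌋, by simp⟩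
    rw [h4, add_zero]
  rw [h1, h2, UnitAddCircle.norm_eq]
  rfl

theorem FIN_count (a : ℕ → ℤ) (ha : Function.Injective a) (N : ℕ) (η x : ℝ) :
    (((range N) ×ˢ (range N)).filter (fun p => p.1 ≠ p.2 ∧
      nint (Int.fract (a p.1 * x) - Int.fract (a p.2 * x)) < η)).card =
      Cnt (fst a N) η (x : T) := by
  classical
  unfold Cnt fst
  apply Finset.card_bij (fun p _ => (a p.1, a p.2))
  · intro p hp
    simp only [mem_filter, mem_product, mem_range] at hp
    simp only [mem_filter, mem_product, mem_image, mem_range]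
    refine ⟨⟨⟨p.1, hp.1.1, rfl⟩, ⟨p.2, hp.1.2, rfl⟩⟩, fun h => hp.2.1 (ha h), ?_⟩
    rw [← FIN_norm]
    exact hp.2.2
  · intro p _ q _ h
    simp only [Prod.mk.injEq] at h
    exact Prod.ext (ha h.1) (ha h.2)
  · intro q hq
    simp only [mem_filter, mem_product, mem_image, mem_range] at hq
    obtain ⟨⟨⟨i, hi, hi'⟩, ⟨j, hj, hj'⟩⟩, hne, hlt⟩ := hq
    refine ⟨(i, j), ?_, ?_⟩
    · simp only [mem_filter, mem_product, mem_range]
      refine ⟨⟨hi, hj⟩, ?_, ?_⟩
      · intro h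
        apply hne
        rw [← hi', ← hj', h]
      · rw [FIN_norm, hi', hj']
        exact hlt
    · simp only [hi', hj']

theorem FIN_ae (p : T → Prop) (h : ∀ᵐ α : T, p α) : ∀ᵐ x : ℝ, p (x : T) := by
  have h1 : ∀ n : ℤ, ∀ᵐ (x : ℝ) ∂(volume.restrict (Set.Ioc (n : ℝ) (n + 1))), p (x : T) := by
    intro n
    have h2 := (UnitAddCircle.measurePreserving_mk (n : ℝ)).quasiMeasurePreserving
    exact h2.ae h
  rw [← ae_restrict_iUnion_iff, iUnion_Ioc_intCast, Measure.restrict_univ] at h1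
  exact h1

theorem FIN_bound (C : ℝ) (E : ℕ → ℝ) (hE : ∀ N, 0 ≤ E N)
    (h : E =O[atTop] (fun N : ℕ => (N : ℝ) ^ 3 / (Real.log N) ^ C)) :
    ∃ c₀ : ℝ, 0 < c₀ ∧ ∀ N : ℕ, 2 ≤ N → E N ≤ c₀ * (N : ℝ) ^ 3 / (Real.log N) ^ C := by
  obtain ⟨c, hc⟩ := h.bound
  obtain ⟨N1, hN1⟩ := eventually_atTop.1 hc
  have hpos : ∀ N : ℕ, 2 ≤ N → 0 < (N : ℝ) ^ 3 / (Real.log N) ^ C := by
    intro N hN
    have h1 : (1 : ℝ) < N := by exact_mod_cast (by omega : 1 < N)
    have h2 : 0 < Real.log N := Real.log_pos h1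
    positivity
  refine ⟨|c| + 1 + ∑ M ∈ range N1, E M / ((M : ℝ) ^ 3 / (Real.log M) ^ C) * (if 2 ≤ M then 1 else 0),
    ?_, ?_⟩
  · have : 0 ≤ ∑ M ∈ range N1, E M / ((M : ℝ) ^ 3 / (Real.log M) ^ C) *
        (if 2 ≤ M then 1 else 0) := by
      apply Finset.sum_nonneg
      intro M _
      split_ifs with hM
      · rw [mul_one]
        exact div_nonneg (hE M) (hpos M hM).le
      · rw [mul_zero]
    have h2 := abs_nonneg c
    linarith
  · intro N hN
    have hp := hpos N hN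
    rw [mul_div_assoc]
    have hs : 0 ≤ ∑ M ∈ range N1, E M / ((M : ℝ) ^ 3 / (Real.log M) ^ C) *
        (if 2 ≤ M then 1 else 0) := by
      apply Finset.sum_nonneg
      intro M _
      split_ifs with hM
      · rw [mul_one]
        exact div_nonneg (hE M) (hpos M hM).le
      · rw [mul_zero]
    by_cases hNN : N1 ≤ N
    · have h1 := hN1 N hNN
      rw [Real.norm_eq_abs, Real.norm_eq_abs, abs_of_nonneg (hE N), abs_of_pos hp] at h1
      refine h1.trans (mul_le_mul_of_nonneg_right ?_ hp.le)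
      have := le_abs_self c
      linarith
    · have hmem : N ∈ range N1 := by
        rw [mem_range]; omega
      have h1 : E N / ((N : ℝ) ^ 3 / (Real.log N) ^ C) * (if 2 ≤ N then 1 else 0) ≤
          ∑ M ∈ range N1, E M / ((M : ℝ) ^ 3 / (Real.log M) ^ C) * (if 2 ≤ M then 1 else 0) := by
        apply Finset.single_le_sum (f := fun M : ℕ => E M / ((M : ℝ) ^ 3 / (Real.log M) ^ C) *
          (if 2 ≤ M then 1 else 0)) _ hmem
        intro M _
        show 0 ≤ E M / ((M : ℝ) ^ 3 / (Real.log M) ^ C) * (if 2 ≤ M then 1 else 0)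
        split_ifs with hM
        · rw [mul_one]
          exact div_nonneg (hE M) (hpos M hM).le
        · rw [mul_zero]
      rw [if_pos hN, mul_one] at h1
      have h2 : E N / ((N : ℝ) ^ 3 / (Real.log N) ^ C) ≤
          |c| + 1 + ∑ M ∈ range N1, E M / ((M : ℝ) ^ 3 / (Real.log M) ^ C) *
            (if 2 ≤ M then 1 else 0) := by
        have := abs_nonneg c
        linarith
      rwa [div_le_iff₀ hp] at h2

theorem t_FIN (h1 : S_AE) : S_FIN := by
  intro C hC a ha hO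
  obtain ⟨c₀, hc0, hb⟩ := FIN_bound C (fun N => (EnSeq a N : ℝ)) (fun N => Nat.cast_nonneg _) hO
  have h2 := h1 a C c₀ ha hC hc0 (by
    intro N hN
    rw [← FIN_energy a ha N]
    exact hb N hN)
  filter_upwards [FIN_ae _ h2] with x hx
  intro s hs
  have h3 := hx s hs
  refine h3.congr ?_
  intro N
  rw [FIN_count a ha N (s / N) x]
  ring

end Pool.Agent.H505R5.PC
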