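import Pool.Agent.H505R5.PC.Defs

/-! Task HIGH (helper672): the popular differences. -/

set_option autoImplicit false

open MeasureTheory Finset Filter Topology
open scoped BigOperators ENNReal

namespace Pool.Agent.H505R5.PC

theorem HIGH_Gnonneg (D : Finset ℤ) (ρ : ℤ → ℝ) (K : ℕ) (hρ : ∀ v, 0 ≤ ρ v) : 0 ≤ G D ρ K := by
  unfold G
  refine Finset.sum_nonneg fun v _ => Finset.sum_nonneg fun w _ => ?_
  split_ifs
  · exact div_nonneg (mul_nonneg (hρ v) (hρ w)) (Nat.cast_nonneg _)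
  · exact le_rfl

theorem HIGH_Q2nonneg (D : Finset ℤ) (ρ : ℤ → ℝ) (hρ : ∀ v, 0 ≤ ρ v) : 0 ≤ Q2 D ρ := by
  unfold Q2
  refine Finset.sum_nonneg fun v _ => Finset.sum_nonneg fun w _ => ?_
  split_ifs
  · exact mul_nonneg (hρ v) (hρ w)
  · exact le_rfl

theorem HIGH_Q4nonneg (D : Finset ℤ) (ρ : ℤ → ℝ) (hρ : ∀ v, 0 ≤ ρ v) : 0 ≤ Q4 D ρ := by
  unfold Q4
  refine Finset.sum_nonneg fun p _ => ?_
  split_ifs
  · exact mul_nonneg (mul_nonneg (hρ _) (hρ _)) (mul_nonneg (hρ _) (hρ _))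
  · exact le_rfl

theorem HIGH_harm (K : ℕ) : 0 ≤ harm K := by
  unfold harm
  exact Finset.sum_nonneg fun n _ => by positivity

/-- the numerical part -/
theorem HIGH_arith {N l s ε σ g r H P : ℝ} (hN : 0 < N) (hs : 0 < s) (hε : 0 < ε)
    (hσ0 : 0 ≤ σ) (hσ : σ ≤ N ^ 2) (hg : 0 ≤ g) (hr : 0 ≤ r) (hl : 0 < l) (hr4 : r = (l ^ 4)⁻¹)
    (hH : N * l ^ 4 ≤ H)
    (hP : P ≤ 12 * (s / N) * σ * r / (ε * N) + 9 / (ε * N) ^ 2 * (8 * (s / N) ^ 2 * σ ^ 2 * r +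
      2 * (s / N) * g + 2 * (s / N) * σ ^ 2 / H)) :
    P ≤ (12 * s / ε + 72 * s ^ 2 / ε ^ 2 + 18 * s / ε ^ 2) * r + 18 * s / ε ^ 2 * (g / N ^ 3) := by
  have hσ2 : σ ^ 2 ≤ N ^ 4 := by
    calc σ ^ 2 ≤ (N ^ 2) ^ 2 := pow_le_pow_left₀ hσ0 hσ 2
      _ = N ^ 4 := by ring
  have hH0 : 0 < N * l ^ 4 := by positivity
  have h1 : 12 * (s / N) * σ * r / (ε * N) ≤ 12 * s / ε * r := by
    calc 12 * (s / N) * σ * r / (ε * N) ≤ 12 * (s / N) * N ^ 2 * r / (ε * N) := by gcongr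
      _ = 12 * s / ε * r := by field_simp
  have h2 : 9 / (ε * N) ^ 2 * (8 * (s / N) ^ 2 * σ ^ 2 * r) ≤ 72 * s ^ 2 / ε ^ 2 * r := by
    calc 9 / (ε * N) ^ 2 * (8 * (s / N) ^ 2 * σ ^ 2 * r)
        ≤ 9 / (ε * N) ^ 2 * (8 * (s / N) ^ 2 * N ^ 4 * r) := by gcongr
      _ = 72 * s ^ 2 / ε ^ 2 * r := by field_simp; ring
  have h3 : 9 / (ε * N) ^ 2 * (2 * (s / N) * g) = 18 * s / ε ^ 2 * (g / N ^ 3) := by
    field_simp; ring
  have h4 : 9 / (ε * N) ^ 2 * (2 * (s / N) * σ ^ 2 / H) ≤ 18 * s / ε ^ 2 * r := by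
    calc 9 / (ε * N) ^ 2 * (2 * (s / N) * σ ^ 2 / H)
        ≤ 9 / (ε * N) ^ 2 * (2 * (s / N) * N ^ 4 / (N * l ^ 4)) := by gcongr
      _ = 18 * s / ε ^ 2 * (l ^ 4)⁻¹ := by field_simp; ring
      _ = 18 * s / ε ^ 2 * r := by rw [hr4]
  calc P ≤ _ := hP
    _ = 12 * (s / N) * σ * r / (ε * N) + (9 / (ε * N) ^ 2 * (8 * (s / N) ^ 2 * σ ^ 2 * r) +
        9 / (ε * N) ^ 2 * (2 * (s / N) * g) +
        9 / (ε * N) ^ 2 * (2 * (s / N) * σ ^ 2 / H)) := by ring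
    _ ≤ 12 * s / ε * r + (72 * s ^ 2 / ε ^ 2 * r + 18 * s / ε ^ 2 * (g / N ^ 3) +
        18 * s / ε ^ 2 * r) := by
      rw [h3]
      gcongr
    _ = _ := by ring

theorem t_HIGH (hVH : S_VH) (hHOL : S_HOL) (hQ2 : S_Q2B) (hQ4 : S_Q4B) (hCNT : S_CNT)
    (hRHO : S_RHO) (hN1 : S_NUM1) (hN2 : S_NUM2) : S_HIGH := by
  intro C c₀ s ε hC hc₀ hs hε
  obtain ⟨c₁, hc₁, hQ4⟩ := hQ4
  obtain ⟨k, e, c, hk, he0, he1, hc0, hc1, N₂, hN2⟩ :=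
    hN2 C c₀ c₁ (36 * s / ε ^ 2) hC hc₀ hc₁ (by positivity)
  obtain ⟨N₁, hN1⟩ := hN1 e he0 he1
  set Q : ℝ := 12 * s / ε + 72 * s ^ 2 / ε ^ 2 + 18 * s / ε ^ 2 with hQ
  have hQ0 : 0 < Q := by positivity
  set M : ℝ := max 1 (2 * Q) with hM
  refine ⟨c, hc0, max (max N₁ N₂) (max ⌈Real.exp M⌉₊ (max ⌈2 * s⌉₊ 3)), ?_⟩
  intro A hA hEn
  have hA1 : N₁ ≤ A.card := le_trans (le_max_left _ _) (le_trans (le_max_left _ _) hA)
  have hA2 : N₂ ≤ A.card := le_trans (le_max_right _ _) (le_trans (le_max_left _ _) hA)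
  have hA3 : ⌈Real.exp M⌉₊ ≤ A.card :=
    le_trans (le_max_left _ _) (le_trans (le_max_right _ _) hA)
  have hA4 : ⌈2 * s⌉₊ ≤ A.card :=
    le_trans (le_max_left _ _) (le_trans (le_max_right _ _) (le_trans (le_max_right _ _) hA))
  have hA5 : 3 ≤ A.card :=
    le_trans (le_max_right _ _) (le_trans (le_max_right _ _) (le_trans (le_max_right _ _) hA))
  have hne : A.Nonempty := Finset.card_pos.1 (by omega)
  obtain ⟨hK1, hKH, hK3⟩ := hN1 A.card hA1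
  have hN2' := hN2 A.card hA2
  set N : ℝ := (A.card : ℝ) with hNdef
  set l : ℝ := Real.log N with hl
  have hNpos : 0 < N := by
    rw [hNdef]
    exact_mod_cast (by omega : 0 < A.card)
  have hexp : Real.exp M ≤ N := (Nat.ceil_le.1 hA3)
  have hlM : M ≤ l := (Real.le_log_iff_exp_le hNpos).2 hexp
  have hl1 : 1 ≤ l := (le_max_left _ _).trans hlM
  have hlQ : 2 * Q ≤ l := (le_max_right _ _).trans hlM
  have hl0 : 0 < l := by linarith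
  have h2s : 2 * s ≤ N := Nat.ceil_le.1 hA4
  set K : ℕ := ⌊Real.exp (l ^ e)⌋₊ with hKdef
  set H : ℕ := ⌈N * l ^ 4⌉₊ with hHdef
  set D : Finset ℤ := (Df A).filter (fun v => N / l ^ 30 ≤ rp A v) with hDdef
  set ρ : ℤ → ℝ := fun v => (rp A v : ℝ) with hρdef
  have hρ0 : ∀ v, 0 ≤ ρ v := fun v => Nat.cast_nonneg _
  have h0D : (0 : ℤ) ∉ D := by
    intro h
    have h1 := (Finset.mem_filter.1 h).1
    unfold Df at h1
    exact (Finset.mem_erase.1 h1).1 rfl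
  obtain ⟨-, hsum, -, hsq⟩ := hCNT A (s / N) 0 hne
  have hDsub : D ⊆ Df A := Finset.filter_subset _ _
  have hσ : ∑ v ∈ D, ρ v ≤ N ^ 2 :=
    (Finset.sum_le_sum_of_subset_of_nonneg hDsub fun v _ _ => hρ0 v).trans hsum
  have hσ0 : 0 ≤ ∑ v ∈ D, ρ v := Finset.sum_nonneg fun v _ => hρ0 v
  have hsq' : ∑ v ∈ D, ρ v ^ 2 ≤ (En A : ℝ) :=
    (Finset.sum_le_sum_of_subset_of_nonneg hDsub fun v _ _ => sq_nonneg _).trans hsq
  set r : ℝ := (l ^ 4)⁻¹ with hr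
  have hr0 : 0 ≤ r := by positivity
  have hr1 : r ≤ 1 := by
    rw [hr]
    exact inv_le_one_of_one_le₀ (one_le_pow₀ hl1)
  have hr4 : l ^ (-(4 : ℝ)) = r := by
    rw [Real.rpow_neg hl0.le, hr]
    congr 1
    exact_mod_cast Real.rpow_natCast l 4
  have hcondr : ∀ v ∈ D, ∑ q ∈ (D.filter (fun w => ht v w ≤ H)).image (qn v),
      (1 : ℝ) / max q K ≤ r := by
    intro v hv
    have h1 := hRHO A (l ^ 30) (e / 200) ⌈l⌉₊ K H hne (one_le_pow₀ hl1) (by positivity)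
      (by linarith) (Nat.one_le_iff_ne_zero.2 (Nat.ceil_pos.2 hl0).ne') (Nat.le_ceil _) hK1 hKH
      v hv
    rw [← hr4]
    exact h1.trans hK3
  have hV := hVH D ρ (s / N) (ε * N) r K H h0D hρ0 (by positivity) (by
    rw [div_le_iff₀ hNpos]
    linarith) (by positivity) hK1 hKH hr0 hr1 hcondr
  set g : ℝ := G D ρ K with hg
  have hg0 : 0 ≤ g := HIGH_Gnonneg D ρ K hρ0
  have hgk : g ^ k ≤ (2 * (c₀ * N ^ 3 / l ^ C)) ^ (k - 2) * (c₁ * (1 + l) ^ 2 * N ^ 6) *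
      harm K ^ (k ^ 2) := by
    refine (hHOL D ρ K k h0D hρ0 hk).trans ?_
    have h1 : Q2 D ρ ≤ 2 * (c₀ * N ^ 3 / l ^ C) :=
      (hQ2 D ρ hρ0).trans (mul_le_mul_of_nonneg_left (hsq'.trans hEn) (by norm_num))
    have h2 : Q4 D ρ ≤ c₁ * (1 + l) ^ 2 * N ^ 6 := hQ4 A D hne h0D
    have h3 := HIGH_Q2nonneg D ρ hρ0
    have h4 := HIGH_Q4nonneg D ρ hρ0
    have h5 := HIGH_harm K
    have h6 : 0 ≤ 2 * (c₀ * N ^ 3 / l ^ C) := h3.trans h1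
    refine mul_le_mul_of_nonneg_right ?_ (by positivity)
    exact mul_le_mul (pow_le_pow_left₀ h3 h1 _) h2 h4 (by positivity)
  have hBg := hN2' g hg0 hgk
  have hHle : N * l ^ 4 ≤ (H : ℝ) := Nat.le_ceil _
  have hfin := HIGH_arith hNpos hs hε hσ0 hσ hg0 hr0 hl0 hr hHle hV
  rw [← hQ] at hfin
  refine hfin.trans ?_
  have h7 : 18 * s / ε ^ 2 * (g / N ^ 3) ≤ l ^ (-(1 + c)) / 2 := by
    have e1 : 18 * s / ε ^ 2 * (g / N ^ 3) = (36 * s / ε ^ 2 * g / N ^ 3) / 2 := by ring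
    rw [e1]
    linarith
  have h8 : Q * r ≤ l ^ (-(1 + c)) / 2 := by
    have e1 : l ^ (-(4 : ℝ)) ≤ l ^ (-(1 + c)) * l ^ (-(1 : ℝ)) := by
      rw [← Real.rpow_add hl0]
      exact Real.rpow_le_rpow_of_exponent_le hl1 (by linarith)
    rw [hr4, Real.rpow_neg_one] at e1
    have e2 : Q * l⁻¹ ≤ 1 / 2 := by
      rw [← div_eq_mul_inv, div_le_iff₀ hl0]
      linarith
    have e3 : 0 ≤ l ^ (-(1 + c)) := Real.rpow_nonneg hl0.le _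
    calc Q * r ≤ Q * (l ^ (-(1 + c)) * l⁻¹) := mul_le_mul_of_nonneg_left e1 hQ0.le
      _ = l ^ (-(1 + c)) * (Q * l⁻¹) := by ring
      _ ≤ l ^ (-(1 + c)) * (1 / 2) := mul_le_mul_of_nonneg_left e2 e3
      _ = l ^ (-(1 + c)) / 2 := by ring
  linarith

end Pool.Agent.H505R5.PC
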