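import Pool.Agent.H505R5.PC.Defs

/-! HLD: Hölder's inequality with exponents `(k-2)/k, 1/k, 1/k`. -/

set_option autoImplicit false

open MeasureTheory Finset Filter Topology
open scoped BigOperators ENNReal

namespace Pool.Agent.H505R5.PC

theorem HLD_alg (X Y Z p q r : ℝ) (hp : p ≠ 0) (hq : q ≠ 0) (hr : r ≠ 0) :
    X * Y * Z = (p * q * r) * (X / p * (Y / q) * (Z / r)) := by
  field_simp

theorem HLD_term (k : ℕ) (hk : 2 ≤ k) (x z : ℝ) :
    (x ^ 2 : ℝ) ^ (((k : ℝ) - 2) / k) * (x ^ 4 : ℝ) ^ ((k : ℝ)⁻¹) * (z ^ (2 * k) : ℝ) ^ ((k : ℝ)⁻¹) =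
      x ^ 2 * z ^ 2 := by
  have hk0 : (k : ℝ) ≠ 0 := by
    have : k ≠ 0 := by omega
    exact_mod_cast this
  have hk2 : (2 : ℝ) ≤ k := by exact_mod_cast hk
  have hkpos : (0 : ℝ) < k := by linarith
  have h1 : (x ^ 4 : ℝ) ^ ((k : ℝ)⁻¹) = (x ^ 2 : ℝ) ^ (2 * (k : ℝ)⁻¹) := by
    have h2 : (x ^ 4 : ℝ) = (x ^ 2 : ℝ) ^ (2 : ℝ) := by
      rw [Real.rpow_two]; ring
    rw [h2, ← Real.rpow_mul (sq_nonneg x)]
  have h3 : (z ^ (2 * k) : ℝ) ^ ((k : ℝ)⁻¹) = z ^ 2 := by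
    rw [pow_mul]
    exact Real.pow_rpow_inv_natCast (sq_nonneg z) (by omega)
  rw [h1, h3, ← Real.rpow_add_of_nonneg (sq_nonneg x) (div_nonneg (by linarith) hkpos.le)
    (by positivity)]
  have h4 : ((k : ℝ) - 2) / k + 2 * (k : ℝ)⁻¹ = 1 := by
    field_simp
    ring
  rw [h4, Real.rpow_one]

theorem t_HLD : S_HLD := by
  intro n k x z hx hz hk
  have hk0 : k ≠ 0 := by omega
  have hk0' : (k : ℝ) ≠ 0 := by exact_mod_cast hk0
  have hk2 : (2 : ℝ) ≤ k := by exact_mod_cast hk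
  have hkpos : (0 : ℝ) < k := by linarith
  set P : ℝ := ∑ i, x i ^ 2 with hP
  set Q : ℝ := ∑ i, x i ^ 4 with hQ
  set R : ℝ := ∑ i, z i ^ (2 * k) with hR
  have hP0 : 0 ≤ P := Finset.sum_nonneg fun i _ => sq_nonneg _
  have hQ0 : 0 ≤ Q := Finset.sum_nonneg fun i _ => by have := hx i; positivity
  have hR0 : 0 ≤ R := Finset.sum_nonneg fun i _ => by have := hz i; positivity
  have hRHS : 0 ≤ P ^ (k - 2) * Q * R := by positivity
  by_cases hPz : P = 0
  · have h1 : ∀ i, x i = 0 := by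
      intro i
      have h2 := (Finset.sum_eq_zero_iff_of_nonneg (fun i _ => sq_nonneg (x i))).1 hPz i
        (Finset.mem_univ i)
      exact pow_eq_zero_iff (two_ne_zero) |>.1 h2
    have h3 : ∑ i, x i ^ 2 * z i ^ 2 = 0 :=
      Finset.sum_eq_zero fun i _ => by rw [h1 i]; ring
    rw [h3, zero_pow hk0]
    exact hRHS
  by_cases hRz : R = 0
  · have h1 : ∀ i, z i = 0 := by
      intro i
      have h2 := (Finset.sum_eq_zero_iff_of_nonneg
        (fun i _ => by have := hz i; positivity)).1 hRz i (Finset.mem_univ i)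
      exact pow_eq_zero_iff (by omega : 2 * k ≠ 0) |>.1 h2
    have h3 : ∑ i, x i ^ 2 * z i ^ 2 = 0 :=
      Finset.sum_eq_zero fun i _ => by rw [h1 i]; ring
    rw [h3, zero_pow hk0]
    exact hRHS
  have hPp : 0 < P := lt_of_le_of_ne hP0 (Ne.symm hPz)
  have hRp : 0 < R := lt_of_le_of_ne hR0 (Ne.symm hRz)
  have hQp : 0 < Q := by
    refine lt_of_le_of_ne hQ0 (Ne.symm ?_)
    intro hQz
    apply hPz
    refine Finset.sum_eq_zero fun i _ => ?_
    have h2 := (Finset.sum_eq_zero_iff_of_nonneg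
      (fun i _ => by have := hx i; positivity)).1 hQz i (Finset.mem_univ i)
    have h3 : x i = 0 := pow_eq_zero_iff (by omega : (4 : ℕ) ≠ 0) |>.1 h2
    rw [h3]; ring
  set w : ℝ := ((k : ℝ) - 2) / k with hw
  set v : ℝ := (k : ℝ)⁻¹ with hv
  have hw0 : 0 ≤ w := div_nonneg (by linarith) hkpos.le
  have hv0 : 0 ≤ v := by positivity
  have hwv : w + v + v = 1 := by
    rw [hw, hv]
    field_simp
    ring
  set W : ℝ := P ^ w * Q ^ v * R ^ v with hW
  have hWp : 0 < W := by positivity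
  have hterm : ∀ i, x i ^ 2 * z i ^ 2 ≤
      W * (w * (x i ^ 2 / P) + v * (x i ^ 4 / Q) + v * (z i ^ (2 * k) / R)) := by
    intro i
    have hxi := hx i
    have hzi := hz i
    have h1 := Real.geom_mean_le_arith_mean3_weighted hw0 hv0 hv0
      (by positivity : 0 ≤ x i ^ 2 / P) (by positivity : 0 ≤ x i ^ 4 / Q)
      (by positivity : 0 ≤ z i ^ (2 * k) / R) hwv
    have h2 : x i ^ 2 * z i ^ 2 = W * ((x i ^ 2 / P) ^ w * (x i ^ 4 / Q) ^ v *
        (z i ^ (2 * k) / R) ^ v) := by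
      rw [← HLD_term k hk (x i) (z i), Real.div_rpow (by positivity) hPp.le,
        Real.div_rpow (by positivity) hQp.le, Real.div_rpow (by positivity) hRp.le, hW]
      have e1 : P ^ w ≠ 0 := by positivity
      have e2 : Q ^ v ≠ 0 := by positivity
      have e3 : R ^ v ≠ 0 := by positivity
      exact HLD_alg _ _ _ _ _ _ e1 e2 e3
    rw [h2]
    exact mul_le_mul_of_nonneg_left h1 hWp.le
  have hsum : ∑ i, x i ^ 2 * z i ^ 2 ≤ W := by
    calc ∑ i, x i ^ 2 * z i ^ 2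
        ≤ ∑ i, W * (w * (x i ^ 2 / P) + v * (x i ^ 4 / Q) + v * (z i ^ (2 * k) / R)) :=
          Finset.sum_le_sum fun i _ => hterm i
      _ = W * (w * (P / P) + v * (Q / Q) + v * (R / R)) := by
          rw [← Finset.mul_sum, Finset.sum_add_distrib, Finset.sum_add_distrib,
            ← Finset.mul_sum, ← Finset.mul_sum, ← Finset.mul_sum, ← Finset.sum_div,
            ← Finset.sum_div, ← Finset.sum_div]
      _ = W := by
          rw [div_self hPz, div_self hQp.ne', div_self hRz, mul_one, mul_one, hwv, mul_one]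
  have hsum0 : 0 ≤ ∑ i, x i ^ 2 * z i ^ 2 := Finset.sum_nonneg fun i _ => by positivity
  have hWk : W ^ k = P ^ (k - 2) * Q * R := by
    rw [hW, mul_pow, mul_pow]
    have h1 : (P ^ w) ^ k = P ^ (k - 2) := by
      rw [← Real.rpow_natCast (P ^ w) k, ← Real.rpow_mul hPp.le, ← Real.rpow_natCast P (k - 2)]
      congr 1
      rw [hw, Nat.cast_sub hk]
      field_simp
      norm_num
    have h2 : ∀ y : ℝ, 0 ≤ y → (y ^ v) ^ k = y := by
      intro y hy
      rw [hv]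
      exact Real.rpow_inv_natCast_pow hy hk0
    rw [h1, h2 Q hQ0, h2 R hR0]
  calc (∑ i, x i ^ 2 * z i ^ 2) ^ k ≤ W ^ k := pow_le_pow_left₀ hsum0 hsum k
    _ = _ := hWk

end Pool.Agent.H505R5.PC
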