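import Pool.Agent.H505R5.PC.Defs

set_option autoImplicit false

open MeasureTheory Finset Filter Topology
open scoped BigOperators ENNReal

namespace Pool.Agent.H505R5.PC

/-- general second moment -/
lemma HOL_gen {ι : Type*} (S : Finset ι) (a : ι → ℝ) (f : ι → ℕ) (B g : ℕ)
    (χ : Fin (g + 1) → ℕ → ℂ)
    (hχ : ∀ m n : ℕ, 0 < m → m ≤ B → 0 < n → n ≤ B →
      ∑ i, χ i m * (starRingEnd ℂ) (χ i n) = if m = n then ((g : ℂ) + 1) else 0)
    (hf : ∀ s ∈ S, 0 < f s ∧ f s ≤ B) :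
    ∑ i, ‖∑ s ∈ S, (a s : ℂ) * χ i (f s)‖ ^ 2 =
      ((g : ℝ) + 1) * ∑ s ∈ S, ∑ t ∈ S, if f s = f t then a s * a t else 0 := by
  have key : ((∑ i, ‖∑ s ∈ S, (a s : ℂ) * χ i (f s)‖ ^ 2 : ℝ) : ℂ) =
      ((((g : ℝ) + 1) * ∑ s ∈ S, ∑ t ∈ S, if f s = f t then a s * a t else 0 : ℝ) : ℂ) := by
    push_cast
    have h1 : ∀ i, ((‖∑ s ∈ S, (a s : ℂ) * χ i (f s)‖ : ℂ)) ^ 2 =
        ∑ s ∈ S, ∑ t ∈ S, ((a s : ℂ) * a t) * (χ i (f s) * (starRingEnd ℂ) (χ i (f t))) := by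
      intro i
      rw [← Complex.mul_conj', map_sum, Finset.sum_mul_sum]
      refine Finset.sum_congr rfl fun s _ => Finset.sum_congr rfl fun t _ => ?_
      rw [map_mul, Complex.conj_ofReal]
      ring
    rw [Finset.sum_congr rfl (fun i _ => h1 i), Finset.sum_comm, Finset.mul_sum]
    refine Finset.sum_congr rfl fun s hs => ?_
    rw [Finset.sum_comm, Finset.mul_sum]
    refine Finset.sum_congr rfl fun t ht => ?_
    rw [← Finset.mul_sum, hχ _ _ (hf s hs).1 (hf s hs).2 (hf t ht).1 (hf t ht).2]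
    split_ifs
    · push_cast; ring
    · push_cast; ring
  exact_mod_cast key

lemma HOL_prod (g : ℕ) (χ : Fin (g + 1) → ℕ → ℂ)
    (hm : ∀ i, ∀ m n : ℕ, 0 < m → 0 < n → χ i (m * n) = χ i m * χ i n)
    (h1 : ∀ i, χ i 1 = 1) (i : Fin (g + 1)) (k : ℕ) (p : Fin k → ℕ) (hp : ∀ j, 0 < p j) :
    χ i (∏ j, p j) = ∏ j, χ i (p j) := by
  induction k with
  | zero => simp [h1]
  | succ k ih =>
    rw [Fin.prod_univ_succ, Fin.prod_univ_succ, hm i _ _ (hp 0)
      (Finset.prod_pos fun j _ => hp _), ih _ (fun j => hp _)]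

lemma HOL_ht {v w : ℤ} (hv : v ≠ 0) (hw : w ≠ 0) (K : ℕ) (h : ht v w ≤ K) :
    1 / (ht v w : ℝ) ≤ ∑ m ∈ Icc 1 K, ∑ n ∈ Icc 1 K,
      if v.natAbs * m = w.natAbs * n then (Real.sqrt m)⁻¹ * (Real.sqrt n)⁻¹ else 0 := by
  set d := Int.gcd v w with hd
  have hd0 : 0 < d := Int.gcd_pos_of_ne_zero_left w hv
  have hdv : d ∣ v.natAbs := Int.gcd_dvd_natAbs_left v w
  have hdw : d ∣ w.natAbs := Int.gcd_dvd_natAbs_right v w
  have hv0 : 0 < v.natAbs := Int.natAbs_pos.mpr hv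
  have hw0 : 0 < w.natAbs := Int.natAbs_pos.mpr hw
  have hH : ht v w = max v.natAbs w.natAbs / d := rfl
  set m₀ := w.natAbs / d with hm₀
  set n₀ := v.natAbs / d with hn₀
  have hm1 : 1 ≤ m₀ := Nat.div_pos (Nat.le_of_dvd hw0 hdw) hd0
  have hn1 : 1 ≤ n₀ := Nat.div_pos (Nat.le_of_dvd hv0 hdv) hd0
  have hmH : m₀ ≤ ht v w := Nat.div_le_div_right (le_max_right _ _)
  have hnH : n₀ ≤ ht v w := Nat.div_le_div_right (le_max_left _ _)
  have heq : v.natAbs * m₀ = w.natAbs * n₀ := by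
    obtain ⟨a, ha⟩ := hdv
    obtain ⟨b, hb⟩ := hdw
    have : m₀ = b := by rw [hm₀, hb]; exact Nat.mul_div_cancel_left b hd0
    have h2 : n₀ = a := by rw [hn₀, ha]; exact Nat.mul_div_cancel_left a hd0
    rw [this, h2, ha, hb]; ring
  have hnn : ∀ m n : ℕ, 0 ≤ (if v.natAbs * m = w.natAbs * n then
      (Real.sqrt m)⁻¹ * (Real.sqrt n)⁻¹ else 0) := by
    intro m n; split_ifs <;> positivity
  have hmem1 : m₀ ∈ Icc 1 K := by simp; omega
  have hmem2 : n₀ ∈ Icc 1 K := by simp; omega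
  refine le_trans ?_ (Finset.single_le_sum (f := fun m => ∑ n ∈ Icc 1 K,
      if v.natAbs * m = w.natAbs * n then (Real.sqrt m)⁻¹ * (Real.sqrt n)⁻¹ else 0)
      (fun m _ => Finset.sum_nonneg fun n _ => hnn m n) hmem1)
  refine le_trans ?_ (Finset.single_le_sum (f := fun n =>
      if v.natAbs * m₀ = w.natAbs * n then (Real.sqrt m₀)⁻¹ * (Real.sqrt n)⁻¹ else 0)
      (fun n _ => hnn m₀ n) hmem2)
  simp only [heq, if_true]
  have hHpos : (0 : ℝ) < ht v w := by exact_mod_cast lt_of_lt_of_le hm1 hmH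
  have hm : Real.sqrt m₀ ≤ Real.sqrt (ht v w) := Real.sqrt_le_sqrt (by exact_mod_cast hmH)
  have hn : Real.sqrt n₀ ≤ Real.sqrt (ht v w) := Real.sqrt_le_sqrt (by exact_mod_cast hnH)
  have hm' : 0 < Real.sqrt m₀ := Real.sqrt_pos.mpr (by exact_mod_cast hm1)
  have hn' : 0 < Real.sqrt n₀ := Real.sqrt_pos.mpr (by exact_mod_cast hn1)
  rw [← mul_inv, one_div]
  apply inv_anti₀ (by positivity)
  calc Real.sqrt m₀ * Real.sqrt n₀ ≤ Real.sqrt (ht v w) * Real.sqrt (ht v w) :=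
        mul_le_mul hm hn hn'.le (Real.sqrt_nonneg _)
    _ = ht v w := Real.mul_self_sqrt hHpos.le

/-- HOL -/
theorem t_HOL (h1 : S_CHAR) (h2 : S_MOMZ) (h3 : S_HLD) : S_HOL := by
  intro D ρ K k hD hρ hk
  set s : ℕ := ∑ v ∈ D, v.natAbs + K + 1 with hs
  have hs1 : 1 ≤ s := by omega
  obtain ⟨g, χ, hmul, horth⟩ := h1 (s ^ (k + 2))
  have hsk : s ≤ s ^ (k + 2) := by
    calc s = s ^ 1 := (pow_one s).symm
      _ ≤ s ^ (k + 2) := Nat.pow_le_pow_right hs1 (by omega)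
  have hs2 : s * s ≤ s ^ (k + 2) := by
    calc s * s = s ^ 2 := by ring
      _ ≤ s ^ (k + 2) := Nat.pow_le_pow_right hs1 (by omega)
  have hDs : ∀ v ∈ D, v.natAbs ≤ s := by
    intro v hv
    have := Finset.single_le_sum (f := fun v : ℤ => v.natAbs) (fun _ _ => Nat.zero_le _) hv
    omega
  have hDp : ∀ v ∈ D, 0 < v.natAbs := by
    intro v hv
    apply Int.natAbs_pos.mpr
    rintro rfl
    exact hD hv
  have hKs : K ≤ s := by omega
  -- χ 1 = 1
  have hone : ∀ i, χ i 1 = 1 := by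
    have hd : ∀ i, χ i 1 = 0 ∨ χ i 1 = 1 := by
      intro i
      have := hmul i 1 1 one_pos one_pos
      rw [one_mul] at this
      have h' : χ i 1 * (χ i 1 - 1) = 0 := by linear_combination (-1 : ℂ) * this
      rcases mul_eq_zero.mp h' with h | h
      · left; exact h
      · right; linear_combination h
    have ho := horth 1 1 one_pos (le_trans hs1 hsk) one_pos (le_trans hs1 hsk)
    simp only [if_true] at ho
    have ho' : ((∑ i, ‖χ i 1‖ ^ 2 : ℝ) : ℂ) = (((g : ℝ) + 1 : ℝ) : ℂ) := by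
      push_cast
      rw [← ho]
      refine Finset.sum_congr rfl fun i _ => ?_
      rw [← Complex.mul_conj']
    have ho2 : (∑ i, ‖χ i 1‖ ^ 2 : ℝ) = (g : ℝ) + 1 := by exact_mod_cast ho'
    have hle : ∀ i, ‖χ i 1‖ ^ 2 ≤ 1 := by
      intro i
      rcases hd i with h | h <;> simp [h]
    intro i
    rcases hd i with h | h
    · exfalso
      have : (∑ i, ‖χ i 1‖ ^ 2 : ℝ) < ∑ _i : Fin (g + 1), (1 : ℝ) := by
        apply Finset.sum_lt_sum (fun j _ => hle j)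
        exact ⟨i, Finset.mem_univ i, by simp [h]⟩
      rw [ho2] at this
      simp at this
    · exact h
  set Dd : Fin (g + 1) → ℂ := fun i => ∑ v ∈ D, (ρ v : ℂ) * χ i v.natAbs with hDd
  set Z : Fin (g + 1) → ℂ := fun i => ∑ n ∈ Icc 1 K, (((Real.sqrt n)⁻¹ : ℝ) : ℂ) * χ i n with hZ
  -- second moment
  have e2 : ∑ i, ‖Dd i‖ ^ 2 = ((g : ℝ) + 1) * Q2 D ρ := by
    exact HOL_gen D ρ (fun v => v.natAbs) (s ^ (k + 2)) g χ horth
      (fun v hv => ⟨hDp v hv, le_trans (hDs v hv) hsk⟩)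
  have e4 : ∑ i, ‖Dd i‖ ^ 4 = ((g : ℝ) + 1) * Q4 D ρ := by
    have h := HOL_gen (D ×ˢ D) (fun p => ρ p.1 * ρ p.2) (fun p => (p.1 * p.2).natAbs)
      (s ^ (k + 2)) g χ horth (by
        intro p hp
        rw [Finset.mem_product] at hp
        simp only [Int.natAbs_mul]
        exact ⟨Nat.mul_pos (hDp _ hp.1) (hDp _ hp.2),
          le_trans (Nat.mul_le_mul (hDs _ hp.1) (hDs _ hp.2)) hs2⟩)
    have hQ : Q4 D ρ = ∑ s ∈ D ×ˢ D, ∑ t ∈ D ×ˢ D,
        if (s.1 * s.2).natAbs = (t.1 * t.2).natAbs then ρ s.1 * ρ s.2 * (ρ t.1 * ρ t.2) else 0 := by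
      rw [Q4, Finset.sum_product]
    rw [hQ, ← h]
    refine Finset.sum_congr rfl fun i _ => ?_
    have : ∑ s ∈ D ×ˢ D, ((ρ s.1 * ρ s.2 : ℝ) : ℂ) * χ i (s.1 * s.2).natAbs = Dd i ^ 2 := by
      rw [pow_two, hDd]
      simp only
      rw [Finset.sum_mul_sum, Finset.sum_product]
      refine Finset.sum_congr rfl fun v hv => Finset.sum_congr rfl fun w hw => ?_
      rw [Int.natAbs_mul, hmul i _ _ (hDp v hv) (hDp w hw)]
      push_cast
      ring
    rw [this, norm_pow]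
    ring
  have eZ : ∑ i, ‖Z i‖ ^ (2 * k) ≤ ((g : ℝ) + 1) * harm K ^ (k ^ 2) := by
    have h := HOL_gen (Fintype.piFinset (fun _ : Fin k => Icc 1 K))
      (fun p => ∏ j, (Real.sqrt (p j))⁻¹) (fun p => ∏ j, p j)
      (s ^ (k + 2)) g χ horth (by
        intro p hp
        rw [Fintype.mem_piFinset] at hp
        refine ⟨Finset.prod_pos fun j _ => ?_, ?_⟩
        · have := hp j; rw [Finset.mem_Icc] at this; omega
        · calc ∏ j, p j ≤ ∏ _j : Fin k, s := by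
                apply Finset.prod_le_prod' 
                intro j _
                have := hp j; rw [Finset.mem_Icc] at this; omega
            _ = s ^ k := by simp
            _ ≤ s ^ (k + 2) := Nat.pow_le_pow_right hs1 (by omega))
    have hM := h2 K k (by omega)
    rw [Finset.sum_product] at hM
    have hL : ∑ i, ‖Z i‖ ^ (2 * k) = ∑ i, ‖∑ p ∈ Fintype.piFinset (fun _ : Fin k => Icc 1 K),
        ((∏ j, (Real.sqrt (p j))⁻¹ : ℝ) : ℂ) * χ i (∏ j, p j)‖ ^ 2 := by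
      refine Finset.sum_congr rfl fun i _ => ?_
      have : ∑ p ∈ Fintype.piFinset (fun _ : Fin k => Icc 1 K),
        ((∏ j, (Real.sqrt (p j))⁻¹ : ℝ) : ℂ) * χ i (∏ j, p j) = Z i ^ k := by
        have hpow : Z i ^ k = ∏ _j : Fin k, Z i := by simp
        rw [hpow, hZ]
        simp only
        rw [Finset.prod_univ_sum]
        refine Finset.sum_congr rfl fun p hp => ?_
        rw [Fintype.mem_piFinset] at hp
        rw [HOL_prod g χ hmul hone i k p (fun j => by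
          have := hp j; rw [Finset.mem_Icc] at this; omega), Finset.prod_mul_distrib]
        push_cast
        rfl
      rw [this, norm_pow, ← pow_mul, mul_comm k 2]
    rw [hL, h]
    exact mul_le_mul_of_nonneg_left hM (by positivity)
  have eG : ((g : ℝ) + 1) * G D ρ K ≤ ∑ i, ‖Dd i‖ ^ 2 * ‖Z i‖ ^ 2 := by
    have h := HOL_gen (D ×ˢ Icc 1 K) (fun p => ρ p.1 * (Real.sqrt p.2)⁻¹)
      (fun p => p.1.natAbs * p.2) (s ^ (k + 2)) g χ horth (by
        intro p hp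
        rw [Finset.mem_product, Finset.mem_Icc] at hp
        exact ⟨Nat.mul_pos (hDp _ hp.1) (by omega),
          le_trans (Nat.mul_le_mul (hDs _ hp.1) (le_trans hp.2.2 hKs)) hs2⟩)
    have hL : ∑ i, ‖Dd i‖ ^ 2 * ‖Z i‖ ^ 2 = ∑ i, ‖∑ p ∈ D ×ˢ Icc 1 K,
        ((ρ p.1 * (Real.sqrt p.2)⁻¹ : ℝ) : ℂ) * χ i (p.1.natAbs * p.2)‖ ^ 2 := by
      refine Finset.sum_congr rfl fun i _ => ?_
      have : ∑ p ∈ D ×ˢ Icc 1 K,
        ((ρ p.1 * (Real.sqrt p.2)⁻¹ : ℝ) : ℂ) * χ i (p.1.natAbs * p.2) = Dd i * Z i := by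
        rw [hDd, hZ]
        simp only
        rw [Finset.sum_mul_sum, Finset.sum_product]
        refine Finset.sum_congr rfl fun v hv => Finset.sum_congr rfl fun n hn => ?_
        rw [Finset.mem_Icc] at hn
        rw [hmul i _ _ (hDp v hv) (by omega)]
        push_cast
        ring
      rw [this, norm_mul, mul_pow]
    rw [hL, h]
    refine mul_le_mul_of_nonneg_left ?_ (by positivity)
    have hR : ∑ s ∈ D ×ˢ Icc 1 K, ∑ t ∈ D ×ˢ Icc 1 K,
        (if s.1.natAbs * s.2 = t.1.natAbs * t.2 then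
          ρ s.1 * (Real.sqrt s.2)⁻¹ * (ρ t.1 * (Real.sqrt t.2)⁻¹) else 0) =
        ∑ v ∈ D, ∑ w ∈ D, (ρ v * ρ w) * ∑ m ∈ Icc 1 K, ∑ n ∈ Icc 1 K,
          if v.natAbs * m = w.natAbs * n then (Real.sqrt m)⁻¹ * (Real.sqrt n)⁻¹ else 0 := by
      rw [Finset.sum_product]
      refine Finset.sum_congr rfl fun v _ => ?_
      have h1 : ∀ m ∈ Icc 1 K, (∑ t ∈ D ×ˢ Icc 1 K,
          if v.natAbs * m = t.1.natAbs * t.2 then
          ρ v * (Real.sqrt m)⁻¹ * (ρ t.1 * (Real.sqrt t.2)⁻¹) else 0) =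
          ∑ w ∈ D, ∑ n ∈ Icc 1 K, (ρ v * ρ w) *
          if v.natAbs * m = w.natAbs * n then (Real.sqrt m)⁻¹ * (Real.sqrt n)⁻¹ else 0 := by
        intro m _
        rw [Finset.sum_product]
        refine Finset.sum_congr rfl fun w _ => Finset.sum_congr rfl fun n _ => ?_
        split_ifs
        · ring
        · ring
      rw [Finset.sum_congr rfl h1, Finset.sum_comm]
      refine Finset.sum_congr rfl fun w _ => ?_
      rw [Finset.mul_sum]
      refine Finset.sum_congr rfl fun m _ => ?_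
      rw [Finset.mul_sum]
    rw [hR, G]
    refine Finset.sum_le_sum fun v hv => Finset.sum_le_sum fun w hw => ?_
    have hv0 : v ≠ 0 := by rintro rfl; exact hD hv
    have hw0 : w ≠ 0 := by rintro rfl; exact hD hw
    split_ifs with hc
    · have := HOL_ht hv0 hw0 K hc
      calc ρ v * ρ w / (ht v w : ℝ) = (ρ v * ρ w) * (1 / (ht v w : ℝ)) := by ring
        _ ≤ _ := mul_le_mul_of_nonneg_left this (mul_nonneg (hρ v) (hρ w))
    · apply mul_nonneg (mul_nonneg (hρ v) (hρ w))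
      refine Finset.sum_nonneg fun m _ => Finset.sum_nonneg fun n _ => ?_
      split_ifs <;> positivity
  have hG0 : 0 ≤ G D ρ K := by
    rw [G]
    refine Finset.sum_nonneg fun v _ => Finset.sum_nonneg fun w _ => ?_
    split_ifs
    · exact div_nonneg (mul_nonneg (hρ v) (hρ w)) (by positivity)
    · exact le_refl _
  have hQ20 : 0 ≤ Q2 D ρ := by
    rw [Q2]
    refine Finset.sum_nonneg fun v _ => Finset.sum_nonneg fun w _ => ?_
    split_ifs
    · exact mul_nonneg (hρ v) (hρ w)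
    · exact le_refl _
  have hQ40 : 0 ≤ Q4 D ρ := by
    rw [Q4]
    refine Finset.sum_nonneg fun v _ => ?_
    split_ifs
    · exact mul_nonneg (mul_nonneg (hρ _) (hρ _)) (mul_nonneg (hρ _) (hρ _))
    · exact le_refl _
  have hH := h3 g k (fun i => ‖Dd i‖) (fun i => ‖Z i‖) (fun i => norm_nonneg _)
    (fun i => norm_nonneg _) hk
  rw [e2, e4] at hH
  have hg : (0 : ℝ) < (g : ℝ) + 1 := by positivity
  have hfin : (((g : ℝ) + 1) * G D ρ K) ^ k ≤
      (((g : ℝ) + 1) * Q2 D ρ) ^ (k - 2) * (((g : ℝ) + 1) * Q4 D ρ) *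
        (((g : ℝ) + 1) * harm K ^ (k ^ 2)) := by
    refine le_trans (pow_le_pow_left₀ (mul_nonneg hg.le hG0) eG k) (le_trans hH ?_)
    exact mul_le_mul_of_nonneg_left eZ (by positivity)
  have hre : (((g : ℝ) + 1) * Q2 D ρ) ^ (k - 2) * (((g : ℝ) + 1) * Q4 D ρ) *
        (((g : ℝ) + 1) * harm K ^ (k ^ 2)) =
      ((g : ℝ) + 1) ^ k * (Q2 D ρ ^ (k - 2) * Q4 D ρ * harm K ^ (k ^ 2)) := by
    obtain ⟨j, rfl⟩ : ∃ j, k = j + 2 := ⟨k - 2, by omega⟩
    simp only [Nat.add_sub_cancel]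
    rw [mul_pow, pow_add]
    ring
  rw [hre, mul_pow] at hfin
  exact le_of_mul_le_mul_left hfin (by positivity)

end Pool.Agent.H505R5.PC
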