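import Pool.Agent.H505R5.PC.Defs

set_option autoImplicit false

open Finset

namespace Pool.Agent.H505R5.PC

theorem t_IND : S_IND := by
  classical
  intro v m M w hv hw hch c c' hc hc' hsum
  by_contra hne
  have hex : (Finset.univ.filter (fun i => c i ≠ c' i)).Nonempty := by
    obtain ⟨i, hi⟩ := Function.ne_iff.1 hne
    exact ⟨i, by simpa using hi⟩
  obtain ⟨i, hi, hmax⟩ : ∃ i, c i ≠ c' i ∧ ∀ j, i < j → c j = c' j := by
    refine ⟨_, (Finset.mem_filter.1 (Finset.max'_mem _ hex)).2, fun j hj => ?_⟩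
    by_contra h
    exact absurd (Finset.le_max' _ j (Finset.mem_filter.2 ⟨Finset.mem_univ j, h⟩)) (not_le.2 hj)
  obtain ⟨p, hp, hpm, hpi, hpj⟩ := hch i
  have hv' : v.natAbs ≠ 0 := Int.natAbs_ne_zero.2 hv
  obtain ⟨e, he1, he2⟩ : ∃ e, p ^ e ∣ v.natAbs ∧ ¬ p ^ (e + 1) ∣ v.natAbs :=
    ⟨_, Nat.ordProj_dvd _ p, Nat.pow_succ_factorization_not_dvd hv' hp⟩
  have hfac : ∀ j, v.natAbs = Int.gcd v (w j) * qn v (w j) := by
    intro j
    unfold qn
    exact (Nat.mul_div_cancel' (Int.gcd_dvd_natAbs_left v (w j))).symm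
  -- for j < i
  have h1 : ∀ j, j < i → ((p : ℤ) ^ e) ∣ w j := by
    intro j hj
    have hcop : Nat.Coprime (p ^ e) (qn v (w j)) :=
      Nat.Coprime.pow_left e ((Nat.Prime.coprime_iff_not_dvd hp).2 (hpj j hj))
    have h2 : p ^ e ∣ Int.gcd v (w j) := by
      apply hcop.dvd_of_dvd_mul_right
      rw [← hfac j]; exact he1
    have h3 : p ^ e ∣ (w j).natAbs := h2.trans (Int.gcd_dvd_natAbs_right v (w j))
    have h4 := Int.natCast_dvd.2 h3
    exact_mod_cast h4
  -- for i
  have h2 : ¬ ((p : ℤ) ^ e) ∣ w i := by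
    intro h3
    have h4 : p ^ e ∣ (w i).natAbs := by
      apply Int.natCast_dvd.1
      exact_mod_cast h3
    have h5 : p ^ e ∣ Int.gcd v (w i) := Nat.dvd_gcd he1 h4
    apply he2
    rw [hfac i, pow_succ]
    exact Nat.mul_dvd_mul h5 hpi
  apply h2
  -- the relation
  have hrel : ∑ j, ((c j : ℤ) - c' j) * w j = 0 := by
    have : ∑ j, ((c j : ℤ) - c' j) * w j = ∑ j, (c j : ℤ) * w j - ∑ j, (c' j : ℤ) * w j := by
      rw [← Finset.sum_sub_distrib]
      exact Finset.sum_congr rfl fun j _ => by ring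
    rw [this, hsum, sub_self]
  have hrel2 : ((c i : ℤ) - c' i) * w i = - ∑ j ∈ Finset.univ.erase i, ((c j : ℤ) - c' j) * w j := by
    have := Finset.add_sum_erase Finset.univ (fun j => ((c j : ℤ) - c' j) * w j) (Finset.mem_univ i)
    rw [hrel] at this
    linarith
  have hdiv : ((p : ℤ) ^ e) ∣ ((c i : ℤ) - c' i) * w i := by
    rw [hrel2]
    apply (Finset.dvd_sum _).neg_right
    intro j hj
    have hji : j ≠ i := (Finset.mem_erase.1 hj).1
    rcases lt_or_gt_of_ne hji with h | h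
    · exact (h1 j h).mul_left _
    · rw [hmax j h, sub_self, zero_mul]
      exact dvd_zero _
  -- p does not divide d
  have hci : c i ≤ m := hc ▸ Finset.single_le_sum (fun j _ => Nat.zero_le (c j)) (Finset.mem_univ i)
  have hci' : c' i ≤ m := hc' ▸ Finset.single_le_sum (fun j _ => Nat.zero_le (c' j)) (Finset.mem_univ i)
  have hnd : ¬ (p : ℤ) ∣ ((c i : ℤ) - c' i) := by
    intro h
    have hd : ((c i : ℤ) - c' i) ≠ 0 := by
      intro h0
      apply hi
      have : (c i : ℤ) = c' i := by linarith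
      exact_mod_cast this
    have h3 := Int.le_of_dvd (abs_pos.2 hd) ((dvd_abs _ _).2 h)
    have h4 : |(c i : ℤ) - c' i| ≤ m := by
      rw [abs_le]; constructor <;> omega
    omega
  have hcop : IsCoprime ((p : ℤ) ^ e) ((c i : ℤ) - c' i) := by
    apply IsCoprime.pow_left
    rwa [Prime.coprime_iff_not_dvd (Nat.prime_iff_prime_int.1 hp)]
  exact hcop.dvd_of_dvd_mul_left hdiv

end Pool.Agent.H505R5.PC
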