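import Pool.Agent.H505R5.PC.Defs

set_option autoImplicit false
set_option linter.unusedSectionVars false
set_option linter.unusedVariables false

open Finset
open scoped BigOperators

namespace Pool.Agent.H505R5.PC

section JEN_op

variable {G : Type} [AddCommGroup G] [Fintype G] {M : ℕ}

/-- inner product -/
noncomputable def JEN_ip (f g : G → ℝ) : ℝ := ∑ x, f x * g x

/-- the operator -/
noncomputable def JEN_T (w : Fin M → G) (f : G → ℝ) : G → ℝ := fun x => ∑ i, f (x - w i)

/-- its adjoint -/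
noncomputable def JEN_S (w : Fin M → G) (f : G → ℝ) : G → ℝ := fun x => ∑ i, f (x + w i)

lemma JEN_ip_comm (f g : G → ℝ) : JEN_ip f g = JEN_ip g f := by
  unfold JEN_ip
  exact Finset.sum_congr rfl fun x _ => mul_comm _ _

lemma JEN_adj (w : Fin M → G) (f g : G → ℝ) : JEN_ip (JEN_T w f) g = JEN_ip f (JEN_S w g) := by
  unfold JEN_ip JEN_T JEN_S
  simp only [Finset.sum_mul, Finset.mul_sum]
  have h1 : ∑ x : G, ∑ i : Fin M, f (x - w i) * g x = ∑ i : Fin M, ∑ x : G, f (x - w i) * g x :=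
    Finset.sum_comm
  have h2 : ∑ x : G, ∑ i : Fin M, f x * g (x + w i) = ∑ i : Fin M, ∑ x : G, f x * g (x + w i) :=
    Finset.sum_comm
  rw [h1, h2]
  apply Finset.sum_congr rfl
  intro i _
  rw [← Equiv.sum_comp (Equiv.addRight (w i))]
  apply Finset.sum_congr rfl
  intro x _
  simp

lemma JEN_comm (w : Fin M → G) (f : G → ℝ) : JEN_T w (JEN_S w f) = JEN_S w (JEN_T w f) := by
  funext x
  unfold JEN_T JEN_S
  rw [Finset.sum_comm]
  apply Finset.sum_congr rfl
  intro i _
  apply Finset.sum_congr rfl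
  intro j _
  congr 1
  abel

lemma JEN_norm (w : Fin M → G) (f : G → ℝ) :
    JEN_ip (JEN_S w f) (JEN_S w f) = JEN_ip (JEN_T w f) (JEN_T w f) := by
  rw [JEN_adj w f (JEN_T w f), ← JEN_comm, JEN_ip_comm f, JEN_adj w (JEN_S w f) f]

lemma JEN_cs (f g : G → ℝ) : JEN_ip f g ^ 2 ≤ JEN_ip f f * JEN_ip g g := by
  unfold JEN_ip
  have := Finset.sum_mul_sq_le_sq_mul_sq Finset.univ f g
  simpa [sq] using this

lemma JEN_ip_nonneg (f : G → ℝ) : 0 ≤ JEN_ip f f :=
  Finset.sum_nonneg fun x _ => mul_self_nonneg _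

/-- log-convexity -/
lemma JEN_logconv (w : Fin M → G) (v : G → ℝ) :
    JEN_ip (JEN_T w v) (JEN_T w v) ^ 2 ≤
      JEN_ip v v * JEN_ip (JEN_T w (JEN_T w v)) (JEN_T w (JEN_T w v)) := by
  rw [JEN_adj w v (JEN_T w v)]
  refine (JEN_cs _ _).trans ?_
  rw [JEN_norm]

lemma JEN_ratio (w : Fin M → G) (u : G → ℝ) (ρ : ℝ) (hρ : 0 < ρ) (hu : 0 < JEN_ip u u)
    (h1 : ρ * JEN_ip u u ≤ JEN_ip (JEN_T w u) (JEN_T w u)) (j : ℕ) :
    0 < JEN_ip ((JEN_T w)^[j] u) ((JEN_T w)^[j] u) ∧
    ρ * JEN_ip ((JEN_T w)^[j] u) ((JEN_T w)^[j] u) ≤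
      JEN_ip ((JEN_T w)^[j + 1] u) ((JEN_T w)^[j + 1] u) := by
  induction j with
  | zero => exact ⟨by simpa using hu, by simpa using h1⟩
  | succ j ih =>
    obtain ⟨h0, h2⟩ := ih
    have hpos : 0 < JEN_ip ((JEN_T w)^[j + 1] u) ((JEN_T w)^[j + 1] u) :=
      lt_of_lt_of_le (mul_pos hρ h0) h2
    refine ⟨hpos, ?_⟩
    have h3 := JEN_logconv w ((JEN_T w)^[j] u)
    rw [← Function.iterate_succ_apply' (JEN_T w) j u,
      ← Function.iterate_succ_apply' (JEN_T w) (j + 1) u] at h3
    set a := JEN_ip ((JEN_T w)^[j] u) ((JEN_T w)^[j] u) with ha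
    set b := JEN_ip ((JEN_T w)^[j + 1] u) ((JEN_T w)^[j + 1] u) with hb
    set c := JEN_ip ((JEN_T w)^[j + 1 + 1] u) ((JEN_T w)^[j + 1 + 1] u) with hc
    have h4 : ρ * b * a ≤ c * a := by nlinarith
    exact le_of_mul_le_mul_right h4 h0

lemma JEN_pow (w : Fin M → G) (u : G → ℝ) (ρ : ℝ) (hρ : 0 < ρ) (hu : 0 < JEN_ip u u)
    (h1 : ρ * JEN_ip u u ≤ JEN_ip (JEN_T w u) (JEN_T w u)) (m : ℕ) :
    ρ ^ m * JEN_ip u u ≤ JEN_ip ((JEN_T w)^[m] u) ((JEN_T w)^[m] u) := by
  induction m with
  | zero => simp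
  | succ m ih =>
    have h2 := (JEN_ratio w u ρ hρ hu h1 m).2
    calc ρ ^ (m + 1) * JEN_ip u u = ρ * (ρ ^ m * JEN_ip u u) := by ring
      _ ≤ ρ * JEN_ip ((JEN_T w)^[m] u) ((JEN_T w)^[m] u) := by gcongr
      _ ≤ _ := h2

lemma JEN_iter (w : Fin M → G) (u : G → ℝ) (m : ℕ) (y : G) :
    (JEN_T w)^[m] u y = ∑ f : Fin m → Fin M, u (y - ∑ j, w (f j)) := by
  induction m generalizing y with
  | zero => simp
  | succ m ih =>
    rw [Function.iterate_succ_apply']
    change ∑ i, (JEN_T w)^[m] u (y - w i) = _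
    rw [← Equiv.sum_comp (Fin.consEquiv (fun _ : Fin (m + 1) => Fin M)), Fintype.sum_prod_type]
    apply Finset.sum_congr rfl
    intro i _
    rw [ih (y - w i)]
    apply Finset.sum_congr rfl
    intro f _
    congr 1
    rw [Fin.sum_univ_succ]
    simp [Fin.consEquiv, sub_sub]

end JEN_op

/-- functions with the same fibre sizes differ by a permutation -/
lemma JEN_fact {m M : ℕ} (c : Fin M → ℕ) :
    (Finset.univ.filter (fun f : Fin m → Fin M =>
      ∀ i, (Finset.univ.filter (fun j => f j = i)).card = c i)).card ≤ m.factorial := by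
  classical
  set S := Finset.univ.filter (fun f : Fin m → Fin M =>
      ∀ i, (Finset.univ.filter (fun j => f j = i)).card = c i) with hS
  rcases S.eq_empty_or_nonempty with h | ⟨f0, hf0⟩
  · rw [h]; simp
  · let Φ : Equiv.Perm (Fin m) → (Fin m → Fin M) := fun σ a => f0 (σ a)
    have hsub : S ⊆ Finset.image Φ Finset.univ := by
      intro f hf
      rw [hS, Finset.mem_filter] at hf hf0
      have e : ∀ i, Nonempty ({a // f a = i} ≃ {b // f0 b = i}) := by
        intro i
        apply Fintype.card_eq.1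
        rw [Fintype.card_subtype, Fintype.card_subtype, hf.2 i, hf0.2 i]
      let e' := fun i => Classical.choice (e i)
      rw [Finset.mem_image]
      refine ⟨Equiv.ofFiberEquiv e', Finset.mem_univ _, ?_⟩
      funext a
      exact Equiv.ofFiberEquiv_map e' a
    calc S.card ≤ (Finset.image Φ Finset.univ).card := Finset.card_le_card hsub
      _ ≤ (Finset.univ : Finset (Equiv.Perm (Fin m))).card := Finset.card_image_le
      _ = m.factorial := by rw [Finset.card_univ, Fintype.card_perm, Fintype.card_fin]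

/-- fibre sizes -/
def JEN_cnt {m M : ℕ} (g : Fin m → Fin M) (i : Fin M) : ℕ :=
  (Finset.univ.filter (fun j => g j = i)).card

lemma JEN_cnt_sum {m M : ℕ} (g : Fin m → Fin M) : ∑ i, JEN_cnt g i = m := by
  unfold JEN_cnt
  have h := Finset.card_eq_sum_card_fiberwise (s := (Finset.univ : Finset (Fin m))) (f := g)
    (t := (Finset.univ : Finset (Fin M))) (fun x _ => Finset.mem_univ _)
  rw [Finset.card_univ, Fintype.card_fin] at h
  exact h.symm

lemma JEN_cnt_w {m M : ℕ} (g : Fin m → Fin M) (w : Fin M → ℤ) :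
    ∑ i, (JEN_cnt g i : ℤ) * w i = ∑ j, w (g j) := by
  rw [← Finset.sum_fiberwise (Finset.univ) g (fun j => w (g j))]
  apply Finset.sum_congr rfl
  intro i _
  unfold JEN_cnt
  rw [Finset.sum_congr rfl (g := fun _ => w i)]
  · simp
  · intro j hj
    rw [(Finset.mem_filter.1 hj).2]

/-- the function `u` -/
noncomputable def JEN_u (Q : ℕ) (A : Finset ℤ) (z : ZMod Q) : ℝ :=
  ∑ x ∈ A, if z = (x : ZMod Q) then 1 else 0

lemma JEN_pair (Q : ℕ) [NeZero Q] (A : Finset ℤ) (a b : ZMod Q) :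
    ∑ y : ZMod Q, JEN_u Q A (y - a) * JEN_u Q A (y - b) =
      ∑ x ∈ A, ∑ x' ∈ A, if (x : ZMod Q) + a = x' + b then (1 : ℝ) else 0 := by
  unfold JEN_u
  simp only [Finset.sum_mul_sum]
  rw [Finset.sum_comm]
  apply Finset.sum_congr rfl
  intro x _
  rw [Finset.sum_comm]
  apply Finset.sum_congr rfl
  intro x' _
  rw [Finset.sum_eq_single ((x : ZMod Q) + a)]
  · simp [sub_eq_iff_eq_add]
  · intro y _ hy
    rw [if_neg, zero_mul]
    intro h
    exact hy (sub_eq_iff_eq_add.1 h)
  · intro h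
    exact absurd (Finset.mem_univ _) h

lemma JEN_modeq (Q : ℕ) (a b : ℤ) (h : |a - b| < Q) (he : (a : ZMod Q) = b) : a = b := by
  have h1 := (ZMod.intCast_eq_intCast_iff_dvd_sub a b Q).1 he
  have h2 : b - a = 0 := by
    apply Int.eq_zero_of_abs_lt_dvd h1
    rw [abs_sub_comm]
    exact h
  linarith

lemma JEN_main (A : Finset ℤ) (m M : ℕ) (w : Fin M → ℤ) (κ : ℝ) (hA : A.Nonempty) (hκ : 0 < κ)
    (hM : 0 < M) (hr : ∀ i, (A.card : ℝ) / κ ≤ rp A (w i))
    (hinj : ∀ c c' : Fin M → ℕ, ∑ i, c i = m → ∑ i, c' i = m →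
      ∑ i, (c i : ℤ) * w i = ∑ i, (c' i : ℤ) * w i → c = c') :
    (M : ℝ) ^ m ≤ A.card * m.factorial * κ ^ (2 * m) := by
  classical
  obtain ⟨B, hB⟩ : ∃ B : ℕ, ∀ x ∈ A, |x| ≤ (B : ℤ) := by
    refine ⟨∑ x ∈ A, x.natAbs, fun x hx => ?_⟩
    have h1 : x.natAbs ≤ ∑ x ∈ A, x.natAbs :=
      Finset.single_le_sum (f := fun x : ℤ => x.natAbs) (fun _ _ => Nat.zero_le _) hx
    rw [Int.abs_eq_natAbs]
    exact_mod_cast h1
  obtain ⟨W, hW⟩ : ∃ W : ℕ, ∀ i, |w i| ≤ (W : ℤ) := by
    refine ⟨∑ i, (w i).natAbs, fun i => ?_⟩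
    have h1 : (w i).natAbs ≤ ∑ i, (w i).natAbs :=
      Finset.single_le_sum (f := fun i => (w i).natAbs) (fun _ _ => Nat.zero_le _)
        (Finset.mem_univ i)
    rw [Int.abs_eq_natAbs]
    exact_mod_cast h1
  have hWf : ∀ f : Fin m → Fin M, |∑ j, w (f j)| ≤ (m : ℤ) * W := by
    intro f
    calc |∑ j, w (f j)| ≤ ∑ j, |w (f j)| := Finset.abs_sum_le_sum_abs _ _
      _ ≤ ∑ _j : Fin m, (W : ℤ) := Finset.sum_le_sum fun j _ => hW _
      _ = (m : ℤ) * W := by simp
  set Q : ℕ := 2 * B + 2 * (m * W) + 1 with hQ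
  haveI : NeZero Q := ⟨by omega⟩
  have hQ' : (Q : ℤ) = 2 * B + 2 * (m * W) + 1 := by rw [hQ]; push_cast; ring
  set u := JEN_u Q A with hu
  set w' : Fin M → ZMod Q := fun i => (w i : ZMod Q) with hw'
  have hN : (0 : ℝ) < A.card := by exact_mod_cast hA.card_pos
  have hM' : (0 : ℝ) < M := by exact_mod_cast hM
  -- norm of u
  have huu : JEN_ip u u = A.card := by
    have h1 := JEN_pair Q A 0 0
    simp only [sub_zero, add_zero] at h1
    unfold JEN_ip
    rw [h1]
    have h2 : ∀ x ∈ A, (∑ x' ∈ A, if (x : ZMod Q) = x' then (1 : ℝ) else 0) = 1 := by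
      intro x hx
      rw [Finset.sum_eq_single x]
      · simp
      · intro x' hx' hne
        rw [if_neg]
        intro h
        apply hne
        symm
        apply JEN_modeq Q x x' _ h
        have h3 := hB x hx
        have h4 := hB x' hx'
        calc |x - x'| ≤ |x| + |x'| := abs_sub _ _
          _ < Q := by rw [hQ']; nlinarith [Nat.zero_le (m * W), (by positivity : (0:ℤ) ≤ (m:ℤ) * W)]
      · intro h
        exact absurd hx h
    rw [Finset.sum_congr rfl h2]
    simp
  -- lower bound for ip u (T u)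
  have hlow : (M : ℝ) * (A.card / κ) ≤ JEN_ip u (JEN_T w' u) := by
    unfold JEN_ip JEN_T
    simp only [Finset.mul_sum]
    rw [Finset.sum_comm]
    calc (M : ℝ) * (A.card / κ) = ∑ _i : Fin M, (A.card : ℝ) / κ := by simp
      _ ≤ ∑ i : Fin M, ∑ y, u y * u (y - w' i) := by
        apply Finset.sum_le_sum
        intro i _
        refine (hr i).trans ?_
        have h1 := JEN_pair Q A 0 (w' i)
        simp only [sub_zero, add_zero] at h1
        rw [h1]
        unfold rp
        rw [Finset.card_filter, Finset.sum_product]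
        push_cast
        apply Finset.sum_le_sum
        intro x _
        apply Finset.sum_le_sum
        intro x' _
        by_cases h : x - x' = w i
        · rw [if_pos h, if_pos]
          rw [hw']
          simp only
          rw [← h]
          push_cast
          ring
        · rw [if_neg h]
          split_ifs <;> norm_num
  have hρ : (0 : ℝ) < (M / κ) ^ 2 := by positivity
  have h1 : ((M : ℝ) / κ) ^ 2 * JEN_ip u u ≤ JEN_ip (JEN_T w' u) (JEN_T w' u) := by
    have h2 := JEN_cs u (JEN_T w' u)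
    rw [huu] at h2 ⊢
    have h3 : ((M : ℝ) * (A.card / κ)) ^ 2 ≤ A.card * JEN_ip (JEN_T w' u) (JEN_T w' u) :=
      (pow_le_pow_left₀ (by positivity) hlow 2).trans h2
    have h4 : ((M : ℝ) * (A.card / κ)) ^ 2 = A.card * (((M : ℝ) / κ) ^ 2 * A.card) := by
      field_simp
    rw [h4] at h3
    exact le_of_mul_le_mul_left h3 hN
  have hlower := JEN_pow w' u _ hρ (by rw [huu]; exact hN) h1 m
  -- upper bound
  have hupper : JEN_ip ((JEN_T w')^[m] u) ((JEN_T w')^[m] u) ≤
      A.card * A.card * ((M : ℝ) ^ m * m.factorial) := by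
    have e1 : JEN_ip ((JEN_T w')^[m] u) ((JEN_T w')^[m] u) =
        ∑ f : Fin m → Fin M, ∑ g : Fin m → Fin M, ∑ x ∈ A, ∑ x' ∈ A,
          if (x : ZMod Q) + ∑ j, w' (f j) = x' + ∑ j, w' (g j) then (1 : ℝ) else 0 := by
      unfold JEN_ip
      simp only [JEN_iter, Finset.sum_mul_sum]
      rw [Finset.sum_comm]
      apply Finset.sum_congr rfl
      intro f _
      rw [Finset.sum_comm]
      apply Finset.sum_congr rfl
      intro g _
      exact JEN_pair Q A _ _
    have e2 : (∑ f : Fin m → Fin M, ∑ g : Fin m → Fin M, ∑ x ∈ A, ∑ x' ∈ A,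
          if (x : ZMod Q) + ∑ j, w' (f j) = x' + ∑ j, w' (g j) then (1 : ℝ) else 0) =
        ∑ f : Fin m → Fin M, ∑ x ∈ A, ∑ x' ∈ A, ∑ g : Fin m → Fin M,
          if (x : ZMod Q) + ∑ j, w' (f j) = x' + ∑ j, w' (g j) then (1 : ℝ) else 0 := by
      apply Finset.sum_congr rfl
      intro f _
      rw [Finset.sum_comm]
      apply Finset.sum_congr rfl
      intro x _
      rw [Finset.sum_comm]
    have e3 : ∀ (f : Fin m → Fin M) (x x' : ℤ), (∑ g : Fin m → Fin M,
          if (x : ZMod Q) + ∑ j, w' (f j) = x' + ∑ j, w' (g j) then (1 : ℝ) else 0) ≤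
          m.factorial := by
      intro f x x'
      by_cases hex : ∃ g0 : Fin m → Fin M, (x : ZMod Q) + ∑ j, w' (f j) = x' + ∑ j, w' (g0 j)
      · obtain ⟨g0, hg0⟩ := hex
        have e4 : (∑ g : Fin m → Fin M,
          if (x : ZMod Q) + ∑ j, w' (f j) = x' + ∑ j, w' (g j) then (1 : ℝ) else 0) =
            ((Finset.univ.filter (fun g : Fin m → Fin M =>
              (x : ZMod Q) + ∑ j, w' (f j) = x' + ∑ j, w' (g j))).card : ℝ) := by
          rw [Finset.card_filter]
          push_cast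
          rfl
        rw [e4]
        have e5 : (Finset.univ.filter (fun g : Fin m → Fin M =>
              (x : ZMod Q) + ∑ j, w' (f j) = x' + ∑ j, w' (g j))).card ≤ m.factorial := by
          refine (Finset.card_le_card ?_).trans (JEN_fact (JEN_cnt g0))
          intro g hg
          rw [Finset.mem_filter] at hg ⊢
          refine ⟨Finset.mem_univ _, ?_⟩
          have e6 : (x' : ZMod Q) + ∑ j, w' (g j) = x' + ∑ j, w' (g0 j) := hg.2.symm.trans hg0
          have e7 : ((∑ j, w (g j) : ℤ) : ZMod Q) = ((∑ j, w (g0 j) : ℤ) : ZMod Q) := by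
            have := add_left_cancel e6
            push_cast
            exact this
          have e8 : ∑ j, w (g j) = ∑ j, w (g0 j) := by
            apply JEN_modeq Q _ _ _ e7
            have h3 := hWf g
            have h4 := hWf g0
            calc |∑ j, w (g j) - ∑ j, w (g0 j)| ≤ |∑ j, w (g j)| + |∑ j, w (g0 j)| := abs_sub _ _
              _ < Q := by
                rw [hQ']
                have : (0 : ℤ) ≤ B := by positivity
                linarith
          have e9 : JEN_cnt g = JEN_cnt g0 :=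
            hinj _ _ (JEN_cnt_sum g) (JEN_cnt_sum g0) (by rw [JEN_cnt_w, JEN_cnt_w, e8])
          intro i
          exact congrFun e9 i
        exact_mod_cast e5
      · push Not at hex
        rw [Finset.sum_eq_zero]
        · positivity
        · intro g _
          rw [if_neg (hex g)]
    rw [e1, e2]
    calc _ ≤ ∑ _f : Fin m → Fin M, ∑ _x ∈ A, ∑ _x' ∈ A, (m.factorial : ℝ) := by
          apply Finset.sum_le_sum
          intro f _
          apply Finset.sum_le_sum
          intro x _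
          apply Finset.sum_le_sum
          intro x' _
          exact e3 f x x'
      _ = A.card * A.card * ((M : ℝ) ^ m * m.factorial) := by
          simp only [Finset.sum_const, Finset.card_univ, Fintype.card_fun, Fintype.card_fin,
            nsmul_eq_mul]
          push_cast
          ring
  rw [huu] at hlower
  have h5 : (((M : ℝ) / κ) ^ 2) ^ m * A.card ≤ A.card * A.card * ((M : ℝ) ^ m * m.factorial) :=
    hlower.trans hupper
  have h6 : (((M : ℝ) / κ) ^ 2) ^ m ≤ A.card * ((M : ℝ) ^ m * m.factorial) := by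
    have : (((M : ℝ) / κ) ^ 2) ^ m * A.card ≤ (A.card * ((M : ℝ) ^ m * m.factorial)) * A.card := by
      linarith
    exact le_of_mul_le_mul_right this hN
  have h7 : (((M : ℝ) / κ) ^ 2) ^ m = (M : ℝ) ^ m * (M : ℝ) ^ m / κ ^ (2 * m) := by
    rw [← pow_mul, div_pow, ← pow_add]
    congr 2
    ring
  rw [h7, div_le_iff₀ (by positivity)] at h6
  have h8 : (M : ℝ) ^ m * (M : ℝ) ^ m ≤
      (A.card * m.factorial * κ ^ (2 * m)) * (M : ℝ) ^ m := by
    linarith
  exact le_of_mul_le_mul_right h8 (by positivity)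

theorem t_JEN : S_JEN := by
  intro A m M w κ hA hκ hr hinj
  rcases Nat.eq_zero_or_pos M with hM | hM
  · subst hM
    rcases Nat.eq_zero_or_pos m with hm | hm
    · subst hm
      have h1 : (1 : ℝ) ≤ A.card := by exact_mod_cast hA.card_pos
      simpa using h1
    · rw [Nat.cast_zero, zero_pow (by omega)]
      positivity
  · exact JEN_main A m M w κ hA hκ hM hr hinj

end Pool.Agent.H505R5.PC
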