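import Pool.Agent.H505R5.PC.Defs

set_option autoImplicit false

open Finset

namespace Pool.Agent.H505R5.PC

theorem t_LEN (h1 : S_IND) (h2 : S_JEN) : S_LEN := by
  intro A v m M w κ hA hκ hm hlog hv hw hpop hch
  have key := h2 A m M w κ hA hκ hpop (fun c c' hc hc' h => h1 v m M w hv hw hch c c' hc hc' h)
  have hm0 : m ≠ 0 := by omega
  have hcard : (A.card : ℝ) ≤ Real.exp 1 ^ m := by
    have hpos : (0 : ℝ) < A.card := by exact_mod_cast Finset.card_pos.2 hA
    rw [← Real.exp_nat_mul, mul_one]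
    calc (A.card : ℝ) = Real.exp (Real.log A.card) := (Real.exp_log hpos).symm
      _ ≤ Real.exp m := Real.exp_le_exp.2 hlog
  have hfac : (m.factorial : ℝ) ≤ (m : ℝ) ^ m := by exact_mod_cast Nat.factorial_le_pow m
  have hm1 : (0 : ℝ) ≤ m := Nat.cast_nonneg m
  have h3 : (M : ℝ) ^ m ≤ (Real.exp 1 * m * κ ^ 2) ^ m := by
    calc (M : ℝ) ^ m ≤ A.card * m.factorial * κ ^ (2 * m) := key
      _ ≤ Real.exp 1 ^ m * (m : ℝ) ^ m * κ ^ (2 * m) := by
          apply mul_le_mul_of_nonneg_right _ (by positivity)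
          exact mul_le_mul hcard hfac (by positivity) (by positivity)
      _ = _ := by rw [mul_pow, mul_pow, ← pow_mul]
  have h4 : (M : ℝ) ≤ Real.exp 1 * m * κ ^ 2 :=
    (pow_le_pow_iff_left₀ (Nat.cast_nonneg M) (by positivity) hm0).1 h3
  refine h4.trans ?_
  have he : Real.exp 1 ≤ 3 := by
    have := Real.exp_one_lt_d9
    linarith
  have : 0 ≤ (m : ℝ) * κ ^ 2 := by positivity
  nlinarith

end Pool.Agent.H505R5.PC
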