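import Pool.Agent.H505R5.PC.Defs

/-! Task LOW: the unpopular differences -/

set_option autoImplicit false

open MeasureTheory Finset Filter Topology
open scoped BigOperators ENNReal

namespace Pool.Agent.H505R5.PC

lemma LOW_Q2_nonneg (D : Finset ℤ) (ρ : ℤ → ℝ) (hρ : ∀ v, 0 ≤ ρ v) : 0 ≤ Q2 D ρ := by
  unfold Q2
  refine sum_nonneg fun v _ => sum_nonneg fun w _ => ?_
  split_ifs
  · exact mul_nonneg (hρ _) (hρ _)
  · exact le_refl _

lemma LOW_Q4_nonneg (D : Finset ℤ) (ρ : ℤ → ℝ) (hρ : ∀ v, 0 ≤ ρ v) : 0 ≤ Q4 D ρ := by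
  unfold Q4
  refine sum_nonneg fun p _ => ?_
  split_ifs
  · exact mul_nonneg (mul_nonneg (hρ _) (hρ _)) (mul_nonneg (hρ _) (hρ _))
  · exact le_refl _

lemma LOW_G_nonneg (D : Finset ℤ) (ρ : ℤ → ℝ) (hρ : ∀ v, 0 ≤ ρ v) (K : ℕ) : 0 ≤ G D ρ K := by
  unfold G
  refine sum_nonneg fun v _ => sum_nonneg fun w _ => ?_
  split_ifs
  · exact div_nonneg (mul_nonneg (hρ _) (hρ _)) (Nat.cast_nonneg _)
  · exact le_refl _

lemma LOW_harm_nonneg (K : ℕ) : 0 ≤ harm K := by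
  unfold harm
  exact sum_nonneg fun n _ => by positivity

theorem t_LOW (hVL : S_VL) (hHOL : S_HOL) (hQ2B : S_Q2B) (hQ4B : S_Q4B) (hCNT : S_CNT)
    (hNUM3 : S_NUM3) : S_LOW := by
  intro s ε hs hε
  obtain ⟨c, hc, hQ4⟩ := hQ4B
  obtain ⟨N₀, hN₀⟩ := hNUM3 c (2 * s / ε ^ 2) hc (by positivity)
  refine ⟨max N₀ (max 3 ⌈2 * s⌉₊), ?_⟩
  intro A hA
  have hA1 : N₀ ≤ A.card := le_trans (le_max_left _ _) hA
  have hA2 : 3 ≤ A.card := le_trans (le_trans (le_max_left _ _) (le_max_right _ _)) hA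
  have hA3 : 2 * s ≤ A.card :=
    (Nat.ceil_le.mp (le_trans (le_trans (le_max_right _ _) (le_max_right _ _)) hA))
  have hne : A.Nonempty := card_pos.mp (by omega)
  set N : ℝ := (A.card : ℝ) with hN
  have hN3 : (3 : ℝ) ≤ N := by rw [hN]; exact_mod_cast hA2
  have hNpos : 0 < N := by linarith
  have hl : 0 < Real.log N := Real.log_pos (by linarith)
  set D : Finset ℤ := (Df A).filter (fun v => (rp A v : ℝ) < A.card / (Real.log A.card) ^ 30)
    with hD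
  set H : ℕ := ⌈N * Real.log N ^ 4⌉₊ with hH
  have hHpos : 0 < N * Real.log N ^ 4 := by positivity
  have hH1 : 1 ≤ H := Nat.one_le_iff_ne_zero.mpr (by
    rw [hH]; exact (Nat.ceil_pos.mpr hHpos).ne')
  have h0D : (0 : ℤ) ∉ D := by
    rw [hD, mem_filter]
    rintro ⟨h, _⟩
    unfold Df at h
    simp at h
  obtain ⟨-, hsum, hrp, -⟩ := hCNT A 0 0 hne
  have hρ : ∀ v, 0 ≤ (fun v => (rp A v : ℝ)) v := fun v => Nat.cast_nonneg _
  have hσ : ∑ v ∈ D, (rp A v : ℝ) ≤ N ^ 2 :=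
    (sum_le_sum_of_subset_of_nonneg (filter_subset _ _) fun v _ _ => hρ v).trans hsum
  have hσ0 : 0 ≤ ∑ v ∈ D, (rp A v : ℝ) := sum_nonneg fun v _ => hρ v
  have hη0 : 0 ≤ s / N := by positivity
  have hη1 : s / N ≤ 1 / 2 := by
    rw [div_le_iff₀ hNpos]
    linarith
  have hvl := hVL D (fun v => (rp A v : ℝ)) (s / N) (ε * N) H h0D hρ hη0 hη1 (by positivity) hH1
  refine hvl.trans ?_
  have hhol := hHOL D (fun v => (rp A v : ℝ)) H 3 h0D hρ (by norm_num)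
  have hq2 : Q2 D (fun v => (rp A v : ℝ)) ≤ 2 * (N ^ 3 / Real.log N ^ 30) := by
    refine (hQ2B D _ hρ).trans ?_
    have h1 : ∑ v ∈ D, (rp A v : ℝ) ^ 2 ≤ ∑ v ∈ D, (N / Real.log N ^ 30) * (rp A v : ℝ) := by
      refine sum_le_sum fun v hv => ?_
      rw [hD, mem_filter] at hv
      rw [sq]
      exact mul_le_mul_of_nonneg_right hv.2.le (hρ v)
    rw [← mul_sum] at h1
    have h2 : (N / Real.log N ^ 30) * ∑ v ∈ D, (rp A v : ℝ) ≤ (N / Real.log N ^ 30) * N ^ 2 :=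
      mul_le_mul_of_nonneg_left hσ (by positivity)
    have h3 : (N / Real.log N ^ 30) * N ^ 2 = N ^ 3 / Real.log N ^ 30 := by ring
    linarith
  have hq4 := hQ4 A D hne h0D
  have hG0 := LOW_G_nonneg D (fun v => (rp A v : ℝ)) hρ H
  have hnum := hN₀ A.card hA1 (G D (fun v => (rp A v : ℝ)) H) hG0 (by
    refine hhol.trans ?_
    have e : Q2 D (fun v => (rp A v : ℝ)) ^ (3 - 2) = Q2 D (fun v => (rp A v : ℝ)) := by
      norm_num
    rw [e]
    have h4 := LOW_Q4_nonneg D (fun v => (rp A v : ℝ)) hρ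
    have h2 := LOW_Q2_nonneg D (fun v => (rp A v : ℝ)) hρ
    have hh := LOW_harm_nonneg H
    have e9 : (3 : ℕ) ^ 2 = 9 := by norm_num
    rw [e9]
    refine mul_le_mul_of_nonneg_right ?_ (pow_nonneg hh _)
    exact mul_le_mul hq2 hq4 h4 (by positivity))
  refine le_trans ?_ hnum
  have hHr : (0 : ℝ) < H := by exact_mod_cast hH1
  have h5 : (∑ v ∈ D, (rp A v : ℝ)) ^ 2 ≤ N ^ 4 := by
    have := pow_le_pow_left₀ hσ0 hσ 2
    have e : (N ^ 2) ^ 2 = N ^ 4 := by ring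
    linarith
  have h6 : (2 * (s / N) * G D (fun v => (rp A v : ℝ)) H +
      2 * (s / N) * (∑ v ∈ D, (rp A v : ℝ)) ^ 2 / H) / (ε * N) ^ 2 ≤
      (2 * (s / N) * G D (fun v => (rp A v : ℝ)) H +
      2 * (s / N) * N ^ 4 / H) / (ε * N) ^ 2 := by
    gcongr
  refine h6.trans (le_of_eq ?_)
  change _ = 2 * s / ε ^ 2 * (G D (fun v => (rp A v : ℝ)) H / N ^ 3 + N / (H : ℝ))
  clear_value N H
  field_simp

end Pool.Agent.H505R5.PC
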