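import Pool.Agent.H505R5.PC.Defs

set_option autoImplicit false

open MeasureTheory Finset

namespace Pool.Agent.H505R5.PC

theorem t_M1 : S_M1 := by
  intro v η hv h0 h1
  have hmp : MeasurePreserving (fun y : T => v • y) (volume : Measure T) volume :=
    Measure.measurePreserving_zsmul volume hv
  have hset : {α : T | ‖v • α‖ < η} = (fun y : T => v • y) ⁻¹' (Metric.ball 0 η) := by
    ext α; simp
  rw [hset, measureReal_def, hmp.measure_preimage measurableSet_ball.nullMeasurableSet]
  rcases eq_or_lt_of_le h0 with h | hpos
  · rw [← h]; simp
  · have h2 : (Metric.closedBall (0 : T) η) =ᵐ[volume] Metric.ball (0 : T) η :=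
      AddCircle.closedBall_ae_eq_ball
    rw [← measure_congr h2, AddCircle.volume_closedBall, ENNReal.toReal_ofReal, min_eq_right]
    · linarith
    · exact le_min zero_le_one (by linarith)

end Pool.Agent.H505R5.PC
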