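import Pool.Agent.H505R5.PC.Defs

set_option autoImplicit false

open MeasureTheory Finset Filter Topology
open scoped BigOperators ENNReal

namespace Pool.Agent.H505R5.PC

/-- few `k` with `x + v' k / h` close to an integer -/
lemma M2_count (v' : ℤ) (h g : ℕ) (hh : 0 < h) (hcop : IsCoprime v' (h : ℤ)) (x η : ℝ)
    (hη : 0 ≤ η) :
    (((range (g * h)).filter (fun k : ℕ =>
      |(x + v' * k / h) - round (x + (v' : ℝ) * k / h)| < η)).card : ℝ) ≤ g * (2 * η * h + 1) := by
  classical
  have hhR : (0 : ℝ) < h := by exact_mod_cast hh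
  set S := (range (g * h)).filter (fun k : ℕ =>
      |(x + v' * k / h) - round (x + (v' : ℝ) * k / h)| < η) with hS
  set a : ℝ := -(h * x) - η * h with ha
  set b : ℝ := -(h * x) + η * h with hb
  set m : ℕ → ℤ := fun k => v' * k - h * round (x + (v' : ℝ) * k / h) with hm
  have hcard : S.card ≤ ((Finset.Icc (⌊a⌋ + 1) (⌈b⌉ - 1)) ×ˢ (range g)).card := by
    apply Finset.card_le_card_of_injOn (fun k => (m k, k / h))
    · intro k hk
      have hk' := Finset.mem_coe.1 hk
      rw [hS, Finset.mem_filter, Finset.mem_range] at hk'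
      obtain ⟨hk1, hk2⟩ := hk'
      rw [Finset.mem_coe, Finset.mem_product]
      constructor
      · have habs := abs_lt.1 hk2
        have e1 : (m k : ℝ) = h * ((x + (v' : ℝ) * k / h) - round (x + (v' : ℝ) * k / h))
            - h * x := by
          simp only [hm]
          push_cast
          field_simp
          ring
        have h1 : a < m k := by
          rw [e1, ha]
          nlinarith [habs.1]
        have h2 : (m k : ℝ) < b := by
          rw [e1, hb]
          nlinarith [habs.2]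
        rw [Finset.mem_Icc]
        constructor
        · have := Int.floor_lt.2 h1
          show ⌊a⌋ + 1 ≤ m k
          omega
        · have := Int.lt_ceil.2 h2
          show m k ≤ ⌈b⌉ - 1
          omega
      · rw [Finset.mem_range]
        exact Nat.div_lt_of_lt_mul (by rw [mul_comm]; exact hk1)
    · intro k hk l hl hkl
      simp only [Prod.mk.injEq] at hkl
      obtain ⟨h1, h2⟩ := hkl
      have hdvd : (h : ℤ) ∣ v' * ((k : ℤ) - l) := by
        refine ⟨round (x + (v' : ℝ) * k / h) - round (x + (v' : ℝ) * l / h), ?_⟩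
        simp only [hm] at h1
        linear_combination h1
      have hdvd2 : (h : ℤ) ∣ (k : ℤ) - l := hcop.symm.dvd_of_dvd_mul_left hdvd
      have hmod : k % h = l % h := by
        have : ((k : ℤ)) ≡ l [ZMOD h] := (Int.modEq_iff_dvd.2 (by
          have := dvd_neg.2 hdvd2
          simpa using this))
        have h3 := (Int.natCast_modEq_iff).1 this
        exact h3
      calc k = h * (k / h) + k % h := (Nat.div_add_mod k h).symm
        _ = h * (l / h) + l % h := by rw [h2, hmod]
        _ = l := Nat.div_add_mod l h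
  have hIcc : ((Finset.Icc (⌊a⌋ + 1) (⌈b⌉ - 1)).card : ℝ) ≤ 2 * η * h + 1 := by
    rw [Int.card_Icc]
    have h1 := Int.ceil_lt_add_one b
    have h2 := Int.sub_one_lt_floor a
    have h3 : b - a = 2 * η * h := by rw [ha, hb]; ring
    rcases le_or_gt 0 (⌈b⌉ - 1 + 1 - (⌊a⌋ + 1)) with h0 | h0
    · have : (((⌈b⌉ - 1 + 1 - (⌊a⌋ + 1)).toNat : ℤ) : ℝ) = ((⌈b⌉ - 1 + 1 - (⌊a⌋ + 1) : ℤ) : ℝ) := by
        rw [Int.toNat_of_nonneg h0]
      have h4 : (((⌈b⌉ - 1 + 1 - (⌊a⌋ + 1)).toNat : ℕ) : ℝ) =
          ((⌈b⌉ - 1 + 1 - (⌊a⌋ + 1) : ℤ) : ℝ) := by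
        rw [← this]; norm_cast
      rw [h4]
      push_cast
      linarith
    · rw [Int.toNat_of_nonpos h0.le]
      have : 0 ≤ 2 * η * h := by positivity
      push_cast
      linarith
  rw [Finset.card_product, Finset.card_range] at hcard
  calc (S.card : ℝ) ≤ (((Finset.Icc (⌊a⌋ + 1) (⌈b⌉ - 1)).card * g : ℕ) : ℝ) := by
        exact_mod_cast hcard
    _ = ((Finset.Icc (⌊a⌋ + 1) (⌈b⌉ - 1)).card : ℝ) * g := by push_cast; ring
    _ ≤ (2 * η * h + 1) * g := by
        apply mul_le_mul_of_nonneg_right hIcc (Nat.cast_nonneg _)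
    _ = g * (2 * η * h + 1) := by ring

lemma M2_open (v : ℤ) (η : ℝ) : IsOpen {α : T | ‖v • α‖ < η} :=
  isOpen_lt (continuous_norm.comp (continuous_zsmul v)) continuous_const

lemma M2_main (h1 : S_M1) (v w : ℤ) (η : ℝ) (hv : v ≠ 0) (hw : w ≠ 0) (hη : 0 ≤ η)
    (hη2 : η ≤ 1 / 2) (hle : v.natAbs ≤ w.natAbs) :
    (volume : Measure T).real {α | ‖v • α‖ < η ∧ ‖w • α‖ < η} ≤ 4 * η ^ 2 + 2 * η / ht v w := by
  classical
  set g : ℕ := Int.gcd v w with hg
  have hgpos : 0 < g := Int.gcd_pos_of_ne_zero_left _ hv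
  have hht : ht v w = w.natAbs / g := by
    unfold ht
    rw [max_eq_right hle]
  have hgw : g ∣ w.natAbs := Int.natAbs_dvd_natAbs.2 (Int.gcd_dvd_right ..) |> fun h => by
    simpa using h
  obtain ⟨h, hh⟩ := hgw
  have hnpos : 0 < w.natAbs := Int.natAbs_pos.2 hw
  have hhpos : 0 < h := by
    rcases Nat.eq_zero_or_pos h with h0 | h0
    · rw [h0, mul_zero] at hh; omega
    · exact h0
  have hhth : ht v w = h := by
    rw [hht, hh]; exact Nat.mul_div_cancel_left h hgpos
  rw [hhth]
  have hgv : (g : ℤ) ∣ v := Int.gcd_dvd_left ..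
  obtain ⟨v', hv'⟩ := hgv
  have hgR : (0 : ℝ) < g := by exact_mod_cast hgpos
  have hhR : (0 : ℝ) < h := by exact_mod_cast hhpos
  -- coprimality
  have hcop : IsCoprime v' (h : ℤ) := by
    rw [Int.isCoprime_iff_gcd_eq_one]
    have e : Int.gcd v w = Int.gcd v (w.natAbs : ℤ) := by
      show Nat.gcd _ _ = Nat.gcd _ _
      rw [Int.natAbs_natCast]
    have e2 : Int.gcd v (w.natAbs : ℤ) = g * Int.gcd v' (h : ℤ) := by
      rw [hh, hv']
      push_cast
      rw [Int.gcd_mul_left]
      simp
    rw [e2] at e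
    have e3 : g * Int.gcd v' (h : ℤ) = g * 1 := by rw [mul_one, ← e, hg]
    exact Nat.eq_of_mul_eq_mul_left hgpos e3
  set n : ℕ := g * h with hn
  have hnR : (n : ℝ) = g * h := by rw [hn]; push_cast; ring
  have hnR0 : (n : ℝ) ≠ 0 := by rw [hnR]; positivity
  set c : ℕ → T := fun k => ((k / n : ℝ) : T) with hc
  set Av : Set T := {α | ‖v • α‖ < η} with hAv
  set Aw : Set T := {α | ‖w • α‖ < η} with hAw
  have hAvm : MeasurableSet Av := (M2_open v η).measurableSet
  have hAwm : MeasurableSet Aw := (M2_open w η).measurableSet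
  -- translation
  have hwc : ∀ k : ℕ, w • c k = 0 := by
    intro k
    show w • (((k : ℝ) / n : ℝ) : T) = 0
    rw [← AddCircle.coe_zsmul, AddCircle.coe_eq_zero_iff]
    rcases Int.natAbs_eq w with h2 | h2
    · refine ⟨k, ?_⟩
      rw [h2, hh]
      simp only [zsmul_eq_mul, mul_one]
      push_cast
      field_simp
    · refine ⟨-k, ?_⟩
      rw [h2, hh]
      simp only [zsmul_eq_mul, mul_one]
      push_cast
      field_simp
  have hinv : ∀ k : ℕ, volume (Av ∩ Aw) = volume {α : T | ‖v • (α + c k)‖ < η ∧ α ∈ Aw} := by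
    intro k
    have e := measure_preimage_add_right (volume : Measure T) (c k) (Av ∩ Aw)
    rw [← e]
    congr 1
    ext α
    simp only [Set.mem_preimage, Set.mem_inter_iff, hAv, hAw, Set.mem_ofPred_eq]
    rw [smul_add w, hwc k, add_zero]
  -- counting
  have hcnt : ∀ α : T, (((range n).filter (fun k => ‖v • (α + c k)‖ < η)).card : ℝ) ≤
      g * (2 * η * h + 1) := by
    intro α
    obtain ⟨x, rfl⟩ := QuotientAddGroup.mk_surjective α
    have := M2_count v' h g hhpos hcop (v * x) η hη
    refine le_trans (le_of_eq ?_) this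
    congr 2
    apply Finset.filter_congr
    intro k _
    have e1 : v • ((QuotientAddGroup.mk x : T) + c k) =
        ((v * x + (v' : ℝ) * k / h : ℝ) : T) := by
      show v • (((x : ℝ) : T) + (((k : ℝ) / n : ℝ) : T)) = _
      rw [← AddCircle.coe_add, ← AddCircle.coe_zsmul]
      congr 1
      rw [zsmul_eq_mul, hnR]
      have : (v : ℝ) = g * v' := by rw [hv']; push_cast; ring
      rw [this]
      field_simp
    rw [e1, UnitAddCircle.norm_eq]
  -- sum
  have hsum : (n : ℝ≥0∞) * volume (Av ∩ Aw) ≤ ENNReal.ofReal (g * (2 * η * h + 1)) * volume Aw := by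
    have e1 : (n : ℝ≥0∞) * volume (Av ∩ Aw) =
        ∑ k ∈ range n, volume {α : T | ‖v • (α + c k)‖ < η ∧ α ∈ Aw} := by
      rw [Finset.sum_congr rfl (fun k _ => (hinv k).symm), Finset.sum_const, Finset.card_range,
        nsmul_eq_mul]
    have hmeas : ∀ k, MeasurableSet {α : T | ‖v • (α + c k)‖ < η ∧ α ∈ Aw} := by
      intro k
      have h3 : MeasurableSet {α : T | ‖v • (α + c k)‖ < η} :=
        (isOpen_lt (continuous_norm.comp ((continuous_zsmul v).comp (continuous_add_const (c k))))
          continuous_const).measurableSet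
      exact h3.inter hAwm
    rw [e1]
    have e2 : ∀ k, volume {α : T | ‖v • (α + c k)‖ < η ∧ α ∈ Aw} =
        ∫⁻ α, ({α : T | ‖v • (α + c k)‖ < η ∧ α ∈ Aw}).indicator 1 α := by
      intro k
      rw [lintegral_indicator_one (hmeas k)]
    rw [Finset.sum_congr rfl (fun k _ => e2 k), ← lintegral_finsetSum]
    swap
    · intro k _
      exact (measurable_one.indicator (hmeas k))
    rw [← lintegral_indicator_one hAwm, ← lintegral_const_mul _ (measurable_one.indicator hAwm)]
    apply lintegral_mono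
    intro α
    by_cases hα : α ∈ Aw
    · have e3 : ∑ k ∈ range n, ({α : T | ‖v • (α + c k)‖ < η ∧ α ∈ Aw}).indicator
          (1 : T → ℝ≥0∞) α = (((range n).filter (fun k => ‖v • (α + c k)‖ < η)).card : ℝ≥0∞) := by
        rw [Finset.card_filter]
        push_cast
        apply Finset.sum_congr rfl
        intro k _
        simp only [Set.indicator, Set.mem_ofPred_eq, hα, and_true, Pi.one_apply]
      show ∑ k ∈ range n, ({α : T | ‖v • (α + c k)‖ < η ∧ α ∈ Aw}).indicator
          (1 : T → ℝ≥0∞) α ≤ ENNReal.ofReal (g * (2 * η * h + 1)) * Aw.indicator 1 α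
      rw [e3, Set.indicator_of_mem hα, Pi.one_apply, mul_one]
      rw [← ENNReal.ofReal_natCast]
      exact ENNReal.ofReal_le_ofReal (hcnt α)
    · have e3 : ∑ k ∈ range n, ({α : T | ‖v • (α + c k)‖ < η ∧ α ∈ Aw}).indicator
          (1 : T → ℝ≥0∞) α = 0 := by
        apply Finset.sum_eq_zero
        intro k _
        simp [Set.indicator, hα]
      show ∑ k ∈ range n, ({α : T | ‖v • (α + c k)‖ < η ∧ α ∈ Aw}).indicator
          (1 : T → ℝ≥0∞) α ≤ ENNReal.ofReal (g * (2 * η * h + 1)) * Aw.indicator 1 α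
      rw [e3]
      simp
  -- conversion
  have hreal : (n : ℝ) * (volume : Measure T).real (Av ∩ Aw) ≤
      g * (2 * η * h + 1) * (volume : Measure T).real Aw := by
    have h3 := ENNReal.toReal_mono (ENNReal.mul_ne_top ENNReal.ofReal_ne_top
      (measure_ne_top _ _)) hsum
    rw [ENNReal.toReal_mul, ENNReal.toReal_mul, ENNReal.toReal_ofReal (by positivity)] at h3
    simpa [Measure.real] using h3
  have hAwreal : (volume : Measure T).real Aw = 2 * η := h1 w η hw hη hη2
  rw [hAwreal, hnR] at hreal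
  have hset : {α : T | ‖v • α‖ < η ∧ ‖w • α‖ < η} = Av ∩ Aw := rfl
  rw [hset]
  set μ := (volume : Measure T).real (Av ∩ Aw) with hμ
  have h5 : h * μ ≤ (2 * η * h + 1) * (2 * η) := by
    have : (g : ℝ) * (h * μ) ≤ g * ((2 * η * h + 1) * (2 * η)) := by nlinarith [hreal]
    exact le_of_mul_le_mul_left this hgR
  have h6 : 4 * η ^ 2 + 2 * η / h = ((2 * η * h + 1) * (2 * η)) / h := by
    field_simp
    ring
  rw [h6, le_div_iff₀ hhR]
  linarith

theorem t_M2 (h1 : S_M1) : S_M2 := by
  intro v w η hv hw hη hη2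
  rcases le_total v.natAbs w.natAbs with h | h
  · exact M2_main h1 v w η hv hw hη hη2 h
  · have := M2_main h1 w v η hw hv hη hη2 h
    have e1 : ht w v = ht v w := by
      unfold ht
      rw [max_comm, Int.gcd_comm]
    rw [e1] at this
    have e2 : {α : T | ‖v • α‖ < η ∧ ‖w • α‖ < η} = {α : T | ‖w • α‖ < η ∧ ‖v • α‖ < η} := by
      ext α
      simp only [Set.mem_ofPred_eq]
      tauto
    rw [e2]
    exact this

end Pool.Agent.H505R5.PC
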