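import Pool.Agent.H505R5.PC.Defs

set_option autoImplicit false

open MeasureTheory Finset Filter Topology
open scoped BigOperators ENNReal

namespace Pool.Agent.H505R5.PC

theorem M3_aux (v : ℤ) (g h : ℕ) (η : ℝ) (α : T) (hg : 0 < g) (hdvd : g ∣ v.natAbs)
    (hle : v.natAbs / g ≤ h) (hh : 0 < h) (hα : ‖(g : ℤ) • α‖ < η / h) : ‖v • α‖ < η := by
  obtain ⟨v', hv'⟩ : (g : ℤ) ∣ v := Int.natCast_dvd.mpr hdvd
  have h1 : v • α = v' • ((g : ℤ) • α) := by
    rw [hv', mul_comm, mul_smul]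
  have h2 : v'.natAbs ≤ h := by
    have : v.natAbs = g * v'.natAbs := by rw [hv', Int.natAbs_mul, Int.natAbs_natCast]
    rw [this, Nat.mul_div_cancel_left _ hg] at hle
    exact hle
  rw [h1]
  have hhr : (0 : ℝ) < h := by exact_mod_cast hh
  rw [lt_div_iff₀ hhr] at hα
  calc ‖v' • ((g : ℤ) • α)‖ ≤ ‖v'‖ * ‖(g : ℤ) • α‖ := norm_zsmul_le _ _
    _ ≤ (h : ℝ) * ‖(g : ℤ) • α‖ := by
        apply mul_le_mul_of_nonneg_right _ (norm_nonneg _)
        rw [Int.norm_eq_abs, ← Int.cast_abs, Int.abs_eq_natAbs]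
        exact_mod_cast h2
    _ = ‖(g : ℤ) • α‖ * h := mul_comm _ _
    _ < η := hα

theorem t_M3 : S_M3 := by
  intro v w η hv hw hη α hα
  have hg : 0 < Int.gcd v w := Int.gcd_pos_of_ne_zero_left _ hv
  have hdv : Int.gcd v w ∣ v.natAbs := Nat.gcd_dvd_left _ _
  have hdw : Int.gcd v w ∣ w.natAbs := Nat.gcd_dvd_right _ _
  have hh : 0 < ht v w := by
    unfold ht
    apply Nat.div_pos _ hg
    exact (Nat.le_of_dvd (Int.natAbs_pos.mpr hv) hdv).trans (le_max_left _ _)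
  have h1 : v.natAbs / Int.gcd v w ≤ ht v w := Nat.div_le_div_right (le_max_left _ _)
  have h2 : w.natAbs / Int.gcd v w ≤ ht v w := Nat.div_le_div_right (le_max_right _ _)
  exact ⟨M3_aux v _ _ η α hg hdv h1 hh hα, M3_aux w _ _ η α hg hdw h2 hh hα⟩

end Pool.Agent.H505R5.PC
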