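import Pool.Agent.H505R5.PC.Defs

set_option autoImplicit false

namespace Pool.Agent.H505R5.PC

open Finset

/-- the rectangular moment sum -/
noncomputable def MOMZ_T (K k l : ℕ) : ℝ :=
  ∑ p ∈ (Fintype.piFinset (fun _ : Fin k => Icc 1 K)) ×ˢ
      (Fintype.piFinset (fun _ : Fin l => Icc 1 K)),
    (if ∏ i, p.1 i = ∏ i, p.2 i then
      (∏ i, (Real.sqrt (p.1 i))⁻¹) * ∏ i, (Real.sqrt (p.2 i))⁻¹ else 0)

theorem MOMZ_split (l : ℕ) : ∀ (m : Fin l → ℕ) (d : ℕ), d ∣ ∏ i, m i →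
    ∃ g : Fin l → ℕ, (∀ j, g j ∣ m j) ∧ ∏ j, g j = d := by
  induction l with
  | zero =>
    intro m d hd
    refine ⟨fun _ => 1, fun j => j.elim0, ?_⟩
    simp at hd ⊢
    exact hd.symm
  | succ l ih =>
    intro m d hd
    rw [Fin.prod_univ_succ] at hd
    obtain ⟨a, b, ha, hb, hab⟩ := exists_dvd_and_dvd_of_dvd_mul hd
    obtain ⟨g, hg, hgp⟩ := ih (fun j => m j.succ) b hb
    refine ⟨Fin.cons a g, ?_, ?_⟩
    · intro j
      refine Fin.cases ?_ (fun i => ?_) j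
      · simpa using ha
      · simpa using hg i
    · rw [Fin.prod_univ_succ]
      simp [hgp, hab]

theorem MOMZ_base (K l : ℕ) : MOMZ_T K 0 l ≤ 1 := by
  unfold MOMZ_T
  calc _ ≤ ∑ p ∈ (Fintype.piFinset (fun _ : Fin 0 => Icc 1 K)) ×ˢ
      (Fintype.piFinset (fun _ : Fin l => Icc 1 K)),
        (if p = ((fun i => i.elim0 : Fin 0 → ℕ), (fun _ => 1 : Fin l → ℕ)) then (1 : ℝ) else 0) := by
        apply Finset.sum_le_sum
        intro p _
        by_cases h : ∏ i, p.1 i = ∏ i, p.2 i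
        · rw [if_pos h]
          have h1 : ∀ i, p.2 i = 1 := by
            simp at h
            have h2 := h.symm
            rw [Finset.prod_eq_one_iff] at h2
            intro i
            exact h2 i (Finset.mem_univ _)
          have h3 : p = ((fun i => i.elim0 : Fin 0 → ℕ), (fun _ => 1 : Fin l → ℕ)) := by
            refine Prod.ext ?_ ?_
            · funext i; exact i.elim0
            · funext i; exact h1 i
          rw [if_pos h3]
          simp [h1]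
        · rw [if_neg h]
          split_ifs <;> norm_num
    _ ≤ 1 := by
        rw [Finset.sum_ite_eq']
        split_ifs <;> norm_num

theorem MOMZ_harm (K l : ℕ) :
    ∑ g ∈ Fintype.piFinset (fun _ : Fin l => Icc 1 K), ∏ j, ((1 : ℝ) / (g j : ℝ)) = harm K ^ l := by
  have h := (Finset.prod_univ_sum (fun _ : Fin l => Icc 1 K)
    (fun _ n => (1 : ℝ) / (n : ℝ))).symm
  rw [h]
  simp [harm]

theorem MOMZ_step (K k l : ℕ) : MOMZ_T K (k + 1) l ≤ harm K ^ l * MOMZ_T K k l := by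
  classical
  have hex : ∀ (n : Fin (k + 1) → ℕ) (m : Fin l → ℕ), ∃ g : Fin l → ℕ,
      (∏ i, n i = ∏ i, m i → (∀ j, g j ∣ m j) ∧ ∏ j, g j = n 0) := by
    intro n m
    by_cases h : ∏ i, n i = ∏ i, m i
    · have hd : n 0 ∣ ∏ i, m i := by
        rw [← h, Fin.prod_univ_succ]
        exact Dvd.intro _ rfl
      obtain ⟨g, hg⟩ := MOMZ_split l m (n 0) hd
      exact ⟨g, fun _ => hg⟩
    · exact ⟨fun _ => 0, fun h' => absurd h' h⟩
  choose G hG using hex
  set S := ((Fintype.piFinset (fun _ : Fin (k + 1) => Icc 1 K)) ×ˢ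
      (Fintype.piFinset (fun _ : Fin l => Icc 1 K))).filter
      (fun p => ∏ i, p.1 i = ∏ i, p.2 i) with hS
  set φ : (Fin (k + 1) → ℕ) × (Fin l → ℕ) → (Fin l → ℕ) × ((Fin k → ℕ) × (Fin l → ℕ)) :=
    fun p => (G p.1 p.2, (Fin.tail p.1, fun j => p.2 j / G p.1 p.2 j)) with hφ
  set U := (Fintype.piFinset (fun _ : Fin l => Icc 1 K)) ×ˢ
    ((Fintype.piFinset (fun _ : Fin k => Icc 1 K)) ×ˢ
      (Fintype.piFinset (fun _ : Fin l => Icc 1 K))) with hU
  set w : (Fin l → ℕ) × ((Fin k → ℕ) × (Fin l → ℕ)) → ℝ := fun y =>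
    (∏ j, ((1 : ℝ) / (y.1 j : ℝ))) * (if ∏ i, y.2.1 i = ∏ i, y.2.2 i then
      (∏ i, (Real.sqrt (y.2.1 i))⁻¹) * ∏ i, (Real.sqrt (y.2.2 i))⁻¹ else 0) with hw
  have hmem : ∀ p ∈ S, (∀ i, 1 ≤ p.1 i ∧ p.1 i ≤ K) ∧ (∀ i, 1 ≤ p.2 i ∧ p.2 i ≤ K) ∧
      ∏ i, p.1 i = ∏ i, p.2 i := by
    intro p hp
    rw [hS, Finset.mem_filter, Finset.mem_product, Fintype.mem_piFinset,
      Fintype.mem_piFinset] at hp
    exact ⟨fun i => Finset.mem_Icc.1 (hp.1.1 i), fun i => Finset.mem_Icc.1 (hp.1.2 i), hp.2⟩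
  have hinj : Set.InjOn φ (S : Set _) := by
    intro p hp q hq hpq
    have h1 := hmem p hp
    have h2 := hmem q hq
    have g1 := hG p.1 p.2 h1.2.2
    have g2 := hG q.1 q.2 h2.2.2
    simp only [hφ, Prod.mk.injEq] at hpq
    obtain ⟨e1, e2, e3⟩ := hpq
    have e4 : p.2 = q.2 := by
      funext j
      have a1 : G p.1 p.2 j * (p.2 j / G p.1 p.2 j) = p.2 j := Nat.mul_div_cancel' (g1.1 j)
      have a2 : G q.1 q.2 j * (q.2 j / G q.1 q.2 j) = q.2 j := Nat.mul_div_cancel' (g2.1 j)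
      have a3 : p.2 j / G p.1 p.2 j = q.2 j / G q.1 q.2 j := congrFun e3 j
      rw [← a1, a3, congrFun e1 j, a2]
    have e5 : p.1 = q.1 := by
      have b1 : p.1 0 = q.1 0 := by rw [← g1.2, ← g2.2, e1]
      funext i
      refine Fin.cases b1 (fun i => ?_) i
      exact congrFun e2 i
    exact Prod.ext e5 e4
  have hterm : ∀ p ∈ S, (∏ i, (Real.sqrt (p.1 i))⁻¹) * ∏ i, (Real.sqrt (p.2 i))⁻¹ = w (φ p) := by
    intro p hp
    have h1 := hmem p hp
    have g1 := hG p.1 p.2 h1.2.2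
    have hgpos : ∀ j, 0 < G p.1 p.2 j := fun j =>
      Nat.pos_of_dvd_of_pos (g1.1 j) (h1.2.1 j).1
    have hmj : ∀ j, p.2 j = G p.1 p.2 j * (p.2 j / G p.1 p.2 j) := fun j =>
      (Nat.mul_div_cancel' (g1.1 j)).symm
    have hprod : ∏ i, (Fin.tail p.1) i = ∏ j, (p.2 j / G p.1 p.2 j) := by
      have c1 : p.1 0 * ∏ i, (Fin.tail p.1) i = ∏ j, p.2 j := by
        rw [← h1.2.2, Fin.prod_univ_succ]; rfl
      have c2 : ∏ j, p.2 j = p.1 0 * ∏ j, (p.2 j / G p.1 p.2 j) := by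
        rw [← g1.2, ← Finset.prod_mul_distrib]
        exact Finset.prod_congr rfl (fun j _ => hmj j)
      have c3 : 0 < p.1 0 := (h1.1 0).1
      exact Nat.eq_of_mul_eq_mul_left c3 (c1.trans c2)
    simp only [hw, hφ]
    rw [if_pos hprod, Fin.prod_univ_succ]
    have d1 : (Real.sqrt (p.1 0 : ℕ))⁻¹ = ∏ j, (Real.sqrt (G p.1 p.2 j : ℕ))⁻¹ := by
      rw [← g1.2]
      push_cast
      rw [Real.sqrt_prod _ (fun i _ => Nat.cast_nonneg _), Finset.prod_inv_distrib]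
    have d2 : ∏ i, (Real.sqrt (p.2 i : ℕ))⁻¹ = (∏ j, (Real.sqrt (G p.1 p.2 j : ℕ))⁻¹) *
        ∏ j, (Real.sqrt ((p.2 j / G p.1 p.2 j : ℕ) : ℝ))⁻¹ := by
      rw [← Finset.prod_mul_distrib]
      refine Finset.prod_congr rfl (fun j _ => ?_)
      conv_lhs => rw [hmj j]
      rw [Nat.cast_mul, Real.sqrt_mul (Nat.cast_nonneg _), mul_inv]
    have d3 : (∏ j, (Real.sqrt (G p.1 p.2 j : ℕ))⁻¹) * (∏ j, (Real.sqrt (G p.1 p.2 j : ℕ))⁻¹) =
        ∏ j, ((1 : ℝ) / (G p.1 p.2 j : ℝ)) := by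
      rw [← Finset.prod_mul_distrib]
      refine Finset.prod_congr rfl (fun j _ => ?_)
      rw [← mul_inv, Real.mul_self_sqrt (Nat.cast_nonneg _), one_div]
    rw [d1, d2, ← d3]
    simp only [Fin.tail]
    ring
  have hwnn : ∀ y, 0 ≤ w y := by
    intro y
    simp only [hw]
    apply mul_nonneg
    · exact Finset.prod_nonneg (fun j _ => by positivity)
    · split_ifs
      · exact mul_nonneg (Finset.prod_nonneg (fun j _ => by positivity))
          (Finset.prod_nonneg (fun j _ => by positivity))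
      · exact le_rfl
  have hsub : S.image φ ⊆ U := by
    intro y hy
    rw [Finset.mem_image] at hy
    obtain ⟨p, hp, rfl⟩ := hy
    have h1 := hmem p hp
    have g1 := hG p.1 p.2 h1.2.2
    rw [hU, Finset.mem_product, Finset.mem_product, Fintype.mem_piFinset, Fintype.mem_piFinset,
      Fintype.mem_piFinset]
    simp only [hφ]
    refine ⟨fun j => Finset.mem_Icc.2 ⟨Nat.pos_of_dvd_of_pos (g1.1 j) (h1.2.1 j).1,
      (Nat.le_of_dvd (h1.2.1 j).1 (g1.1 j)).trans (h1.2.1 j).2⟩, fun i => ?_, fun j => ?_⟩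
    · exact Finset.mem_Icc.2 (h1.1 i.succ)
    · refine Finset.mem_Icc.2 ⟨?_, (Nat.div_le_self _ _).trans (h1.2.1 j).2⟩
      exact Nat.div_pos (Nat.le_of_dvd (h1.2.1 j).1 (g1.1 j))
        (Nat.pos_of_dvd_of_pos (g1.1 j) (h1.2.1 j).1)
  calc MOMZ_T K (k + 1) l = ∑ p ∈ S, (∏ i, (Real.sqrt (p.1 i))⁻¹) *
        ∏ i, (Real.sqrt (p.2 i))⁻¹ := by
        rw [hS, Finset.sum_filter]
        rfl
    _ = ∑ p ∈ S, w (φ p) := Finset.sum_congr rfl hterm
    _ = ∑ y ∈ S.image φ, w y := (Finset.sum_image hinj).symm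
    _ ≤ ∑ y ∈ U, w y := Finset.sum_le_sum_of_subset_of_nonneg hsub (fun y _ _ => hwnn y)
    _ = harm K ^ l * MOMZ_T K k l := by
        rw [hU, Finset.sum_product, ← MOMZ_harm, Finset.sum_mul]
        refine Finset.sum_congr rfl (fun g _ => ?_)
        simp only [hw]
        rw [← Finset.mul_sum]
        rfl

theorem MOMZ_main (K l : ℕ) : ∀ k : ℕ, MOMZ_T K k l ≤ harm K ^ (k * l) := by
  intro k
  have hh : 0 ≤ harm K := by
    unfold harm
    exact Finset.sum_nonneg (fun n _ => by positivity)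
  induction k with
  | zero => simpa using MOMZ_base K l
  | succ k ih =>
    refine (MOMZ_step K k l).trans ?_
    calc harm K ^ l * MOMZ_T K k l ≤ harm K ^ l * harm K ^ (k * l) :=
          mul_le_mul_of_nonneg_left ih (pow_nonneg hh _)
      _ = harm K ^ ((k + 1) * l) := by rw [← pow_add]; congr 1; ring

theorem t_MOMZ : S_MOMZ := by
  intro K k _
  have h := MOMZ_main K k k
  rw [← sq] at h
  exact h

end Pool.Agent.H505R5.PC
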