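import Pool.Agent.H505R5.PC.Defs

set_option autoImplicit false

open MeasureTheory Finset Filter Topology
open scoped BigOperators ENNReal

namespace Pool.Agent.H505R5.PC

theorem NUM1_real (e : ℝ) (he : 0 < e) :
    ∀ᶠ x : ℝ in atTop, Real.log 2 * (e / 200) + 4 * x ^ (63 * (e / 200)) / (e / 200) +
      4 * Real.log x ≤ (e / 200) * x ^ e := by
  have hτ : (0:ℝ) < e / 200 := by positivity
  have h1 : ∀ᶠ x : ℝ in atTop, 12 / (e/200)^2 ≤ x ^ (e - 63 * (e / 200)) :=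
    (tendsto_rpow_atTop (by linarith)).eventually_ge_atTop _
  have h2 : ∀ᶠ x : ℝ in atTop, 3 * Real.log 2 ≤ x ^ e :=
    (tendsto_rpow_atTop he).eventually_ge_atTop _
  have h3 : ∀ᶠ x : ℝ in atTop, ‖Real.log x‖ ≤ (e / 200 / 12) * ‖x ^ e‖ :=
    (isLittleO_log_rpow_atTop he).bound (by positivity)
  filter_upwards [h1, h2, h3, eventually_gt_atTop 0] with x h1 h2 h3 hx
  have hxe : 0 < x ^ e := Real.rpow_pos_of_pos hx _
  have hxt : 0 < x ^ (63 * (e / 200)) := Real.rpow_pos_of_pos hx _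
  rw [Real.norm_eq_abs, Real.norm_eq_abs, abs_of_pos hxe] at h3
  have h3' := (le_abs_self _).trans h3
  have h4 : 4 * x ^ (63 * (e / 200)) / (e / 200) ≤ (e / 200) / 3 * x ^ e := by
    have : x ^ e = x ^ (e - 63 * (e / 200)) * x ^ (63 * (e / 200)) := by
      rw [← Real.rpow_add hx]; congr 1; ring
    rw [this]
    have h5 : 12 / (e/200)^2 * x ^ (63 * (e / 200)) ≤
        x ^ (e - 63 * (e / 200)) * x ^ (63 * (e / 200)) :=
      mul_le_mul_of_nonneg_right h1 hxt.le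
    calc 4 * x ^ (63 * (e / 200)) / (e / 200)
        = (e / 200) / 3 * (12 / (e/200)^2 * x ^ (63 * (e / 200))) := by
          field_simp
          ring
      _ ≤ _ := mul_le_mul_of_nonneg_left h5 (by positivity)
  have h5 : Real.log 2 * (e / 200) ≤ (e / 200) / 3 * x ^ e := by nlinarith
  have h6 : 4 * Real.log x ≤ (e / 200) / 3 * x ^ e := by linarith
  linarith

theorem NUM1_poly : ∀ᶠ x : ℝ in atTop, 2 * x + 3 * (2 * x) * (x ^ 30) ^ 2 * (9 * x) + 1 ≤ x ^ (63 : ℕ) := by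
  filter_upwards [eventually_ge_atTop 57] with x hx
  have h0 : (0:ℝ) ≤ x := by linarith
  have h1 : 1 ≤ x := by linarith
  have e1 : (1:ℝ) ≤ x ^ 62 := one_le_pow₀ h1
  have e2 : x ≤ x ^ 62 := le_self_pow₀ h1 (by norm_num)
  have : x ^ 63 = x * x ^ 62 := by ring
  have h3 : 3 * (2 * x) * (x ^ 30) ^ 2 * (9 * x) = 54 * x ^ 62 := by ring
  rw [h3, this]
  nlinarith [mul_le_mul_of_nonneg_right hx (by positivity : (0:ℝ) ≤ x ^ 62)]

theorem NUM1_log : ∀ᶠ N : ℕ in atTop,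
    (Nat.log 2 ⌈(N:ℝ) * Real.log N ^ 4⌉₊ : ℝ) ≤ 9 * Real.log N := by
  have h1 : ∀ᶠ x : ℝ in atTop, ‖Real.log x‖ ≤ 1 * ‖x ^ (1:ℝ)‖ :=
    (isLittleO_log_rpow_atTop one_pos).bound (by positivity)
  have h1' := tendsto_natCast_atTop_atTop (R := ℝ).eventually h1
  filter_upwards [h1', eventually_ge_atTop 3] with N hN hN3
  have hNpos : (0:ℝ) < N := by exact_mod_cast (by omega : 0 < N)
  have hN3' : (3:ℝ) ≤ N := by exact_mod_cast hN3
  have hlog : 0 ≤ Real.log N := Real.log_nonneg (by linarith)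
  rw [Real.rpow_one, one_mul, Real.norm_eq_abs, Real.norm_eq_abs, abs_of_pos hNpos,
    abs_of_nonneg hlog] at hN
  have h2 : (⌈(N:ℝ) * Real.log N ^ 4⌉₊ : ℝ) ≤ (N:ℝ) ^ 6 := by
    have : (N:ℝ) * Real.log N ^ 4 ≤ (N:ℝ) ^ 5 := by
      calc (N:ℝ) * Real.log N ^ 4 ≤ (N:ℝ) * (N:ℝ) ^ 4 := by gcongr
        _ = _ := by ring
    have h3 : (⌈(N:ℝ) * Real.log N ^ 4⌉₊ : ℝ) ≤ (N:ℝ) ^ 5 := by
      have : ⌈(N:ℝ) * Real.log N ^ 4⌉₊ ≤ N ^ 5 := by
        apply Nat.ceil_le.2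
        push_cast
        exact this
      exact_mod_cast this
    have h4 : (N:ℝ) ^ 5 ≤ (N:ℝ) ^ 6 := pow_le_pow_right₀ (by linarith) (by norm_num)
    linarith
  rcases Nat.eq_zero_or_pos ⌈(N:ℝ) * Real.log N ^ 4⌉₊ with h0 | h0
  · rw [h0]; simp; positivity
  have h3 := Nat.pow_log_le_self 2 h0.ne'
  have h4 : (2:ℝ) ^ (Nat.log 2 ⌈(N:ℝ) * Real.log N ^ 4⌉₊) ≤ (N:ℝ) ^ 6 := by
    refine le_trans ?_ h2
    exact_mod_cast h3
  have h5 := Real.log_le_log (by positivity) h4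
  rw [Real.log_pow, Real.log_pow] at h5
  have h6 := Real.log_two_gt_d9
  push_cast at h5
  have h7 : (0:ℝ) ≤ (Nat.log 2 ⌈(N:ℝ) * Real.log N ^ 4⌉₊ : ℝ) := by positivity
  nlinarith

theorem t_NUM1 : S_NUM1 := by
  intro e he he1
  have hlogt : Tendsto (fun N : ℕ => Real.log (N:ℝ)) atTop atTop :=
    Real.tendsto_log_atTop.comp tendsto_natCast_atTop_atTop
  have key : ∀ᶠ N : ℕ in atTop, 1 ≤ ⌊Real.exp (Real.log N ^ e)⌋₊ ∧
    ⌊Real.exp (Real.log N ^ e)⌋₊ ≤ ⌈N * Real.log N ^ 4⌉₊ ∧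
    (⌊Real.exp (Real.log N ^ e)⌋₊ : ℝ) ^ (-(e / 200)) *
      Real.exp (4 * ((⌈Real.log N⌉₊ : ℝ) + 3 * ⌈Real.log N⌉₊ * (Real.log N ^ 30) ^ 2 *
      Nat.log 2 ⌈N * Real.log N ^ 4⌉₊ + 1) ^ (e / 200) / (e / 200)) ≤
      (Real.log N) ^ (-(4 : ℝ)) := by
    filter_upwards [hlogt.eventually (NUM1_real e he), hlogt.eventually NUM1_poly, NUM1_log,
      hlogt.eventually (eventually_ge_atTop 1), eventually_ge_atTop 3] with N h1 h2 h3 h4 hN3
    have hNpos : (0:ℝ) < N := by exact_mod_cast (by omega : 0 < N)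
    set L := Real.log N with hL
    have hL0 : 0 < L := by linarith
    have hex : Real.exp L = N := by rw [hL, Real.exp_log hNpos]
    have hLe : L ^ e ≤ L := by
      conv_rhs => rw [← Real.rpow_one L]
      exact Real.rpow_le_rpow_of_exponent_le h4 he1
    have hLe0 : 0 ≤ L ^ e := by positivity
    have hexp1 : 1 ≤ Real.exp (L ^ e) := Real.one_le_exp hLe0
    have hfl : 1 ≤ ⌊Real.exp (L ^ e)⌋₊ := Nat.le_floor (by exact_mod_cast hexp1)
    refine ⟨hfl, ?_, ?_⟩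
    · have hle : Real.exp (L ^ e) ≤ N * L ^ 4 := by
        calc Real.exp (L ^ e) ≤ Real.exp L := Real.exp_le_exp.2 hLe
          _ = N * 1 := by rw [hex, mul_one]
          _ ≤ N * L ^ 4 := by
            have : (1:ℝ) ≤ L ^ 4 := one_le_pow₀ h4
            gcongr
      have := (Nat.floor_le (Real.exp_pos (L ^ e)).le).trans (hle.trans (Nat.le_ceil _))
      exact_mod_cast this
    · have hτ : (0:ℝ) < e / 200 := by positivity
      have hc : (⌈L⌉₊ : ℝ) ≤ 2 * L := by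
        have := Nat.ceil_lt_add_one hL0.le
        linarith
      have hB : (⌈L⌉₊ : ℝ) + 3 * ⌈L⌉₊ * (L ^ 30) ^ 2 * Nat.log 2 ⌈N * L ^ 4⌉₊ + 1 ≤ L ^ 63 := by
        refine le_trans ?_ h2
        have : 3 * (⌈L⌉₊ : ℝ) * (L ^ 30) ^ 2 * Nat.log 2 ⌈N * L ^ 4⌉₊ ≤
            3 * (2 * L) * (L ^ 30) ^ 2 * (9 * L) := by
          gcongr
        linarith
      have hB0 : (0:ℝ) ≤ (⌈L⌉₊ : ℝ) + 3 * ⌈L⌉₊ * (L ^ 30) ^ 2 * Nat.log 2 ⌈N * L ^ 4⌉₊ + 1 := by
        positivity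
      have hB2 : ((⌈L⌉₊ : ℝ) + 3 * ⌈L⌉₊ * (L ^ 30) ^ 2 * Nat.log 2 ⌈N * L ^ 4⌉₊ + 1) ^ (e / 200) ≤
          L ^ (63 * (e / 200)) := by
        calc _ ≤ (L ^ 63) ^ (e / 200) := Real.rpow_le_rpow hB0 hB hτ.le
          _ = L ^ (63 * (e / 200)) := by
            rw [← Real.rpow_natCast L 63, ← Real.rpow_mul hL0.le]
            norm_num
      have hK : Real.exp (L ^ e) / 2 ≤ (⌊Real.exp (L ^ e)⌋₊ : ℝ) := by
        have h5 := Nat.lt_floor_add_one (Real.exp (L ^ e))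
        have h6 : (1:ℝ) ≤ (⌊Real.exp (L ^ e)⌋₊ : ℝ) := by exact_mod_cast hfl
        linarith
      have hK2 : (⌊Real.exp (L ^ e)⌋₊ : ℝ) ^ (-(e / 200)) ≤
          Real.exp (Real.log 2 * (e / 200) - (e / 200) * L ^ e) := by
        calc (⌊Real.exp (L ^ e)⌋₊ : ℝ) ^ (-(e / 200))
            ≤ (Real.exp (L ^ e) / 2) ^ (-(e / 200)) :=
              Real.rpow_le_rpow_of_nonpos (by positivity) hK (by linarith)
          _ = Real.exp (Real.log 2 * (e / 200) - (e / 200) * L ^ e) := by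
            rw [Real.rpow_def_of_pos (by positivity), Real.log_div (by positivity) (by norm_num),
              Real.log_exp]
            congr 1; ring
      have hR : L ^ (-(4:ℝ)) = Real.exp (-(4 * Real.log L)) := by
        rw [Real.rpow_def_of_pos hL0]; congr 1; ring
      rw [hR]
      calc _ ≤ Real.exp (Real.log 2 * (e / 200) - (e / 200) * L ^ e) *
            Real.exp (4 * L ^ (63 * (e / 200)) / (e / 200)) := by
            gcongr
        _ = Real.exp ((Real.log 2 * (e / 200) - (e / 200) * L ^ e) +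
            4 * L ^ (63 * (e / 200)) / (e / 200)) := by rw [Real.exp_add]
        _ ≤ _ := by
          apply Real.exp_le_exp.2
          linarith
  obtain ⟨N₀, hN₀⟩ := eventually_atTop.1 key
  exact ⟨N₀, fun N hN => hN₀ N hN⟩

end Pool.Agent.H505R5.PC
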