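import Pool.Agent.H505R5.PC.Defs

set_option autoImplicit false

open MeasureTheory Finset Filter Topology
open scoped BigOperators ENNReal

namespace Pool.Agent.H505R5.PC

theorem NUM2_harm_le (K : ℕ) : harm K ≤ 1 + Real.log K := by
  have h1 : harm K = ((harmonic K : ℚ) : ℝ) := by
    unfold harm
    rw [harmonic_eq_sum_Icc]
    push_cast
    exact Finset.sum_congr rfl fun n _ => one_div _
  rw [h1]
  exact harmonic_le_one_add_log K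

theorem NUM2_harm_nonneg (K : ℕ) : 0 ≤ harm K := by
  unfold harm
  exact Finset.sum_nonneg fun n _ => by positivity

/-- the harmonic sum up to `exp (l ^ e)` -/
theorem NUM2_harm (l e : ℝ) (hl : 1 ≤ l) (he : 0 < e) :
    harm ⌊Real.exp (l ^ e)⌋₊ ≤ 2 * l ^ e := by
  have h1 : 1 ≤ l ^ e := Real.one_le_rpow hl he.le
  have h2 : (1 : ℝ) ≤ Real.exp (l ^ e) := Real.one_le_exp (by linarith)
  have h3 : 1 ≤ ⌊Real.exp (l ^ e)⌋₊ := Nat.le_floor (by exact_mod_cast h2)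
  have h4 : (⌊Real.exp (l ^ e)⌋₊ : ℝ) ≤ Real.exp (l ^ e) := Nat.floor_le (by positivity)
  have h5 : Real.log ⌊Real.exp (l ^ e)⌋₊ ≤ l ^ e := by
    have h6 : (0 : ℝ) < ⌊Real.exp (l ^ e)⌋₊ := by exact_mod_cast h3
    calc _ ≤ Real.log (Real.exp (l ^ e)) := Real.log_le_log h6 h4
      _ = l ^ e := Real.log_exp _
  have := NUM2_harm_le ⌊Real.exp (l ^ e)⌋₊
  linarith

theorem t_NUM2 : S_NUM2 := by
  intro C c₀ c₁ B hC hc₀ hc₁ hB
  obtain ⟨δ, hδ⟩ : ∃ δ, δ = C - 1 := ⟨_, rfl⟩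
  have hδ0 : 0 < δ := by rw [hδ]; linarith
  have hCδ : C = 1 + δ := by rw [hδ]; ring
  obtain ⟨k, hk⟩ : ∃ k : ℕ, k = ⌈12 / δ + 4⌉₊ := ⟨_, rfl⟩
  have hk1 : 12 / δ + 4 ≤ (k : ℝ) := by rw [hk]; exact Nat.le_ceil _
  have hk4 : (4 : ℝ) ≤ k := by
    have : 0 < 12 / δ := by positivity
    linarith
  have hk4' : 4 ≤ k := by exact_mod_cast hk4
  have hk0 : (0 : ℝ) < k := by linarith
  have hkδ : 12 + 4 * δ ≤ k * δ := by
    have h1 : (12 / δ + 4) * δ ≤ k * δ := mul_le_mul_of_nonneg_right hk1 hδ0.le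
    have h2 : (12 / δ + 4) * δ = 12 + 4 * δ := by field_simp
    linarith
  obtain ⟨e, he⟩ : ∃ e : ℝ, e = 1 / (k : ℝ) ^ 2 := ⟨_, rfl⟩
  have he0 : 0 < e := by rw [he]; positivity
  have he1 : e ≤ 1 := by
    rw [he, div_le_one (by positivity)]
    nlinarith
  have hek : e * (k : ℝ) ^ 2 = 1 := by rw [he]; field_simp
  obtain ⟨c, hc⟩ : ∃ c : ℝ, c = min (δ / 2) 1 := ⟨_, rfl⟩
  have hc0 : 0 < c := by rw [hc]; exact lt_min (by positivity) one_pos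
  have hc1 : c ≤ 1 := by rw [hc]; exact min_le_right _ _
  have hcδ : c ≤ δ / 2 := by rw [hc]; exact min_le_left _ _
  obtain ⟨M, hM⟩ : ∃ M : ℝ, M = B ^ k * ((2 * c₀) ^ (k - 2) * (4 * c₁) * 2 ^ (k ^ 2)) := ⟨_, rfl⟩
  have hM0 : 0 < M := by rw [hM]; positivity
  have hlim : Tendsto (fun N : ℕ => Real.log (N : ℝ)) atTop atTop :=
    Real.tendsto_log_atTop.comp tendsto_natCast_atTop_atTop
  obtain ⟨N₀, hN₀⟩ := ((hlim.eventually_ge_atTop 1).and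
    ((hlim.eventually_ge_atTop M).and (eventually_ge_atTop 1))).exists_forall_of_atTop
  refine ⟨k, e, c, by omega, he0, he1, hc0, hc1, N₀, ?_⟩
  intro N hN g hg h
  obtain ⟨hl1, hlM, hN1⟩ := hN₀ N hN
  obtain ⟨l, hl⟩ : ∃ l, l = Real.log (N : ℝ) := ⟨_, rfl⟩
  rw [← hl] at h hl1 hlM ⊢
  have hl0 : 0 < l := by linarith
  have hNR : (0 : ℝ) < N := by exact_mod_cast hN1
  have hH := NUM2_harm l e hl1 he0
  have hH0 := NUM2_harm_nonneg ⌊Real.exp (l ^ e)⌋₊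
  -- the three factors
  have f1 : (2 * (c₀ * (N : ℝ) ^ 3 / l ^ C)) ^ (k - 2) =
      (2 * c₀) ^ (k - 2) * ((N : ℝ) ^ 3) ^ (k - 2) * l ^ (-(C * ((k : ℝ) - 2))) := by
    have h1 : 2 * (c₀ * (N : ℝ) ^ 3 / l ^ C) = (2 * c₀) * (N : ℝ) ^ 3 * l ^ (-C) := by
      rw [Real.rpow_neg hl0.le]
      field_simp
    rw [h1, mul_pow, mul_pow, ← Real.rpow_mul_natCast hl0.le]
    congr 2
    rw [Nat.cast_sub (by omega)]
    push_cast
    ring
  have f2 : c₁ * (1 + l) ^ 2 * (N : ℝ) ^ 6 ≤ (4 * c₁) * l ^ (2 : ℝ) * ((N : ℝ) ^ 3) ^ 2 := by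
    have h1 : (1 + l) ^ 2 ≤ 4 * l ^ (2 : ℝ) := by
      rw [Real.rpow_two]
      nlinarith
    have h2 : ((N : ℝ) ^ 3) ^ 2 = (N : ℝ) ^ 6 := by ring
    rw [h2]
    have h3 : c₁ * (1 + l) ^ 2 ≤ 4 * c₁ * l ^ (2 : ℝ) := by
      calc c₁ * (1 + l) ^ 2 ≤ c₁ * (4 * l ^ (2 : ℝ)) := mul_le_mul_of_nonneg_left h1 hc₁.le
        _ = _ := by ring
    exact mul_le_mul_of_nonneg_right h3 (by positivity)
  have f3 : harm ⌊Real.exp (l ^ e)⌋₊ ^ (k ^ 2) ≤ 2 ^ (k ^ 2) * l ^ (1 : ℝ) := by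
    calc harm ⌊Real.exp (l ^ e)⌋₊ ^ (k ^ 2) ≤ (2 * l ^ e) ^ (k ^ 2) :=
          pow_le_pow_left₀ hH0 hH _
      _ = 2 ^ (k ^ 2) * l ^ (1 : ℝ) := by
          rw [mul_pow, ← Real.rpow_mul_natCast hl0.le]
          congr 2
          rw [← hek]
          push_cast
          ring
  have hNk : ((N : ℝ) ^ 3) ^ (k - 2) * ((N : ℝ) ^ 3) ^ 2 = ((N : ℝ) ^ 3) ^ k := by
    rw [← pow_add]
    congr 1
    omega
  have key : g ^ k ≤ ((2 * c₀) ^ (k - 2) * (4 * c₁) * 2 ^ (k ^ 2)) * ((N : ℝ) ^ 3) ^ k *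
      (l ^ (-(C * ((k : ℝ) - 2))) * l ^ (2 : ℝ) * l ^ (1 : ℝ)) := by
    calc g ^ k ≤ _ := h
      _ ≤ ((2 * c₀) ^ (k - 2) * ((N : ℝ) ^ 3) ^ (k - 2) * l ^ (-(C * ((k : ℝ) - 2)))) *
          ((4 * c₁) * l ^ (2 : ℝ) * ((N : ℝ) ^ 3) ^ 2) * (2 ^ (k ^ 2) * l ^ (1 : ℝ)) := by
          rw [f1]
          apply mul_le_mul _ f3 (by positivity) (by positivity)
          exact mul_le_mul_of_nonneg_left f2 (by positivity)
      _ = _ := by
          rw [← hNk]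
          ring
  have hexp : l ^ (-(C * ((k : ℝ) - 2))) * l ^ (2 : ℝ) * l ^ (1 : ℝ) ≤ l ^ (-(1 + c) * k - 1) := by
    rw [← Real.rpow_add hl0, ← Real.rpow_add hl0]
    apply Real.rpow_le_rpow_of_exponent_le hl1
    rw [hCδ]
    have h1 : c * k ≤ δ / 2 * k := mul_le_mul_of_nonneg_right hcδ hk0.le
    nlinarith
  have key2 : (B * g / (N : ℝ) ^ 3) ^ k ≤ (l ^ (-(1 + c))) ^ k := by
    have hNk0 : 0 < ((N : ℝ) ^ 3) ^ k := by positivity
    rw [div_pow, mul_pow, div_le_iff₀ hNk0]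
    calc B ^ k * g ^ k ≤ B ^ k * (((2 * c₀) ^ (k - 2) * (4 * c₁) * 2 ^ (k ^ 2)) *
          ((N : ℝ) ^ 3) ^ k * l ^ (-(1 + c) * k - 1)) := by
          apply mul_le_mul_of_nonneg_left _ (by positivity)
          exact key.trans (mul_le_mul_of_nonneg_left hexp (by positivity))
      _ = M * l ^ (-(1 + c) * k - 1) * ((N : ℝ) ^ 3) ^ k := by rw [hM]; ring
      _ ≤ l * l ^ (-(1 + c) * k - 1) * ((N : ℝ) ^ 3) ^ k := by
          apply mul_le_mul_of_nonneg_right _ hNk0.le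
          exact mul_le_mul_of_nonneg_right hlM (by positivity)
      _ = (l ^ (-(1 + c))) ^ k * ((N : ℝ) ^ 3) ^ k := by
          congr 1
          rw [← Real.rpow_mul_natCast hl0.le]
          nth_rewrite 1 [← Real.rpow_one l]
          rw [← Real.rpow_add hl0]
          congr 1
          ring
  exact le_of_pow_le_pow_left₀ (by omega) (by positivity) key2

end Pool.Agent.H505R5.PC
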