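import Pool.Agent.H505R5.PC.Defs

set_option autoImplicit false

open MeasureTheory Finset Filter Topology
open scoped BigOperators ENNReal

namespace Pool.Agent.H505R5.PC

theorem NUM3_harm (K : ℕ) : harm K ≤ 1 + Real.log K := by
  have h := harmonic_le_one_add_log K
  have h2 : ((harmonic K : ℚ) : ℝ) = harm K := by
    unfold harm
    rw [harmonic_eq_sum_Icc]
    push_cast
    refine Finset.sum_congr rfl fun i _ => ?_
    rw [one_div]
  rw [← h2]; exact h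

theorem NUM3_harm_nonneg (K : ℕ) : 0 ≤ harm K := by
  unfold harm
  exact Finset.sum_nonneg fun i _ => by positivity

theorem t_NUM3 : S_NUM3 := by
  intro c₁ B hc₁ hB
  have hlog : Tendsto (fun N : ℕ => Real.log (N : ℝ)) atTop atTop :=
    Real.tendsto_log_atTop.comp tendsto_natCast_atTop_atTop
  have hsmall : ∀ᶠ l : ℝ in atTop, Real.log l ≤ l / 8 := by
    have h := Real.isLittleO_log_id_atTop.bound (show (0 : ℝ) < 1 / 8 by norm_num)
    filter_upwards [h, eventually_ge_atTop (1 : ℝ)] with l hl h1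
    have h2 : Real.log l ≤ ‖Real.log l‖ := Real.le_norm_self _
    have h3 : ‖(id l : ℝ)‖ = l := by simp [abs_of_nonneg (by linarith : (0 : ℝ) ≤ l)]
    rw [h3] at hl
    linarith
  have hev : ∀ᶠ N : ℕ in atTop,
      Real.log (Real.log N) ≤ Real.log N / 8 ∧ 4 ≤ Real.log N ∧ 2 * B ≤ Real.log N ∧
      64 * 3 ^ 9 * B ^ 3 * c₁ ≤ Real.log N ∧ 1 ≤ N := by
    refine (hlog.eventually hsmall).and ((hlog.eventually_ge_atTop 4).and
      ((hlog.eventually_ge_atTop (2 * B)).and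
      ((hlog.eventually_ge_atTop (64 * 3 ^ 9 * B ^ 3 * c₁)).and (eventually_ge_atTop 1))))
  obtain ⟨N₀, hN₀⟩ := eventually_atTop.1 hev
  refine ⟨N₀, fun N hN g hg hg3 => ?_⟩
  obtain ⟨h1, h2, h3, h4, h5⟩ := hN₀ N hN
  set l := Real.log (N : ℝ) with hl
  have hlpos : 0 < l := by linarith
  have hNpos : (0 : ℝ) < N := by exact_mod_cast h5
  have hN1 : (1 : ℝ) ≤ N := by exact_mod_cast h5
  have hl4 : (1 : ℝ) ≤ l ^ 4 := one_le_pow₀ (by linarith)
  have hNl : (1 : ℝ) ≤ N * l ^ 4 := by nlinarith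
  set H := ⌈(N : ℝ) * l ^ 4⌉₊ with hH
  have hHge : (N : ℝ) * l ^ 4 ≤ H := Nat.le_ceil _
  have hHle : (H : ℝ) ≤ 2 * (N * l ^ 4) := by
    have := Nat.ceil_lt_add_one (show (0 : ℝ) ≤ N * l ^ 4 by positivity)
    linarith
  have hHpos : (0 : ℝ) < H := by linarith
  have hharm : harm H ≤ 3 * l := by
    have ha := NUM3_harm H
    have hb : Real.log H ≤ Real.log (2 * (N * l ^ 4)) := Real.log_le_log hHpos hHle
    have hc : Real.log (2 * (N * l ^ 4)) = Real.log 2 + (l + 4 * Real.log l) := by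
      rw [Real.log_mul (by norm_num) (by positivity), Real.log_mul (by positivity) (by positivity),
        Real.log_pow]
      push_cast
      ring
    have hd : Real.log 2 < 0.6931471808 := Real.log_two_lt_d9
    rw [hc] at hb
    nlinarith
  have hharm0 := NUM3_harm_nonneg H
  -- bound of g
  have hg9 : harm H ^ 9 ≤ (3 * l) ^ 9 := pow_le_pow_left₀ hharm0 hharm 9
  have h1l : (1 + l) ^ 2 ≤ 4 * l ^ 2 := by nlinarith
  have hbig : g ^ 3 ≤ (2 * ((N : ℝ) ^ 3 / l ^ 30)) * (c₁ * (4 * l ^ 2) * (N : ℝ) ^ 6) *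
      (3 * l) ^ 9 := by
    refine hg3.trans ?_
    gcongr
  have hbig2 : (B * (g / (N : ℝ) ^ 3)) ^ 3 ≤ 8 * 3 ^ 9 * B ^ 3 * c₁ / l ^ 19 := by
    have e1 : (B * (g / (N : ℝ) ^ 3)) ^ 3 = B ^ 3 * g ^ 3 / (N : ℝ) ^ 9 := by
      field_simp
    have e2 : B ^ 3 * ((2 * ((N : ℝ) ^ 3 / l ^ 30)) * (c₁ * (4 * l ^ 2) * (N : ℝ) ^ 6) *
      (3 * l) ^ 9) / (N : ℝ) ^ 9 = 8 * 3 ^ 9 * B ^ 3 * c₁ / l ^ 19 := by
      field_simp
      ring
    rw [e1, ← e2]
    gcongr
  have hcube : (B * (g / (N : ℝ) ^ 3)) ^ 3 ≤ (1 / (2 * l ^ 3)) ^ 3 := by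
    refine hbig2.trans ?_
    rw [div_le_iff₀ (by positivity)]
    have e3 : (1 / (2 * l ^ 3)) ^ 3 * l ^ 19 = l ^ 10 / 8 := by
      field_simp
      ring
    rw [e3]
    have h10 : l ≤ l ^ 10 := le_self_pow₀ (by linarith) (by norm_num)
    linarith
  have hfin1 : B * (g / (N : ℝ) ^ 3) ≤ 1 / (2 * l ^ 3) :=
    le_of_pow_le_pow_left₀ (by norm_num) (by positivity) hcube
  have hfin2 : B * (N / (H : ℝ)) ≤ 1 / (2 * l ^ 3) := by
    have hq : (N : ℝ) / H ≤ 1 / l ^ 4 := by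
      rw [div_le_div_iff₀ hHpos (by positivity)]
      linarith
    have : B * (N / (H : ℝ)) ≤ B * (1 / l ^ 4) := by gcongr
    refine this.trans ?_
    rw [mul_one_div, div_le_div_iff₀ (by positivity) (by positivity)]
    have : l ^ 4 = l ^ 3 * l := by ring
    rw [this]
    nlinarith [pow_pos hlpos 3]
  have hrp : l ^ (-(3 : ℝ)) = 1 / l ^ 3 := by
    rw [Real.rpow_neg hlpos.le, one_div]
    norm_num
  rw [hrp, mul_add]
  have : 1 / (2 * l ^ 3) + 1 / (2 * l ^ 3) = 1 / l ^ 3 := by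
    field_simp
    norm_num
  linarith

end Pool.Agent.H505R5.PC
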