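import Pool.Agent.H505R5.PC.Defs

set_option autoImplicit false

open MeasureTheory Finset Filter Topology
open scoped BigOperators ENNReal

namespace Pool.Agent.H505R5.PC

theorem PRM_qn_pos {v w : ℤ} (hv : v ≠ 0) : 0 < qn v w := by
  unfold qn
  apply Nat.div_pos
  · apply Nat.le_of_dvd (Int.natAbs_pos.mpr hv)
    have := Int.gcd_dvd_left v w
    exact Int.natCast_dvd.mp this
  · exact Int.gcd_pos_of_ne_zero_left w hv

theorem PRM_card (q H : ℕ) (hq : 0 < q) (hH : q ≤ H) : q.primeFactors.card ≤ Nat.log 2 H := by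
  have h1 : 2 ^ q.primeFactors.card ≤ ∏ p ∈ q.primeFactors, p := by
    rw [← Finset.prod_const]
    apply Finset.prod_le_prod
    · intro i _; omega
    · intro i hi
      exact (Nat.prime_of_mem_primeFactors hi).two_le
  have h2 : ∏ p ∈ q.primeFactors, p ≤ q := Nat.le_of_dvd hq (Nat.prod_primeFactors_dvd q)
  have h3 : 2 ^ q.primeFactors.card ≤ H := by omega
  exact Nat.le_log_of_pow_le (by norm_num) h3

theorem PRM_max (Q : ℕ → Prop) (M : ℕ) (h0 : Q 0) (hM : ∀ n, Q n → n ≤ M) :
    ∃ n, n ≤ M ∧ Q n ∧ ¬ Q (n + 1) := by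
  by_contra hcon
  push Not at hcon
  have h : ∀ n, Q n := by
    intro n
    induction n with
    | zero => exact h0
    | succ n ih => exact hcon n (hM n ih) ih
  have := hM _ (h (M + 1))
  omega

theorem t_PRM : S_PRM := by
  classical
  intro v W y M H hv h0 hq hH hch
  obtain ⟨M', hM', ⟨w, hwW, hwc⟩, hmax⟩ := PRM_max
    (fun n => ∃ w : Fin n → ℤ, (∀ i, w i ∈ W) ∧ Chain v y n w) M
    ⟨fun i => i.elim0, fun i => i.elim0, fun i => i.elim0⟩
    (fun n ⟨w, h1, h2⟩ => hch n w h1 h2)
  refine ⟨(Finset.Icc 1 y) ∪ Finset.univ.biUnion (fun i => (qn v (w i)).primeFactors), ?_, ?_⟩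
  · refine (Finset.card_union_le _ _).trans ?_
    have h1 : (Finset.Icc 1 y).card = y := by simp
    have h2 : (Finset.univ.biUnion (fun i => (qn v (w i)).primeFactors)).card ≤
        M' * Nat.log 2 H := by
      refine Finset.card_biUnion_le.trans ?_
      refine (Finset.sum_le_sum (fun i _ => PRM_card _ H (PRM_qn_pos hv) (hq _ (hwW i)))).trans ?_
      simp
    rw [h1]
    have h3 : M' * Nat.log 2 H ≤ M * Nat.log 2 H := Nat.mul_le_mul_right _ hM'
    omega
  · intro w' hw' p hp hpd
    by_contra hnot
    rw [Finset.mem_union, not_or] at hnot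
    obtain ⟨hn1, hn2⟩ := hnot
    have hpy : y < p := by
      rw [Finset.mem_Icc] at hn1
      have := hp.one_lt
      omega
    have hnd : ∀ i, ¬ p ∣ qn v (w i) := by
      intro i hd
      apply hn2
      rw [Finset.mem_biUnion]
      exact ⟨i, Finset.mem_univ _, Nat.mem_primeFactors.mpr ⟨hp, hd, (PRM_qn_pos hv).ne'⟩⟩
    apply hmax
    refine ⟨Fin.snoc w w', ?_, ?_⟩
    · intro i
      refine Fin.lastCases ?_ (fun i => ?_) i
      · simpa using hw'
      · simpa using hwW i
    · intro i
      refine Fin.lastCases ?_ (fun i => ?_) i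
      · refine ⟨p, hp, hpy, ?_, ?_⟩
        · simpa using hpd
        · intro j hj
          obtain ⟨j', rfl⟩ : ∃ j' : Fin M', j = Fin.castSucc j' := by
            refine ⟨⟨j.val, ?_⟩, ?_⟩
            · have := hj
              rw [Fin.lt_def] at this
              simpa using this
            · ext; rfl
          simpa using hnd j'
      · obtain ⟨q, hqp, hqy, hqd, hqn⟩ := hwc i
        refine ⟨q, hqp, hqy, ?_, ?_⟩
        · simpa using hqd
        · intro j hj
          obtain ⟨j', rfl⟩ : ∃ j' : Fin M', j = Fin.castSucc j' := by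
            refine ⟨⟨j.val, ?_⟩, ?_⟩
            · have := hj
              rw [Fin.lt_def] at this
              have h2 := i.isLt
              simp at this
              omega
            · ext; rfl
          have hj' : j' < i := by
            rw [Fin.lt_def] at hj ⊢
            simpa using hj
          simpa using hqn j' hj'

end Pool.Agent.H505R5.PC
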