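import Pool.Agent.H505R5.PC.Defs

/-! Task PS (helper439): the theorem for one set. -/

set_option autoImplicit false

open MeasureTheory Finset Filter Topology
open scoped BigOperators ENNReal

namespace Pool.Agent.H505R5.PC

theorem PS_num (c l : ℝ) (hc : 0 < c) (hl2 : 2 ≤ l) (hlc : (2 : ℝ) ^ (2 / c) ≤ l) :
    l ^ (-(3 : ℝ)) + l ^ (-(1 + c)) ≤ l ^ (-(1 + min c 1 / 2)) := by
  have hl0 : 0 < l := by linarith
  have hl1 : 1 ≤ l := by linarith
  obtain ⟨c', hc'⟩ : ∃ c' : ℝ, c' = min c 1 / 2 := ⟨_, rfl⟩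
  rw [← hc']
  have hm1 : min c 1 ≤ c := min_le_left _ _
  have hm2 : min c 1 ≤ 1 := min_le_right _ _
  have e1 : l ^ (-(3 : ℝ)) = l ^ (-(1 + c')) * l ^ (-(2 - c')) := by
    rw [← Real.rpow_add hl0]; congr 1; ring
  have e2 : l ^ (-(1 + c)) = l ^ (-(1 + c')) * l ^ (-(c - c')) := by
    rw [← Real.rpow_add hl0]; congr 1; ring
  have h1 : l ^ (-(2 - c')) ≤ 1 / 2 := by
    calc l ^ (-(2 - c')) ≤ l ^ (-1 : ℝ) :=
          Real.rpow_le_rpow_of_exponent_le hl1 (by linarith)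
      _ = 1 / l := by rw [Real.rpow_neg_one, one_div]
      _ ≤ 1 / 2 := one_div_le_one_div_of_le (by norm_num) hl2
  have h2 : l ^ (-(c - c')) ≤ 1 / 2 := by
    have h3 : (2 : ℝ) ≤ l ^ (c / 2) := by
      calc (2 : ℝ) = ((2 : ℝ) ^ (2 / c)) ^ (c / 2) := by
            rw [← Real.rpow_mul (by norm_num)]
            have : 2 / c * (c / 2) = 1 := by field_simp
            rw [this, Real.rpow_one]
        _ ≤ l ^ (c / 2) := Real.rpow_le_rpow (by positivity) hlc (by positivity)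
    calc l ^ (-(c - c')) ≤ l ^ (-(c / 2)) :=
          Real.rpow_le_rpow_of_exponent_le hl1 (by linarith)
      _ = 1 / l ^ (c / 2) := by rw [Real.rpow_neg hl0.le, one_div]
      _ ≤ 1 / 2 := one_div_le_one_div_of_le (by norm_num) h3
  have h0 : 0 ≤ l ^ (-(1 + c')) := by positivity
  rw [e1, e2]
  nlinarith [mul_le_mul_of_nonneg_left h1 h0, mul_le_mul_of_nonneg_left h2 h0]

theorem t_PS (h1 : S_CNT) (h2 : S_LOW) (h3 : S_HIGH) : S_PS := by
  intro C c₀ s ε hC hc₀ hs hε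
  obtain ⟨c, hc, N₁, hN₁⟩ := h3 C c₀ s (ε / 4) hC hc₀ hs (by positivity)
  obtain ⟨N₂, hN₂⟩ := h2 s (ε / 4) hs (by positivity)
  have hev : ∀ᶠ N : ℕ in atTop, max 2 ((2 : ℝ) ^ (2 / c)) ≤ Real.log N :=
    (Real.tendsto_log_atTop.comp tendsto_natCast_atTop_atTop).eventually_ge_atTop _
  obtain ⟨N₃, hN₃⟩ := eventually_atTop.1 hev
  obtain ⟨N₄, hN₄⟩ := exists_nat_gt (8 * s / ε)
  refine ⟨min c 1 / 2, by positivity, max (max N₁ N₂) (max N₃ (N₄ + 1)), ?_⟩
  intro A hA hEn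
  have hA1 : N₁ ≤ A.card := ((le_max_left _ _).trans (le_max_left _ _)).trans hA
  have hA2 : N₂ ≤ A.card := ((le_max_right _ _).trans (le_max_left _ _)).trans hA
  have hA3 : N₃ ≤ A.card := ((le_max_left _ _).trans (le_max_right _ _)).trans hA
  have hA4 : N₄ + 1 ≤ A.card := ((le_max_right _ _).trans (le_max_right _ _)).trans hA
  have hl := hN₃ A.card hA3
  have hl2 : 2 ≤ Real.log A.card := (le_max_left _ _).trans hl
  have hlc : (2 : ℝ) ^ (2 / c) ≤ Real.log A.card := (le_max_right _ _).trans hl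
  have hAne : A.Nonempty := by
    rw [← Finset.card_pos]; omega
  obtain ⟨N, hN⟩ : ∃ N : ℝ, N = (A.card : ℝ) := ⟨_, rfl⟩
  have hN0 : 0 < N := by
    rw [hN]; exact_mod_cast Finset.card_pos.2 hAne
  have hNs : 2 * s / N < ε / 4 := by
    have h4 : 8 * s / ε < N := by
      refine hN₄.trans_le ?_
      rw [hN]
      exact_mod_cast (by omega : N₄ ≤ A.card)
    rw [div_lt_iff₀ hε] at h4
    rw [div_lt_iff₀ hN0]
    linarith
  have hlow := hN₂ A hA2
  have hhigh := hN₁ A hA1 hEn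
  refine le_trans ?_ ((add_le_add hlow hhigh).trans (PS_num c _ hc hl2 hlc))
  refine le_trans (measureReal_mono ?_ (by finiteness)) (measureReal_union_le _ _)
  intro α hα
  rw [Set.mem_ofPred_eq] at hα
  rw [Set.mem_union, Set.mem_ofPred_eq, Set.mem_ofPred_eq]
  by_contra hcon
  push Not at hcon
  obtain ⟨g1, g2⟩ := hcon
  have hcnt := (h1 A (s / A.card) α hAne).1
  have hsplit := Finset.sum_filter_add_sum_filter_not (Df A)
    (fun v => (rp A v : ℝ) < A.card / (Real.log A.card) ^ 30)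
    (fun v => (rp A v : ℝ) * (ind (s / A.card) v α - 2 * (s / A.card)))
  simp only [not_lt] at hsplit
  rw [← hsplit] at hcnt
  obtain ⟨S1, hS1⟩ : ∃ S1 : ℝ, S1 = ∑ v ∈ (Df A).filter
      (fun v => (rp A v : ℝ) < A.card / (Real.log A.card) ^ 30),
      (rp A v : ℝ) * (ind (s / A.card) v α - 2 * (s / A.card)) := ⟨_, rfl⟩
  obtain ⟨S2, hS2⟩ : ∃ S2 : ℝ, S2 = ∑ v ∈ (Df A).filter
      (fun v => (A.card : ℝ) / (Real.log A.card) ^ 30 ≤ rp A v),
      (rp A v : ℝ) * (ind (s / A.card) v α - 2 * (s / A.card)) := ⟨_, rfl⟩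
  rw [← hS1] at g1 hcnt
  rw [← hS2] at g2 hcnt
  rw [← hN] at hcnt hα g1 g2
  have e1 : (Cnt A (s / N) α : ℝ) / N - 2 * s = (S1 + S2) / N - 2 * s / N := by
    rw [← hcnt]
    field_simp
    ring
  rw [e1] at hα
  have h5 : |(S1 + S2) / N - 2 * s / N| ≤ ε / 4 + ε / 4 + ε / 4 := by
    have a1 : |(S1 + S2) / N| ≤ ε / 4 + ε / 4 := by
      rw [abs_div, abs_of_pos hN0, div_le_iff₀ hN0]
      have := abs_add_le S1 S2
      linarith
    have a2 : |2 * s / N| ≤ ε / 4 := by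
      rw [abs_of_pos (by positivity)]
      exact hNs.le
    have a3 := abs_sub ((S1 + S2) / N) (2 * s / N)
    linarith
  linarith

end Pool.Agent.H505R5.PC
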