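import Pool.Agent.H505R5.PC.Defs

set_option autoImplicit false

open MeasureTheory Finset Filter Topology
open scoped BigOperators ENNReal

namespace Pool.Agent.H505R5.PC

theorem Q2B_card (D : Finset ℤ) (v : ℤ) :
    ((D.filter (fun w => v.natAbs = w.natAbs)).card : ℝ) ≤ 2 := by
  have h : D.filter (fun w => v.natAbs = w.natAbs) ⊆ ({v, -v} : Finset ℤ) := by
    intro w hw
    rw [Finset.mem_filter] at hw
    rcases Int.natAbs_eq_natAbs_iff.mp hw.2 with h | h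
    · simp [h]
    · simp [h]
  have h2 := (Finset.card_le_card h).trans Finset.card_le_two
  exact_mod_cast h2

theorem t_Q2B : S_Q2B := by
  intro D ρ hρ
  unfold Q2
  have h1 : ∀ v ∈ D, ∀ w ∈ D, (if v.natAbs = w.natAbs then ρ v * ρ w else 0) ≤
      (if v.natAbs = w.natAbs then ρ v ^ 2 / 2 else 0) +
      (if w.natAbs = v.natAbs then ρ w ^ 2 / 2 else 0) := by
    intro v _ w _
    by_cases h : v.natAbs = w.natAbs
    · rw [if_pos h, if_pos h, if_pos h.symm]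
      nlinarith [sq_nonneg (ρ v - ρ w)]
    · rw [if_neg h, if_neg h, if_neg (fun h' => h h'.symm)]
      simp
  have h2 : ∀ v ∈ D, ∑ w ∈ D, (if v.natAbs = w.natAbs then ρ v ^ 2 / 2 else 0) ≤ ρ v ^ 2 := by
    intro v _
    rw [← Finset.sum_filter, Finset.sum_const, nsmul_eq_mul]
    have := Q2B_card D v
    nlinarith [sq_nonneg (ρ v)]
  calc ∑ v ∈ D, ∑ w ∈ D, (if v.natAbs = w.natAbs then ρ v * ρ w else 0)
      ≤ ∑ v ∈ D, ∑ w ∈ D, ((if v.natAbs = w.natAbs then ρ v ^ 2 / 2 else 0) +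
      (if w.natAbs = v.natAbs then ρ w ^ 2 / 2 else 0)) :=
        Finset.sum_le_sum (fun v hv => Finset.sum_le_sum (fun w hw => h1 v hv w hw))
    _ = ∑ v ∈ D, ∑ w ∈ D, (if v.natAbs = w.natAbs then ρ v ^ 2 / 2 else 0) +
        ∑ v ∈ D, ∑ w ∈ D, (if w.natAbs = v.natAbs then ρ w ^ 2 / 2 else 0) := by
        simp only [Finset.sum_add_distrib]
    _ = ∑ v ∈ D, ∑ w ∈ D, (if v.natAbs = w.natAbs then ρ v ^ 2 / 2 else 0) +
        ∑ w ∈ D, ∑ v ∈ D, (if w.natAbs = v.natAbs then ρ w ^ 2 / 2 else 0) := by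
        congr 1
        exact Finset.sum_comm
    _ ≤ ∑ v ∈ D, ρ v ^ 2 + ∑ v ∈ D, ρ v ^ 2 :=
        add_le_add (Finset.sum_le_sum h2) (Finset.sum_le_sum h2)
    _ = 2 * ∑ v ∈ D, ρ v ^ 2 := by ring

end Pool.Agent.H505R5.PC
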