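import Pool.Agent.H505R5.PC.Defs

/-!
# Q4B: the fourth moment for the representation function
-/

set_option autoImplicit false

open Finset

namespace Pool.Agent.H505R5.PC

theorem Q4B_neg (A : Finset ℤ) (x : ℚ) : Cx A (-x) ≤ Cx A x := by
  classical
  unfold Cx
  refine Finset.card_le_card_of_injOn (fun p => (p.1, (p.2.2, p.2.1))) ?_ ?_
  · intro p hp
    simp only [Finset.coe_filter, Finset.mem_product, Set.mem_ofPred_eq] at hp ⊢
    refine ⟨⟨hp.1.1, hp.1.2.2, hp.1.2.1⟩, Ne.symm hp.2.1, ?_⟩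
    rw [hp.2.2]
    ring
  · intro p _ q _ hpq
    simp only [Prod.mk.injEq] at hpq
    exact Prod.ext hpq.1 (Prod.ext hpq.2.2 hpq.2.1)

/-- the sum over the pairs with quotient `y` -/
theorem Q4B_P (A D : Finset ℤ) (hD : 0 ∉ D) (y : ℚ) :
    ∑ q ∈ D ×ˢ D, (if (q.1 : ℚ) = y * q.2 then (rp A q.1 : ℝ) * rp A q.2 else 0) ≤ Cx A y := by
  classical
  set S := ((A ×ˢ A) ×ˢ (A ×ˢ A)).filter (fun p =>
    p.2.1 ≠ p.2.2 ∧ ((p.1.1 : ℚ) - p.1.2) = y * (p.2.1 - p.2.2)) with hS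
  have h1 : ∀ q ∈ D ×ˢ D, (if (q.1 : ℚ) = y * q.2 then (rp A q.1 : ℝ) * rp A q.2 else 0) ≤
      ((S.filter (fun p => (p.1.1 - p.1.2, p.2.1 - p.2.2) = q)).card : ℝ) := by
    intro q hq
    rw [Finset.mem_product] at hq
    split_ifs with hy
    · have h2 : rp A q.1 * rp A q.2 ≤
          (S.filter (fun p => (p.1.1 - p.1.2, p.2.1 - p.2.2) = q)).card := by
        unfold rp
        rw [← Finset.card_product]
        refine Finset.card_le_card fun p hp => ?_
        simp only [Finset.mem_product, Finset.mem_filter, hS] at hp ⊢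
        refine ⟨⟨⟨hp.1.1, hp.2.1⟩, ?_, ?_⟩, ?_⟩
        · intro h
          have : q.2 = 0 := by rw [← hp.2.2, h, sub_self]
          rw [this] at hq
          exact hD hq.2
        · have e1 : ((p.1.1 : ℚ) - p.1.2) = (q.1 : ℚ) := by rw [← hp.1.2]; push_cast; ring
          have e2 : ((p.2.1 : ℚ) - p.2.2) = (q.2 : ℚ) := by rw [← hp.2.2]; push_cast; ring
          rw [e1, e2, hy]
        · exact Prod.ext hp.1.2 hp.2.2
      exact_mod_cast h2
    · exact Nat.cast_nonneg _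
  refine (Finset.sum_le_sum h1).trans ?_
  rw [← Nat.cast_sum, Finset.sum_card_fiberwise_eq_card_filter]
  exact_mod_cast Finset.card_filter_le _ _

/-- the sum over the pairs with absolute quotient `x` -/
theorem Q4B_T (A D : Finset ℤ) (hD : 0 ∉ D) (x : ℚ) (hx : 0 < x) :
    ∑ q ∈ D ×ˢ D, (if (q.1.natAbs : ℚ) = x * q.2.natAbs then (rp A q.1 : ℝ) * rp A q.2 else 0) ≤
      2 * Cx A x := by
  classical
  have h1 := Q4B_P A D hD x
  have h2 := Q4B_P A D hD (-x)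
  have h3 : (Cx A (-x) : ℝ) ≤ Cx A x := by exact_mod_cast Q4B_neg A x
  have h4 : ∑ q ∈ D ×ˢ D,
      (if (q.1.natAbs : ℚ) = x * q.2.natAbs then (rp A q.1 : ℝ) * rp A q.2 else 0) ≤
      ∑ q ∈ D ×ˢ D, ((if (q.1 : ℚ) = x * q.2 then (rp A q.1 : ℝ) * rp A q.2 else 0) +
        (if (q.1 : ℚ) = -x * q.2 then (rp A q.1 : ℝ) * rp A q.2 else 0)) := by
    refine Finset.sum_le_sum fun q _ => ?_
    have hnn : (0 : ℝ) ≤ (rp A q.1 : ℝ) * rp A q.2 := by positivity
    by_cases h : (q.1.natAbs : ℚ) = x * q.2.natAbs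
    · rw [if_pos h]
      have h5 : |(q.1 : ℚ)| = |x * (q.2 : ℚ)| := by
        rw [abs_mul, abs_of_pos hx, ← Int.cast_abs, ← Int.cast_abs, ← Nat.cast_natAbs,
          ← Nat.cast_natAbs]
        exact h
      rcases abs_eq_abs.1 h5 with h6 | h6
      · rw [if_pos h6]
        split_ifs <;> linarith
      · have h7 : (q.1 : ℚ) = -x * q.2 := by rw [h6]; ring
        rw [if_pos h7]
        split_ifs <;> linarith
    · rw [if_neg h]
      split_ifs <;> linarith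
  rw [Finset.sum_add_distrib] at h4
  linarith

/-- the fourth moment as a sum over the quotients -/
theorem Q4B_main (D : Finset ℤ) (hD : 0 ∉ D) (ρ : ℤ → ℝ) (hρ : ∀ v, 0 ≤ ρ v) :
    Q4 D ρ ≤ ∑ x ∈ ((D ×ˢ D) ×ˢ (D ×ˢ D)).image
        (fun p => (p.1.1.natAbs : ℚ) / p.2.1.natAbs),
      (∑ q ∈ D ×ˢ D, (if (q.1.natAbs : ℚ) = x * q.2.natAbs then ρ q.1 * ρ q.2 else 0)) ^ 2 := by
  classical
  unfold Q4
  rw [← Finset.sum_fiberwise_of_maps_to (t := ((D ×ˢ D) ×ˢ (D ×ˢ D)).image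
        (fun p => (p.1.1.natAbs : ℚ) / p.2.1.natAbs))
      (g := fun p => (p.1.1.natAbs : ℚ) / p.2.1.natAbs)
      (fun p hp => Finset.mem_image_of_mem _ hp)]
  refine Finset.sum_le_sum fun x _ => ?_
  rw [sq, Finset.sum_mul_sum, ← Finset.sum_product', Finset.sum_filter]
  have hbij : ∑ z ∈ (D ×ˢ D) ×ˢ (D ×ˢ D),
      (if (z.1.1.natAbs : ℚ) = x * z.1.2.natAbs then ρ z.1.1 * ρ z.1.2 else 0) *
        (if (z.2.1.natAbs : ℚ) = x * z.2.2.natAbs then ρ z.2.1 * ρ z.2.2 else 0) =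
      ∑ p ∈ (D ×ˢ D) ×ˢ (D ×ˢ D),
      (if (p.1.1.natAbs : ℚ) = x * p.2.1.natAbs then ρ p.1.1 * ρ p.2.1 else 0) *
        (if (p.2.2.natAbs : ℚ) = x * p.1.2.natAbs then ρ p.2.2 * ρ p.1.2 else 0) := by
    refine Finset.sum_nbij' (fun z => ((z.1.1, z.2.2), (z.1.2, z.2.1)))
      (fun p => ((p.1.1, p.2.1), (p.2.2, p.1.2))) ?_ ?_ ?_ ?_ ?_
    · intro z hz
      simp only [Finset.mem_product] at hz ⊢
      tauto
    · intro z hz
      simp only [Finset.mem_product] at hz ⊢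
      tauto
    · intro z _; rfl
    · intro z _; rfl
    · intro z _; rfl
  rw [hbij]
  refine Finset.sum_le_sum fun p hp => ?_
  simp only [Finset.mem_product] at hp
  have hR : 0 ≤ (if (p.1.1.natAbs : ℚ) = x * p.2.1.natAbs then ρ p.1.1 * ρ p.2.1 else 0) *
        (if (p.2.2.natAbs : ℚ) = x * p.1.2.natAbs then ρ p.2.2 * ρ p.1.2 else 0) := by
    apply mul_nonneg
    · split_ifs
      · exact mul_nonneg (hρ _) (hρ _)
      · exact le_rfl
    · split_ifs
      · exact mul_nonneg (hρ _) (hρ _)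
      · exact le_rfl
  by_cases hx : (p.1.1.natAbs : ℚ) / p.2.1.natAbs = x
  · rw [if_pos hx]
    by_cases hy : (p.1.1 * p.1.2).natAbs = (p.2.1 * p.2.2).natAbs
    · rw [if_pos hy]
      have hw1 : (p.2.1.natAbs : ℚ) ≠ 0 := by
        have : p.2.1 ≠ 0 := fun h => hD (h ▸ hp.2.1)
        exact_mod_cast (Int.natAbs_ne_zero.2 this)
      have e1 : (p.1.1.natAbs : ℚ) = x * p.2.1.natAbs := by
        rw [← hx]
        field_simp
      have e2 : (p.2.2.natAbs : ℚ) = x * p.1.2.natAbs := by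
        rw [Int.natAbs_mul, Int.natAbs_mul] at hy
        have hy' : (p.1.1.natAbs : ℚ) * p.1.2.natAbs = p.2.1.natAbs * p.2.2.natAbs := by
          exact_mod_cast hy
        rw [e1] at hy'
        apply mul_left_cancel₀ hw1
        rw [← hy']
        ring
      rw [if_pos e1, if_pos e2]
      apply le_of_eq
      ring
    · rw [if_neg hy]
      exact hR
  · rw [if_neg hx]
    exact hR

theorem t_Q4B (hCX : S_CX) : S_Q4B := by
  classical
  obtain ⟨c, hc, hCX⟩ := hCX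
  refine ⟨4 * c, by positivity, fun A D hA hD => ?_⟩
  refine (Q4B_main D hD (fun v => (rp A v : ℝ)) (fun v => Nat.cast_nonneg _)).trans ?_
  set X := ((D ×ˢ D) ×ˢ (D ×ˢ D)).image (fun p => (p.1.1.natAbs : ℚ) / p.2.1.natAbs) with hX
  have hpos : ∀ x ∈ X, 0 < x := by
    intro x hx
    rw [hX, Finset.mem_image] at hx
    obtain ⟨p, hp, rfl⟩ := hx
    simp only [Finset.mem_product] at hp
    have h1 : p.1.1 ≠ 0 := fun h => hD (h ▸ hp.1.1)
    have h2 : p.2.1 ≠ 0 := fun h => hD (h ▸ hp.2.1)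
    have h3 : 0 < p.1.1.natAbs := Int.natAbs_pos.2 h1
    have h4 : 0 < p.2.1.natAbs := Int.natAbs_pos.2 h2
    positivity
  calc ∑ x ∈ X, (∑ q ∈ D ×ˢ D, (if (q.1.natAbs : ℚ) = x * q.2.natAbs then
        (rp A q.1 : ℝ) * rp A q.2 else 0)) ^ 2
      ≤ ∑ x ∈ X, 4 * (Cx A x : ℝ) ^ 2 := by
        refine Finset.sum_le_sum fun x hx => ?_
        have h1 := Q4B_T A D hD x (hpos x hx)
        have h2 : 0 ≤ ∑ q ∈ D ×ˢ D, (if (q.1.natAbs : ℚ) = x * q.2.natAbs then
            (rp A q.1 : ℝ) * rp A q.2 else 0) := by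
          refine Finset.sum_nonneg fun q _ => ?_
          split_ifs
          · positivity
          · exact le_rfl
        nlinarith
    _ = 4 * ∑ x ∈ X, (Cx A x : ℝ) ^ 2 := by rw [Finset.mul_sum]
    _ ≤ 4 * (c * (1 + Real.log A.card) ^ 2 * (A.card : ℝ) ^ 6) :=
        mul_le_mul_of_nonneg_left (hCX A X hA hpos) (by norm_num)
    _ = 4 * c * (1 + Real.log A.card) ^ 2 * (A.card : ℝ) ^ 6 := by ring

end Pool.Agent.H505R5.PC
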