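import Pool.Agent.H505R5.PC.Defs

set_option autoImplicit false

open MeasureTheory Finset Filter Topology Asymptotics
open scoped BigOperators ENNReal

namespace Pool.Agent.H505R5.PC

theorem REP_le (x y z w : ℕ) (hxy : x ≤ y) (h : 3 ^ x + 3 ^ y = 3 ^ z + 3 ^ w) : w ≤ y := by
  by_contra hlt
  have h1 : 3 ^ x ≤ 3 ^ y := Nat.pow_le_pow_right (by norm_num) hxy
  have h2 : 3 ^ (y + 1) ≤ 3 ^ w := Nat.pow_le_pow_right (by norm_num) (by omega)
  have h3 : 0 < 3 ^ z := by positivity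
  have h4 : 0 < 3 ^ y := by positivity
  rw [pow_succ] at h2
  omega

theorem REP_sidon0 (x y z w : ℕ) (hxy : x ≤ y) (hzw : z ≤ w) (h : 3 ^ x + 3 ^ y = 3 ^ z + 3 ^ w) :
    x = z ∧ y = w := by
  have h1 := REP_le x y z w hxy h
  have h2 := REP_le z w x y hzw h.symm
  have h3 : y = w := le_antisymm h2 h1
  subst h3
  refine ⟨?_, rfl⟩
  have : 3 ^ x = 3 ^ z := by omega
  exact Nat.pow_right_injective (le_refl 2 |>.trans (by norm_num)) this

theorem REP_sidon (x y z w : ℕ) (h : 3 ^ x + 3 ^ y = 3 ^ z + 3 ^ w) :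
    (x = z ∧ y = w) ∨ (x = w ∧ y = z) := by
  rcases le_total x y with h1 | h1 <;> rcases le_total z w with h2 | h2
  · exact Or.inl (REP_sidon0 x y z w h1 h2 h)
  · exact Or.inr (REP_sidon0 x y w z h1 h2 (by omega))
  · have := REP_sidon0 y x z w h1 h2 (by omega)
    exact Or.inr ⟨this.2, this.1⟩
  · have := REP_sidon0 y x w z h1 h2 (by omega)
    exact Or.inl ⟨this.2, this.1⟩

/-- every power of three is taken twice -/
def REPa (n : ℕ) : ℤ := 3 ^ (n / 2)

theorem REP_energy (N : ℕ) : EnSeq REPa N ≤ 8 * N ^ 2 := by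
  unfold EnSeq
  have hc : ((range N ×ˢ range N) ×ˢ (range 2 ×ˢ (range 2 ×ˢ range 2))).card = 8 * N ^ 2 := by
    simp only [Finset.card_product, Finset.card_range]
    ring
  rw [← hc]
  apply Finset.card_le_card_of_injOn
    (fun p => ((p.1.1, p.1.2), (p.2.1 % 2, (p.2.2 % 2,
      if p.2.1 / 2 = p.1.1 / 2 ∧ p.2.2 / 2 = p.1.2 / 2 then 0 else 1))))
  · rintro ⟨⟨i, j⟩, ⟨k, l⟩⟩ hp
    simp only [Finset.coe_filter, Finset.mem_product, Finset.mem_range, Set.mem_ofPred_eq] at hp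
    simp only [Finset.coe_product, Finset.coe_range, Set.mem_prod, Set.mem_Iio]
    refine ⟨⟨hp.1.1.1, hp.1.1.2⟩, Nat.mod_lt _ (by norm_num), Nat.mod_lt _ (by norm_num), ?_⟩
    split_ifs <;> norm_num
  · rintro ⟨⟨i, j⟩, ⟨k, l⟩⟩ hp ⟨⟨i', j'⟩, ⟨k', l'⟩⟩ hp' heq
    simp only [Finset.coe_filter, Finset.mem_product, Finset.mem_range, Set.mem_ofPred_eq] at hp hp'
    simp only [Prod.mk.injEq] at heq
    obtain ⟨⟨rfl, rfl⟩, hk, hl, hf⟩ := heq
    have e1 := REP_sidon (i / 2) (j / 2) (k / 2) (l / 2) (by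
      have := hp.2
      unfold REPa at this
      exact_mod_cast this)
    have e2 := REP_sidon (i / 2) (j / 2) (k' / 2) (l' / 2) (by
      have := hp'.2
      unfold REPa at this
      exact_mod_cast this)
    have hkk : k = k' ∧ l = l' := by
      split_ifs at hf with c1 c2 c3 <;> constructor <;> omega
    rw [hkk.1, hkk.2]

theorem REP_bigO (C : ℝ) : (fun N : ℕ => (EnSeq REPa N : ℝ)) =O[atTop]
    (fun N : ℕ => (N : ℝ) ^ 3 / (Real.log N) ^ C) := by
  have h1 : (fun x : ℝ => Real.log x ^ C) =o[atTop] fun x => x ^ (1 : ℝ) :=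
    isLittleO_log_rpow_rpow_atTop C one_pos
  have h2 := (h1.bound one_pos)
  have h3 : ∀ᶠ N : ℕ in atTop, ‖Real.log (N : ℝ) ^ C‖ ≤ 1 * ‖(N : ℝ) ^ (1 : ℝ)‖ :=
    tendsto_natCast_atTop_atTop.eventually h2
  refine IsBigO.of_bound 8 ?_
  filter_upwards [h3, eventually_ge_atTop 2] with N hN hN2
  have hNr : (2 : ℝ) ≤ N := by exact_mod_cast hN2
  have hlog : 0 < Real.log N := Real.log_pos (by linarith)
  have hlC : 0 < Real.log N ^ C := Real.rpow_pos_of_pos hlog C
  rw [Real.rpow_one, one_mul, Real.norm_of_nonneg hlC.le, Real.norm_of_nonneg (by positivity)] at hN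
  rw [Real.norm_of_nonneg (by positivity), Real.norm_of_nonneg (by positivity)]
  have h4 : (EnSeq REPa N : ℝ) ≤ 8 * (N : ℝ) ^ 2 := by exact_mod_cast REP_energy N
  refine h4.trans ?_
  have h5 : (N : ℝ) ^ 2 ≤ (N : ℝ) ^ 3 / Real.log N ^ C := by
    rw [le_div_iff₀ hlC]
    calc (N : ℝ) ^ 2 * Real.log N ^ C ≤ (N : ℝ) ^ 2 * N := by gcongr
      _ = (N : ℝ) ^ 3 := by ring
  linarith

theorem REP_not (α : ℝ) : ¬ PPC (fun n => Int.fract ((REPa n : ℝ) * α)) := by
  intro h
  have h1 := h (1 / 4) (by norm_num)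
  have h2 : Tendsto (fun M : ℕ => 2 * (M + 1)) atTop atTop :=
    tendsto_atTop_mono (fun M => by simp only [id]; omega) tendsto_id
  have h3 := h1.comp h2
  have h4 : ∀ M : ℕ, 1 ≤ ((fun N : ℕ => (1 / (N : ℝ)) * ((((range N) ×ˢ (range N)).filter
    (fun p => p.1 ≠ p.2 ∧ nint ((fun n => Int.fract ((REPa n : ℝ) * α)) p.1 -
      (fun n => Int.fract ((REPa n : ℝ) * α)) p.2) < (1 / 4) / N)).card : ℝ)) ∘
      (fun M : ℕ => 2 * (M + 1))) M := by
    intro M
    simp only [Function.comp]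
    have hpos : (0 : ℝ) < ((2 * (M + 1) : ℕ) : ℝ) := by positivity
    rw [one_div, inv_mul_eq_div, le_div_iff₀ hpos, one_mul]
    norm_cast
    have hc : (range (2 * (M + 1))).card = 2 * (M + 1) := Finset.card_range _
    conv_lhs => rw [← hc]
    apply Finset.card_le_card_of_injOn (fun n => (n, 2 * (n / 2) + (1 - n % 2)))
    · intro n hn
      simp only [Finset.coe_range, Set.mem_Iio] at hn
      simp only [Finset.coe_filter, Finset.mem_product, Finset.mem_range, Set.mem_ofPred_eq]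
      refine ⟨⟨hn, by omega⟩, by omega, ?_⟩
      have he : REPa (2 * (n / 2) + (1 - n % 2)) = REPa n := by
        unfold REPa
        congr 1
        omega
      rw [he]
      simp only [sub_self, nint, round_zero, Int.cast_zero, abs_zero]
      positivity
    · intro n _ m _ hnm
      simp only [Prod.mk.injEq] at hnm
      exact hnm.1
  have h5 := ge_of_tendsto' h3 h4
  norm_num at h5

end Pool.Agent.H505R5.PC
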