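import Pool.Agent.H505R5.PC.Defs

set_option autoImplicit false

open Finset

namespace Pool.Agent.H505R5.PC

theorem t_RHO (h1 : S_LEN) (h2 : S_PRM) (h3 : S_RNK) : S_RHO := by
  classical
  intro A κ τ m K H hA hκ hτ hτ2 hm hlog hK hKH v hv
  have hDf : ∀ w ∈ Df A, w ≠ 0 := fun w hw => (Finset.mem_erase.1 hw).1
  have hv0 : v ≠ 0 := hDf v (Finset.mem_filter.1 hv).1
  set W := (((Df A).filter (fun v => (A.card : ℝ) / κ ≤ rp A v)).filter (fun w => ht v w ≤ H)) with hW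
  have hW0 : ∀ w ∈ W, w ≠ 0 := fun w hw => hDf w (Finset.mem_filter.1 (Finset.mem_filter.1 hw).1).1
  have hWp : ∀ w ∈ W, (A.card : ℝ) / κ ≤ rp A w :=
    fun w hw => (Finset.mem_filter.1 (Finset.mem_filter.1 hw).1).2
  have hWH : ∀ w ∈ W, ht v w ≤ H := fun w hw => (Finset.mem_filter.1 hw).2
  have hκ0 : 0 < κ := by linarith
  have hx0 : 0 ≤ 3 * (m : ℝ) * κ ^ 2 := by positivity
  obtain ⟨P, hP1, hP2⟩ := h2 v W m ⌊3 * (m : ℝ) * κ ^ 2⌋₊ H hv0 (fun h => hW0 0 h rfl)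
    (fun w hw => (Nat.div_le_div_right (le_max_left _ _)).trans (hWH w hw)) (hK.trans hKH)
    (by
      intro M' w hw hch
      apply Nat.le_floor
      exact h1 A v m M' w κ hA hκ0 hm hlog hv0 (fun i => hW0 _ (hw i)) (fun i => hWp _ (hw i)) hch)
  have key := h3 P (W.image (qn v)) K τ hK hτ hτ2 (by
    intro n hn
    obtain ⟨w, hw, rfl⟩ := Finset.mem_image.1 hn
    refine ⟨?_, fun p hp hd => hP2 w hw p hp hd⟩
    have hg : 0 < Int.gcd v w := Int.gcd_pos_of_ne_zero_left w hv0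
    exact Nat.div_pos (Nat.le_of_dvd (Int.natAbs_pos.2 hv0) (Int.gcd_dvd_natAbs_left v w)) hg)
  refine key.trans ?_
  apply mul_le_mul_of_nonneg_left _ (by positivity)
  apply Real.exp_le_exp.2
  have hcard : (P.card : ℝ) + 1 ≤ (m : ℝ) + 3 * m * κ ^ 2 * Nat.log 2 H + 1 := by
    have h4 : (P.card : ℝ) ≤ m + (⌊3 * (m : ℝ) * κ ^ 2⌋₊ : ℝ) * (Nat.log 2 H : ℝ) := by
      exact_mod_cast hP1
    have h5 : (⌊3 * (m : ℝ) * κ ^ 2⌋₊ : ℝ) * (Nat.log 2 H : ℝ) ≤ 3 * m * κ ^ 2 * Nat.log 2 H :=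
      mul_le_mul_of_nonneg_right (Nat.floor_le hx0) (Nat.cast_nonneg _)
    linarith
  have h6 : ((P.card : ℝ) + 1) ^ τ ≤ ((m : ℝ) + 3 * m * κ ^ 2 * Nat.log 2 H + 1) ^ τ :=
    Real.rpow_le_rpow (by positivity) hcard hτ.le
  exact div_le_div_of_nonneg_right (by linarith) hτ.le

end Pool.Agent.H505R5.PC
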