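import Pool.Agent.H505R5.PC.Defs

/-! RNK: Rankin's trick. -/

set_option autoImplicit false

open Finset
open scoped BigOperators

namespace Pool.Agent.H505R5.PC

/-- the completely multiplicative function `n ↦ n ^ (-s)` -/
noncomputable def RNK_f (s : ℝ) : ℕ →* ℝ where
  toFun n := (n : ℝ) ^ (-s)
  map_one' := by simp
  map_mul' m n := by
    push_cast
    exact Real.mul_rpow (Nat.cast_nonneg m) (Nat.cast_nonneg n)

theorem RNK_f_apply (s : ℝ) (n : ℕ) : RNK_f s n = (n : ℝ) ^ (-s) := rfl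

/-- one step of the comparison with the integral -/
theorem RNK_step (τ : ℝ) (h0 : 0 < τ) (h1 : τ ≤ 1) (x : ℝ) (hx : 1 < x) :
    x ^ (-(1 - τ)) ≤ (x ^ τ - (x - 1) ^ τ) / τ := by
  have hx0 : 0 < x := by linarith
  have hb := rpow_one_add_le_one_add_mul_self (s := -(1 / x)) (by
    have : 1 / x ≤ 1 := by rw [div_le_one hx0]; linarith
    linarith) (p := τ) h0.le h1
  have he : (x - 1) ^ τ = x ^ τ * (1 + -(1 / x)) ^ τ := by
    rw [← Real.mul_rpow hx0.le]
    · congr 1
      field_simp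
      ring
    · have : 1 / x ≤ 1 := by rw [div_le_one hx0]; linarith
      linarith
  have hp : 0 < x ^ τ := Real.rpow_pos_of_pos hx0 τ
  have hs : x ^ (-(1 - τ)) = x ^ τ * (1 / x) := by
    rw [show (-(1 - τ)) = τ - 1 by ring, Real.rpow_sub_one hx0.ne']
    ring
  rw [le_div_iff₀ h0, he, hs]
  nlinarith [mul_le_mul_of_nonneg_left hb hp.le]

/-- comparison with the integral -/
theorem RNK_int (τ : ℝ) (h0 : 0 < τ) (h1 : τ ≤ 1) (n : ℕ) :
    ∑ i ∈ range n, ((i : ℝ) + 2) ^ (-(1 - τ)) ≤ (((n : ℝ) + 1) ^ τ - 1) / τ := by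
  induction n with
  | zero => simp
  | succ n ih =>
    rw [sum_range_succ]
    have h := RNK_step τ h0 h1 ((n : ℝ) + 2) (by have := (Nat.cast_nonneg n : (0 : ℝ) ≤ n); linarith)
    have e : ((n : ℝ) + 2 - 1) = (n : ℝ) + 1 := by ring
    rw [e] at h
    push_cast
    have e2 : ((n : ℝ) + 1 + 1) = (n : ℝ) + 2 := by ring
    rw [e2]
    have : (((n : ℝ) + 1) ^ τ - 1) / τ + (((n : ℝ) + 2) ^ τ - ((n : ℝ) + 1) ^ τ) / τ
        = (((n : ℝ) + 2) ^ τ - 1) / τ := by
      field_simp
      ring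
    linarith

/-- a set of integers at least two against the first integers -/
theorem RNK_cmp (s : ℝ) (hs : 0 ≤ s) (Q : Finset ℕ) :
    (∀ p ∈ Q, 2 ≤ p) → ∑ p ∈ Q, (p : ℝ) ^ (-s) ≤ ∑ i ∈ range Q.card, ((i : ℝ) + 2) ^ (-s) := by
  induction Q using Finset.induction_on_max with
  | empty => intro _; simp
  | insert a Q hmax ih =>
    intro h
    have ha : a ∉ Q := fun hh => lt_irrefl a (hmax a hh)
    rw [sum_insert ha, card_insert_of_notMem ha, sum_range_succ]
    have ih' := ih (fun p hp => h p (mem_insert_of_mem hp))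
    have h2 : 2 ≤ a := h a (mem_insert_self a Q)
    have hc : Q.card + 2 ≤ a := by
      have hsub : Q ⊆ Ico 2 a := by
        intro p hp
        rw [mem_Ico]
        exact ⟨h p (mem_insert_of_mem hp), hmax p hp⟩
      have := card_le_card hsub
      rw [Nat.card_Ico] at this
      omega
    have hm : (a : ℝ) ^ (-s) ≤ ((Q.card : ℝ) + 2) ^ (-s) := by
      apply Real.rpow_le_rpow_of_nonpos
      · positivity
      · exact_mod_cast hc
      · linarith
    linarith

theorem RNK_geo (x : ℝ) (h0 : 0 ≤ x) (h1 : x ≤ 3 / 4) : (1 - x)⁻¹ ≤ Real.exp (4 * x) := by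
  have hx : 0 < 1 - x := by linarith
  have h := Real.log_le_sub_one_of_pos (inv_pos.mpr hx)
  have h2 : (1 - x)⁻¹ - 1 ≤ 4 * x := by
    rw [sub_le_iff_le_add, inv_le_iff_one_le_mul₀ hx]
    nlinarith
  calc (1 - x)⁻¹ = Real.exp (Real.log (1 - x)⁻¹) := (Real.exp_log (inv_pos.mpr hx)).symm
    _ ≤ Real.exp (4 * x) := Real.exp_le_exp.mpr (h.trans h2)

theorem RNK_small (s : ℝ) (hs : 1 / 2 ≤ s) (p : ℕ) (hp : 2 ≤ p) : (p : ℝ) ^ (-s) ≤ 3 / 4 := by
  have hp' : (2 : ℝ) ≤ p := by exact_mod_cast hp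
  calc (p : ℝ) ^ (-s) ≤ (p : ℝ) ^ (-(1 / 2 : ℝ)) := by
        apply Real.rpow_le_rpow_of_exponent_le (by linarith) (by linarith)
    _ ≤ (2 : ℝ) ^ (-(1 / 2 : ℝ)) := by
        apply Real.rpow_le_rpow_of_nonpos (by norm_num) hp' (by norm_num)
    _ ≤ 3 / 4 := by
        rw [Real.rpow_neg (by norm_num), ← Real.sqrt_eq_rpow]
        have h2 : (4 / 3 : ℝ) ≤ Real.sqrt 2 := by
          apply Real.le_sqrt_of_sq_le
          norm_num
        rw [inv_le_comm₀ (by positivity) (by norm_num)]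
        norm_num
        linarith

theorem t_RNK : S_RNK := by
  intro P V K τ hK h0 h1 hV
  have hKr : (1 : ℝ) ≤ K := by exact_mod_cast hK
  have hK0 : (0 : ℝ) < K := by linarith
  set s : ℝ := 1 - τ with hs
  have hs2 : 1 / 2 ≤ s := by rw [hs]; linarith
  -- the weights
  have hw : ∀ n ∈ V, (1 : ℝ) / max n K ≤ (K : ℝ) ^ (-τ) * RNK_f s n := by
    intro n hn
    have hn0 : (0 : ℝ) < n := by exact_mod_cast (hV n hn).1
    rw [RNK_f_apply, Real.rpow_neg hK0.le, Real.rpow_neg hn0.le, ← mul_inv, one_div, Nat.cast_max]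
    apply inv_anti₀
    · exact mul_pos (Real.rpow_pos_of_pos hK0 _) (Real.rpow_pos_of_pos hn0 _)
    · set m : ℝ := max (n : ℝ) (K : ℝ) with hm
      have hm0 : 0 < m := lt_of_lt_of_le hn0 (le_max_left _ _)
      calc (K : ℝ) ^ τ * (n : ℝ) ^ s ≤ m ^ τ * m ^ s := by
            apply mul_le_mul
            · exact Real.rpow_le_rpow hK0.le (le_max_right _ _) h0.le
            · exact Real.rpow_le_rpow hn0.le (le_max_left _ _) (by linarith)
            · exact (Real.rpow_pos_of_pos hn0 _).le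
            · exact (Real.rpow_pos_of_pos hm0 _).le
        _ = m := by
            rw [← Real.rpow_add hm0, hs]
            have : τ + (1 - τ) = 1 := by ring
            rw [this, Real.rpow_one]
  -- the Euler product
  have hlt : ∀ {p : ℕ}, p.Prime → ‖RNK_f s p‖ < 1 := by
    intro p hp
    rw [RNK_f_apply, Real.norm_of_nonneg (Real.rpow_nonneg (Nat.cast_nonneg p) _)]
    have := RNK_small s hs2 p hp.two_le
    linarith
  obtain ⟨hsum, hprod⟩ :=
    EulerProduct.summable_and_hasSum_factoredNumbers_prod_filter_prime_geometric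
      (f := RNK_f s) hlt P
  have hV2 : ∑ n ∈ V, RNK_f s n ≤ ∏ p ∈ P with p.Prime, (1 - RNK_f s p)⁻¹ := by
    have hmem : ∀ n ∈ V, n ∈ Nat.factoredNumbers P := by
      intro n hn
      rw [Nat.mem_factoredNumbers']
      exact (hV n hn).2
    let V' : Finset (Nat.factoredNumbers P) := V.attach.image (fun n => ⟨n.1, hmem n.1 n.2⟩)
    have e : ∑ n ∈ V, RNK_f s n = ∑ m ∈ V', RNK_f s (m : ℕ) := by
      rw [sum_image, sum_attach V (fun n => RNK_f s n)]
      intro a _ b _ hab
      have := congrArg (fun z : Nat.factoredNumbers P => (z : ℕ)) hab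
      exact Subtype.ext this
    rw [e]
    exact sum_le_hasSum V' (fun m _ => by
      rw [RNK_f_apply]
      exact Real.rpow_nonneg (Nat.cast_nonneg _) _) hprod
  have hprodle : ∏ p ∈ P with p.Prime, (1 - RNK_f s p)⁻¹ ≤
      Real.exp (4 * ∑ p ∈ P with p.Prime, (p : ℝ) ^ (-s)) := by
    rw [mul_sum, Real.exp_sum]
    apply prod_le_prod
    · intro p hp
      have := RNK_small s hs2 p (mem_filter.mp hp).2.two_le
      rw [RNK_f_apply]
      apply inv_nonneg.mpr
      linarith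
    · intro p hp
      rw [RNK_f_apply]
      exact RNK_geo _ (Real.rpow_nonneg (Nat.cast_nonneg p) _)
        (RNK_small s hs2 p (mem_filter.mp hp).2.two_le)
  have hsumle : ∑ p ∈ P with p.Prime, (p : ℝ) ^ (-s) ≤ ((P.card : ℝ) + 1) ^ τ / τ := by
    have a1 := RNK_cmp s (by linarith) (P.filter Nat.Prime)
      (fun p hp => (mem_filter.mp hp).2.two_le)
    have a2 := RNK_int τ h0 (by linarith) (P.filter Nat.Prime).card
    have a3 : ((((P.filter Nat.Prime).card : ℝ) + 1) ^ τ - 1) / τ ≤ ((P.card : ℝ) + 1) ^ τ / τ := by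
      apply div_le_div_of_nonneg_right _ h0.le
      have : (((P.filter Nat.Prime).card : ℝ) + 1) ^ τ ≤ ((P.card : ℝ) + 1) ^ τ := by
        apply Real.rpow_le_rpow (by positivity) _ h0.le
        have : (P.filter Nat.Prime).card ≤ P.card := card_filter_le _ _
        have : ((P.filter Nat.Prime).card : ℝ) ≤ P.card := by exact_mod_cast this
        linarith
      linarith
    exact (a1.trans a2).trans a3
  calc ∑ n ∈ V, (1 : ℝ) / max n K ≤ ∑ n ∈ V, (K : ℝ) ^ (-τ) * RNK_f s n := sum_le_sum hw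
    _ = (K : ℝ) ^ (-τ) * ∑ n ∈ V, RNK_f s n := by rw [mul_sum]
    _ ≤ (K : ℝ) ^ (-τ) * Real.exp (4 * ((P.card : ℝ) + 1) ^ τ / τ) := by
        apply mul_le_mul_of_nonneg_left _ (Real.rpow_nonneg hK0.le _)
        refine (hV2.trans hprodle).trans ?_
        apply Real.exp_le_exp.mpr
        rw [mul_div_assoc]
        linarith

end Pool.Agent.H505R5.PC
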