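import Pool.Agent.H505R5.PC.Defs

set_option autoImplicit false

open MeasureTheory Finset Filter Topology
open scoped BigOperators ENNReal

namespace Pool.Agent.H505R5.PC

/-- the points of a line -/
def ST_P (A : Finset ℤ) (l : ℚ × ℚ) : Finset (ℤ × ℤ) :=
  (A ×ˢ A).filter (fun p => (p.1 : ℚ) - l.1 * p.2 = l.2)

/-- index of an element -/
def ST_i (A : Finset ℤ) (a : ℤ) : ℕ := (A.filter (fun b => b < a)).card

/-- block of an element -/
def ST_b (A : Finset ℤ) (m : ℕ) (a : ℤ) : ℕ := ST_i A a / m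

lemma ST_i_mono (A : Finset ℤ) {a b : ℤ} (h : a ≤ b) : ST_i A a ≤ ST_i A b := by
  unfold ST_i
  apply card_le_card
  intro x hx
  rw [mem_filter] at hx ⊢
  exact ⟨hx.1, lt_of_lt_of_le hx.2 h⟩

lemma ST_b_mono (A : Finset ℤ) (m : ℕ) {a b : ℤ} (h : a ≤ b) : ST_b A m a ≤ ST_b A m b :=
  Nat.div_le_div_right (ST_i_mono A h)

lemma ST_i_lt (A : Finset ℤ) {a b : ℤ} (ha : a ∈ A) (h : a < b) : ST_i A a < ST_i A b := by
  unfold ST_i
  apply card_lt_card
  rw [Finset.ssubset_iff_of_subset]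
  · refine ⟨a, ?_, ?_⟩
    · rw [mem_filter]; exact ⟨ha, h⟩
    · rw [mem_filter]; intro h'; exact lt_irrefl _ h'.2
  · intro x hx
    rw [mem_filter] at hx ⊢
    exact ⟨hx.1, lt_trans hx.2 h⟩

lemma ST_i_inj (A : Finset ℤ) {a b : ℤ} (ha : a ∈ A) (hb : b ∈ A) (h : ST_i A a = ST_i A b) :
    a = b := by
  rcases lt_trichotomy a b with h1 | h1 | h1
  · exact absurd h (ST_i_lt A ha h1).ne
  · exact h1
  · exact absurd h (ST_i_lt A hb h1).ne'

lemma ST_i_le (A : Finset ℤ) {a : ℤ} (ha : a ∈ A) : ST_i A a ≤ A.card - 1 := by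
  have h1 : A.filter (fun b => b < a) ⊆ A.erase a := by
    intro x hx
    rw [mem_filter] at hx
    rw [mem_erase]
    exact ⟨hx.2.ne, hx.1⟩
  have h2 := card_le_card h1
  rw [card_erase_of_mem ha] at h2
  exact h2

lemma ST_block (A : Finset ℤ) (m j : ℕ) (hm : 0 < m) :
    (A.filter (fun a => ST_b A m a = j)).card ≤ m := by
  have h1 : (A.filter (fun a => ST_b A m a = j)).card ≤ (Finset.Ico (j * m) (j * m + m)).card := by
    apply card_le_card_of_injOn (fun a => ST_i A a)
    · intro a ha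
      rw [mem_coe, mem_filter] at ha
      rw [mem_coe, mem_Ico]
      have h2 := ha.2
      unfold ST_b at h2
      have h3 := Nat.div_add_mod (ST_i A a) m
      have h4 := Nat.mod_lt (ST_i A a) hm
      rw [h2, mul_comm] at h3
      show j * m ≤ ST_i A a ∧ ST_i A a < j * m + m
      constructor <;> omega
    · intro a ha b hb hab
      rw [mem_coe, mem_filter] at ha hb
      exact ST_i_inj A ha.1 hb.1 hab
  simpa using h1

lemma ST_pairs (A : Finset ℤ) (m : ℕ) (hm : 0 < m) :
    ((A ×ˢ A).filter (fun q => ST_b A m q.1 = ST_b A m q.2)).card ≤ A.card * m := by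
  have h1 : ((A ×ˢ A).filter (fun q => ST_b A m q.1 = ST_b A m q.2)) ⊆
      A.biUnion (fun a => (A.filter (fun b => ST_b A m b = ST_b A m a)).image (fun b => (a, b))) := by
    intro q hq
    rw [mem_filter, mem_product] at hq
    rw [mem_biUnion]
    refine ⟨q.1, hq.1.1, ?_⟩
    rw [mem_image]
    exact ⟨q.2, by rw [mem_filter]; exact ⟨hq.1.2, hq.2.symm⟩, rfl⟩
  refine (card_le_card h1).trans ?_
  refine card_biUnion_le_card_mul _ _ _ ?_
  intro a _
  exact card_image_le.trans (ST_block A m _ hm)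

/-- pairs of points in a common cell -/
def ST_Tot (A : Finset ℤ) (m : ℕ) : Finset ((ℤ × ℤ) × (ℤ × ℤ)) :=
  ((A ×ˢ A) ×ˢ (A ×ˢ A)).filter
    (fun q => ST_b A m q.1.1 = ST_b A m q.2.1 ∧ ST_b A m q.1.2 = ST_b A m q.2.2)

lemma ST_Tot_card (A : Finset ℤ) (m : ℕ) (hm : 0 < m) :
    (ST_Tot A m).card ≤ (A.card * m) * (A.card * m) := by
  have h1 : (ST_Tot A m).card ≤ (((A ×ˢ A).filter (fun q => ST_b A m q.1 = ST_b A m q.2)) ×ˢ
      ((A ×ˢ A).filter (fun q => ST_b A m q.1 = ST_b A m q.2))).card := by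
    apply card_le_card_of_injOn (fun q => ((q.1.1, q.2.1), (q.1.2, q.2.2)))
    · intro q hq
      rw [mem_coe] at hq
      unfold ST_Tot at hq
      simp only [mem_filter, mem_product] at hq
      simp only [coe_product, Set.mem_prod, mem_coe, mem_filter, mem_product]
      tauto
    · intro q _ q' _ h
      simp only [Prod.mk.injEq] at h
      ext <;> tauto
  rw [card_product] at h1
  exact h1.trans (Nat.mul_le_mul (ST_pairs A m hm) (ST_pairs A m hm))

lemma ST_fib {α : Type*} [DecidableEq α] (P : Finset α) (s : α → ℕ) :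
    P.card ≤ ((P ×ˢ P).filter (fun q => q.1 ≠ q.2 ∧ s q.1 = s q.2)).card + (P.image s).card := by
  classical
  rcases P.eq_empty_or_nonempty with h | ⟨p0, hp0⟩
  · subst h
    simp
  have hr : ∀ y ∈ P.image s, ∃ p ∈ P, s p = y := by
    intro y hy
    rwa [mem_image] at hy
  have hr' : ∃ r : ℕ → α, ∀ p ∈ P, r (s p) ∈ P ∧ s (r (s p)) = s p := by
    refine ⟨fun y => if h : y ∈ P.image s then (hr y h).choose else p0, ?_⟩
    intro p hp
    have hy : s p ∈ P.image s := mem_image_of_mem _ hp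
    simp only [hy, dif_pos]
    exact (hr (s p) hy).choose_spec
  obtain ⟨r, hr1⟩ := hr'
  have h1 : (P.filter (fun p => r (s p) = p)).card ≤ (P.image s).card := by
    apply card_le_card_of_injOn s
    · intro p hp
      rw [mem_coe, mem_filter] at hp
      rw [mem_coe]
      exact mem_image_of_mem _ hp.1
    · intro p hp q hq h
      rw [mem_coe, mem_filter] at hp hq
      rw [← hp.2, ← hq.2, h]
  have h2 : (P.filter (fun p => ¬ r (s p) = p)).card ≤
      ((P ×ˢ P).filter (fun q => q.1 ≠ q.2 ∧ s q.1 = s q.2)).card := by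
    apply card_le_card_of_injOn (fun p => (p, r (s p)))
    · intro p hp
      rw [mem_coe, mem_filter] at hp
      rw [mem_coe, mem_filter, mem_product]
      exact ⟨⟨hp.1, (hr1 p hp.1).1⟩, fun h => hp.2 h.symm, (hr1 p hp.1).2.symm⟩
    · intro p _ q _ h
      simp only [Prod.mk.injEq] at h
      exact h.1
  have h3 := card_filter_add_card_filter_not (s := P) (fun p => r (s p) = p)
  omega

/-- ordered pairs of distinct points of a line in a common cell -/
def ST_S (A : Finset ℤ) (m : ℕ) (l : ℚ × ℚ) : Finset ((ℤ × ℤ) × (ℤ × ℤ)) :=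
  (ST_P A l ×ˢ ST_P A l).filter (fun q => q.1 ≠ q.2 ∧
    (ST_b A m q.1.1 = ST_b A m q.2.1 ∧ ST_b A m q.1.2 = ST_b A m q.2.2))

lemma ST_line_lt (A : Finset ℤ) (l : ℚ × ℚ) (hl : 0 < l.1) {p q : ℤ × ℤ} (hp : p ∈ ST_P A l)
    (hq : q ∈ ST_P A l) (h : p.2 ≤ q.2) : p.1 ≤ q.1 := by
  unfold ST_P at hp hq
  rw [mem_filter] at hp hq
  have h1 : (p.2 : ℚ) ≤ q.2 := by exact_mod_cast h
  have h2 : (p.1 : ℚ) ≤ q.1 := by nlinarith [hp.2, hq.2, mul_le_mul_of_nonneg_left h1 hl.le]
  exact_mod_cast h2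

lemma ST_lower (A : Finset ℤ) (m : ℕ) (l : ℚ × ℚ) (hl : 0 < l.1) :
    (ST_P A l).card ≤ (ST_S A m l).card + (2 * ((A.card - 1) / m) + 1) := by
  have h1 := ST_fib (ST_P A l) (fun p => ST_b A m p.1 + ST_b A m p.2)
  have h2 : ((ST_P A l ×ˢ ST_P A l).filter (fun q => q.1 ≠ q.2 ∧
      ST_b A m q.1.1 + ST_b A m q.1.2 = ST_b A m q.2.1 + ST_b A m q.2.2)).card ≤
      (ST_S A m l).card := by
    apply card_le_card
    intro q hq
    unfold ST_S
    rw [mem_filter, mem_product] at hq ⊢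
    refine ⟨hq.1, hq.2.1, ?_⟩
    have h3 := hq.2.2
    rcases le_total q.1.2 q.2.2 with h4 | h4
    · have h5 := ST_line_lt A l hl hq.1.1 hq.1.2 h4
      have h6 := ST_b_mono A m h4
      have h7 := ST_b_mono A m h5
      omega
    · have h5 := ST_line_lt A l hl hq.1.2 hq.1.1 h4
      have h6 := ST_b_mono A m h4
      have h7 := ST_b_mono A m h5
      omega
  have h3 : ((ST_P A l).image (fun p => ST_b A m p.1 + ST_b A m p.2)).card ≤
      2 * ((A.card - 1) / m) + 1 := by
    have h4 : ((ST_P A l).image (fun p => ST_b A m p.1 + ST_b A m p.2)) ⊆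
        Finset.range (2 * ((A.card - 1) / m) + 1) := by
      intro y hy
      rw [mem_image] at hy
      obtain ⟨p, hp, rfl⟩ := hy
      unfold ST_P at hp
      rw [mem_filter, mem_product] at hp
      rw [Finset.mem_range]
      have h5 : ST_b A m p.1 ≤ (A.card - 1) / m := Nat.div_le_div_right (ST_i_le A hp.1.1)
      have h6 : ST_b A m p.2 ≤ (A.card - 1) / m := Nat.div_le_div_right (ST_i_le A hp.1.2)
      omega
    have h7 := card_le_card h4
    rwa [card_range] at h7
  have h8 : (ST_P A l).card ≤ (ST_S A m l).card +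
      ((ST_P A l).image (fun p => ST_b A m p.1 + ST_b A m p.2)).card :=
    h1.trans (Nat.add_le_add_right h2 _)
  omega

lemma ST_disj (A : Finset ℤ) (m : ℕ) {l l' : ℚ × ℚ} (h : l ≠ l') :
    Disjoint (ST_S A m l) (ST_S A m l') := by
  rw [Finset.disjoint_left]
  intro q hq hq'
  apply h
  unfold ST_S ST_P at hq hq'
  simp only [mem_filter, mem_product] at hq hq'
  obtain ⟨⟨⟨_, h1⟩, ⟨_, h2⟩⟩, h3, _⟩ := hq
  obtain ⟨⟨⟨_, h4⟩, ⟨_, h5⟩⟩, _, _⟩ := hq'
  have h6 : (q.1.2 : ℚ) ≠ q.2.2 := by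
    intro h7
    apply h3
    have h8 : (q.1.1 : ℚ) = q.2.1 := by
      rw [h7] at h1
      linarith
    ext
    · exact_mod_cast h8
    · exact_mod_cast h7
  have h9 : (l.1 - l'.1) * ((q.1.2 : ℚ) - q.2.2) = 0 := by
    linear_combination h2 - h1 - h5 + h4
  have h10 : l.1 = l'.1 := by
    rcases mul_eq_zero.mp h9 with h11 | h11
    · linarith
    · exact absurd (by linarith) h6
  ext
  · exact h10
  · rw [← h1, ← h4, h10]

lemma ST_main (A : Finset ℤ) (k m : ℕ) (L : Finset (ℚ × ℚ)) (hm : 0 < m)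
    (hL : ∀ l ∈ L, 0 < l.1 ∧ k ≤ pl A l.1 l.2) :
    L.card * (k - (2 * ((A.card - 1) / m) + 1)) ≤ (A.card * m) * (A.card * m) := by
  classical
  have h1 : L.card * (k - (2 * ((A.card - 1) / m) + 1)) ≤ (L.biUnion (ST_S A m)).card := by
    rw [card_biUnion]
    · have h2 : ∀ l ∈ L, (k - (2 * ((A.card - 1) / m) + 1)) ≤ (ST_S A m l).card := by
        intro l hl
        have h3 := ST_lower A m l (hL l hl).1
        have h4 : k ≤ (ST_P A l).card := (hL l hl).2
        omega
      have h5 := Finset.card_nsmul_le_sum L (fun l => (ST_S A m l).card) _ h2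
      simpa using h5
    · intro l _ l' _ h
      exact ST_disj A m h
  have h2 : (L.biUnion (ST_S A m)) ⊆ ST_Tot A m := by
    intro q hq
    rw [mem_biUnion] at hq
    obtain ⟨l, _, hq⟩ := hq
    unfold ST_S ST_P at hq
    unfold ST_Tot
    simp only [mem_filter, mem_product] at hq ⊢
    tauto
  exact h1.trans ((card_le_card h2).trans (ST_Tot_card A m hm))

lemma ST_le (A : Finset ℤ) (l : ℚ × ℚ) : pl A l.1 l.2 ≤ A.card := by
  unfold pl
  apply card_le_card_of_injOn (fun p => p.2)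
  · intro p hp
    rw [mem_coe, mem_filter, mem_product] at hp
    exact hp.1.2
  · intro p hp q hq h
    rw [mem_coe, mem_filter] at hp hq
    have h1 : (p.2 : ℚ) = q.2 := by exact_mod_cast h
    have h2 : (p.1 : ℚ) = q.1 := by
      have h3 := hp.2
      have h4 := hq.2
      rw [h1] at h3
      linarith
    ext
    · exact_mod_cast h2
    · exact h

theorem t_ST : S_ST := by
  refine ⟨162, by norm_num, ?_⟩
  intro A k L hk hL
  rcases L.eq_empty_or_nonempty with h | ⟨l0, hl0⟩
  · subst h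
    simp only [card_empty, Nat.cast_zero, zero_mul]
    positivity
  have hkN : k ≤ A.card := (hL l0 hl0).2.trans (ST_le A l0)
  have hN : 0 < A.card := by omega
  have hkR : (0 : ℝ) < k := by
    have : (0 : ℕ) < k := by omega
    exact_mod_cast this
  have hNR : (0 : ℝ) < A.card := by exact_mod_cast hN
  have hkNR : (k : ℝ) ≤ A.card := by exact_mod_cast hkN
  rcases lt_or_ge k 4 with h4 | h4
  · have h1 := ST_main A k A.card L hN hL
    have h2 : (A.card - 1) / A.card = 0 := Nat.div_eq_of_lt (by omega)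
    rw [h2] at h1
    have h3 : L.card * 1 ≤ L.card * (k - (2 * 0 + 1)) := Nat.mul_le_mul_left _ (by omega)
    have h5 : L.card ≤ (A.card * A.card) * (A.card * A.card) := by
      have := h3.trans h1
      simpa using this
    have h6 : (L.card : ℝ) ≤ (A.card : ℝ) ^ 4 := by
      have : (L.card : ℝ) ≤ ((A.card : ℝ) * A.card) * (A.card * A.card) := by exact_mod_cast h5
      calc (L.card : ℝ) ≤ ((A.card : ℝ) * A.card) * (A.card * A.card) := this
        _ = (A.card : ℝ) ^ 4 := by ring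
    have h7 : (k : ℝ) ≤ 3 := by
      have : k ≤ 3 := by omega
      exact_mod_cast this
    have h8 : (k : ℝ) ^ 3 ≤ 3 ^ 3 := pow_le_pow_left₀ hkR.le h7 3
    calc (L.card : ℝ) * (k : ℝ) ^ 3 ≤ (A.card : ℝ) ^ 4 * 3 ^ 3 := by
          apply mul_le_mul h6 h8 (by positivity) (by positivity)
      _ ≤ 162 * (A.card : ℝ) ^ 4 := by
          have : (0 : ℝ) ≤ (A.card : ℝ) ^ 4 := by positivity
          nlinarith
  · set m : ℕ := 8 * A.card / k + 1 with hm
    have hm0 : 0 < m := Nat.succ_pos _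
    have h1 := ST_main A k m L hm0 hL
    have hk0 : 0 < k := by omega
    have h2 : 4 * ((A.card - 1) / m) * 2 ≤ k := by
      have h3 : (A.card - 1) / m * m ≤ A.card - 1 := Nat.div_mul_le_self _ _
      have h5 : 8 * A.card < k * m := by
        rw [hm]
        have := Nat.lt_mul_div_succ (8 * A.card) hk0
        simpa using this
      by_contra hcon
      push Not at hcon
      have h6 : (k + 1) * m ≤ 8 * ((A.card - 1) / m) * m := Nat.mul_le_mul_right _ (by omega)
      have h7 : 8 * ((A.card - 1) / m) * m = 8 * ((A.card - 1) / m * m) := by ring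
      rw [h7] at h6
      have h8 : k * m ≤ (k + 1) * m := Nat.mul_le_mul_right _ (by omega)
      omega
    have h3 : k ≤ 2 * (k - (2 * ((A.card - 1) / m) + 1)) := by omega
    have h5 : L.card * k ≤ 2 * ((A.card * m) * (A.card * m)) := by
      calc L.card * k ≤ L.card * (2 * (k - (2 * ((A.card - 1) / m) + 1))) :=
            Nat.mul_le_mul_left _ h3
        _ = 2 * (L.card * (k - (2 * ((A.card - 1) / m) + 1))) := by ring
        _ ≤ 2 * ((A.card * m) * (A.card * m)) := Nat.mul_le_mul_left _ h1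
    have h6 : m * k ≤ 9 * A.card := by
      rw [hm]
      have := Nat.div_mul_le_self (8 * A.card) k
      nlinarith
    have h7 : (L.card : ℝ) * k ≤ 2 * ((A.card * m) * (A.card * m)) := by exact_mod_cast h5
    have h8 : (m : ℝ) * k ≤ 9 * A.card := by exact_mod_cast h6
    have h9 : ((m : ℝ) * k) ^ 2 ≤ (9 * A.card) ^ 2 := pow_le_pow_left₀ (by positivity) h8 2
    calc (L.card : ℝ) * (k : ℝ) ^ 3 = ((L.card : ℝ) * k) * k ^ 2 := by ring
      _ ≤ (2 * (((A.card : ℝ) * m) * ((A.card : ℝ) * m))) * (k : ℝ) ^ 2 := by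
          apply mul_le_mul_of_nonneg_right h7 (by positivity)
      _ = 2 * (A.card : ℝ) ^ 2 * (((m : ℝ) * k) ^ 2) := by ring
      _ ≤ 2 * (A.card : ℝ) ^ 2 * ((9 * A.card) ^ 2) := by
          apply mul_le_mul_of_nonneg_left h9 (by positivity)
      _ = 162 * (A.card : ℝ) ^ 4 := by ring

end Pool.Agent.H505R5.PC
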