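import Pool.Agent.H505R5.PC.Defs

/-! VH: truncated second moment bound. -/

set_option autoImplicit false

open MeasureTheory Finset Filter Topology
open scoped BigOperators ENNReal

namespace Pool.Agent.H505R5.PC

/-! ### Finite combinations of indicators -/

lemma VH_integrable {Ω : Type*} [MeasurableSpace Ω] (μ : Measure Ω) [IsFiniteMeasure μ]
    {A : Set Ω} (hA : MeasurableSet A) : Integrable (A.indicator (fun _ => (1 : ℝ))) μ :=
  (integrable_const (1 : ℝ)).indicator hA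

lemma VH_integral {Ω : Type*} [MeasurableSpace Ω] (μ : Measure Ω)
    {A : Set Ω} (hA : MeasurableSet A) : ∫ α, A.indicator (fun _ => (1 : ℝ)) α ∂μ = μ.real A := by
  rw [integral_indicator hA, setIntegral_const, smul_eq_mul, mul_one]

lemma VH_int1 {Ω : Type*} [MeasurableSpace Ω] (μ : Measure Ω) [IsFiniteMeasure μ]
    (D : Finset ℤ) (ρ : ℤ → ℝ) (A : ℤ → Set Ω) (hA : ∀ v, MeasurableSet (A v)) :
    Integrable (fun α => ∑ v ∈ D, ρ v * (A v).indicator (fun _ => (1 : ℝ)) α) μ ∧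
    ∫ α, ∑ v ∈ D, ρ v * (A v).indicator (fun _ => (1 : ℝ)) α ∂μ = ∑ v ∈ D, ρ v * μ.real (A v) := by
  have h : ∀ v ∈ D, Integrable (fun α => ρ v * (A v).indicator (fun _ => (1 : ℝ)) α) μ :=
    fun v _ => (VH_integrable μ (hA v)).const_mul _
  refine ⟨integrable_finsetSum _ h, ?_⟩
  rw [integral_finsetSum _ h]
  refine Finset.sum_congr rfl fun v _ => ?_
  rw [integral_const_mul, VH_integral μ (hA v)]

lemma VH_sq {Ω : Type*} (D : Finset ℤ) (ρ : ℤ → ℝ) (A : ℤ → Set Ω) (α : Ω) :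
    (∑ v ∈ D, ρ v * (A v).indicator (fun _ => (1 : ℝ)) α) ^ 2 =
      ∑ v ∈ D, ∑ w ∈ D, (ρ v * ρ w) * (A v ∩ A w).indicator (fun _ => (1 : ℝ)) α := by
  rw [sq, Finset.sum_mul_sum]
  refine Finset.sum_congr rfl fun v _ => Finset.sum_congr rfl fun w _ => ?_
  by_cases h1 : α ∈ A v <;> by_cases h2 : α ∈ A w <;> simp [Set.indicator, h1, h2]

lemma VH_int2 {Ω : Type*} [MeasurableSpace Ω] (μ : Measure Ω) [IsProbabilityMeasure μ]
    (D : Finset ℤ) (ρ : ℤ → ℝ) (A : ℤ → Set Ω) (hA : ∀ v, MeasurableSet (A v)) (c : ℝ) :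
    Integrable (fun α => (∑ v ∈ D, ρ v * (A v).indicator (fun _ => (1 : ℝ)) α - c) ^ 2) μ ∧
    ∫ α, (∑ v ∈ D, ρ v * (A v).indicator (fun _ => (1 : ℝ)) α - c) ^ 2 ∂μ =
      ∑ v ∈ D, ∑ w ∈ D, (ρ v * ρ w) * μ.real (A v ∩ A w) -
        2 * c * ∑ v ∈ D, ρ v * μ.real (A v) + c ^ 2 := by
  have h1 := VH_int1 μ D ρ A hA
  have h2 : ∀ v ∈ D, Integrable (fun α => ∑ w ∈ D, (ρ v * ρ w) *
      (A v ∩ A w).indicator (fun _ => (1 : ℝ)) α) μ := fun v _ =>
    integrable_finsetSum _ fun w _ => (VH_integrable μ ((hA v).inter (hA w))).const_mul _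
  have h3 : Integrable (fun α => ∑ v ∈ D, ∑ w ∈ D, (ρ v * ρ w) *
      (A v ∩ A w).indicator (fun _ => (1 : ℝ)) α) μ := integrable_finsetSum _ h2
  have e : (fun α => (∑ v ∈ D, ρ v * (A v).indicator (fun _ => (1 : ℝ)) α - c) ^ 2) =
      fun α => (∑ v ∈ D, ∑ w ∈ D, (ρ v * ρ w) * (A v ∩ A w).indicator (fun _ => (1 : ℝ)) α) -
        2 * c * (∑ v ∈ D, ρ v * (A v).indicator (fun _ => (1 : ℝ)) α) + c ^ 2 := by
    funext α
    rw [← VH_sq D ρ A α]
    ring
  rw [e]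
  have h4 : Integrable (fun α => 2 * c * (∑ v ∈ D, ρ v * (A v).indicator (fun _ => (1 : ℝ)) α)) μ :=
    h1.1.const_mul _
  have h5 : Integrable (fun α => (∑ v ∈ D, ∑ w ∈ D, (ρ v * ρ w) *
      (A v ∩ A w).indicator (fun _ => (1 : ℝ)) α) -
        2 * c * (∑ v ∈ D, ρ v * (A v).indicator (fun _ => (1 : ℝ)) α)) μ := h3.sub h4
  refine ⟨h5.add (integrable_const _), ?_⟩
  rw [integral_add h5 (integrable_const _), integral_sub h3 h4, integral_const_mul, h1.2,
    integral_finsetSum _ h2, integral_const, probReal_univ, one_smul]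
  congr 2
  refine Finset.sum_congr rfl fun v _ => ?_
  rw [integral_finsetSum _ fun w _ => (VH_integrable μ ((hA v).inter (hA w))).const_mul _]
  refine Finset.sum_congr rfl fun w _ => ?_
  rw [integral_const_mul, VH_integral μ ((hA v).inter (hA w))]

/-- the union bound and the inequalities of Markov and Chebyshev -/
lemma VH_prob {Ω : Type*} [MeasurableSpace Ω] (μ : Measure Ω) [IsProbabilityMeasure μ]
    (D : Finset ℤ) (ρ : ℤ → ℝ) (hρ : ∀ v, 0 ≤ ρ v) (S B : ℤ → Set Ω) (hS : ∀ v, MeasurableSet (S v))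
    (hB : ∀ v, MeasurableSet (B v)) (m a : ℝ) (ha : 0 < a) :
    μ.real {α | a < |∑ v ∈ D, ρ v * (S v).indicator (fun _ => (1 : ℝ)) α - m|} ≤
      (∑ v ∈ D, ρ v * μ.real (S v ∩ B v)) / (a / 3) +
      (∑ v ∈ D, ∑ w ∈ D, (ρ v * ρ w) * μ.real ((S v \ B v) ∩ (S w \ B w)) -
        2 * m * ∑ v ∈ D, ρ v * μ.real (S v \ B v) + m ^ 2) / (a / 3) ^ 2 := by
  have ha3 : 0 < a / 3 := by positivity
  have h1 := VH_int1 μ D ρ (fun v => S v ∩ B v) fun v => (hS v).inter (hB v)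
  have h2 := VH_int2 μ D ρ (fun v => S v \ B v) (fun v => (hS v).diff (hB v)) m
  have hsum : ∀ α, ∑ v ∈ D, ρ v * (S v).indicator (fun _ => (1 : ℝ)) α =
      ∑ v ∈ D, ρ v * (S v ∩ B v).indicator (fun _ => (1 : ℝ)) α +
      ∑ v ∈ D, ρ v * (S v \ B v).indicator (fun _ => (1 : ℝ)) α := by
    intro α
    rw [← Finset.sum_add_distrib]
    refine Finset.sum_congr rfl fun v _ => ?_
    by_cases h1 : α ∈ S v <;> by_cases h2 : α ∈ B v <;> simp [Set.indicator, h1, h2]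
  have hsub : {α | a < |∑ v ∈ D, ρ v * (S v).indicator (fun _ => (1 : ℝ)) α - m|} ⊆
      {α | a / 3 ≤ ∑ v ∈ D, ρ v * (S v ∩ B v).indicator (fun _ => (1 : ℝ)) α} ∪
      {α | (a / 3) ^ 2 ≤ (∑ v ∈ D, ρ v * (S v \ B v).indicator (fun _ => (1 : ℝ)) α - m) ^ 2} := by
    intro α hα
    rw [Set.mem_ofPred_eq, hsum α] at hα
    rw [Set.mem_union, Set.mem_ofPred_eq, Set.mem_ofPred_eq]
    by_contra hcon
    push Not at hcon
    obtain ⟨c1, c2⟩ := hcon
    have c3 := abs_lt_of_sq_lt_sq c2 ha3.le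
    have hpos : 0 ≤ ∑ v ∈ D, ρ v * (S v ∩ B v).indicator (fun _ => (1 : ℝ)) α :=
      Finset.sum_nonneg fun v _ => mul_nonneg (hρ v) (Set.indicator_nonneg (fun _ _ => zero_le_one) _)
    rw [abs_lt] at c3
    rw [lt_abs] at hα
    rcases hα with h | h <;> linarith [c3.1, c3.2]
  refine le_trans (measureReal_mono hsub) (le_trans (measureReal_union_le _ _) ?_)
  refine add_le_add ?_ ?_
  · rw [le_div_iff₀' ha3, ← h1.2]
    exact mul_meas_ge_le_integral_of_nonneg (Filter.Eventually.of_forall fun α =>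
      Finset.sum_nonneg fun v _ => mul_nonneg (hρ v)
        (Set.indicator_nonneg (fun _ _ => zero_le_one) _)) h1.1 _
  · rw [le_div_iff₀' (by positivity), ← h2.2]
    exact mul_meas_ge_le_integral_of_nonneg (Filter.Eventually.of_forall fun α => sq_nonneg _) h2.1 _

/-! ### The sets -/

/-- `‖v α‖ < η` -/
def VH_S (η : ℝ) (v : ℤ) : Set T := {α | ‖v • α‖ < η}

/-- coincidences -/
def VH_Co (η : ℝ) (v w : ℤ) : Set T := {α | ‖(Int.gcd v w : ℤ) • α‖ < η / ht v w}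

/-- the union of the coincidences of height between `K` and `H` -/
def VH_B (D : Finset ℤ) (K H : ℕ) (η : ℝ) (v : ℤ) : Set T :=
  ⋃ w ∈ D.filter (fun w => K < ht v w ∧ ht v w ≤ H), VH_Co η v w

lemma VH_S_meas (η : ℝ) (v : ℤ) : MeasurableSet (VH_S η v) :=
  (isOpen_lt ((continuous_zsmul v).norm) continuous_const).measurableSet

lemma VH_Co_eq (η : ℝ) (v w : ℤ) : VH_Co η v w = VH_S (η / ht v w) (Int.gcd v w : ℤ) := rfl

lemma VH_Co_meas (η : ℝ) (v w : ℤ) : MeasurableSet (VH_Co η v w) := VH_S_meas _ _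

lemma VH_B_meas (D : Finset ℤ) (K H : ℕ) (η : ℝ) (v : ℤ) : MeasurableSet (VH_B D K H η v) :=
  Finset.measurableSet_biUnion _ fun w _ => VH_Co_meas η v w

lemma VH_ind (η : ℝ) (v : ℤ) (α : T) : ind η v α = (VH_S η v).indicator (fun _ => (1 : ℝ)) α := by
  unfold ind VH_S Set.indicator
  rfl

lemma VH_ht_pos {v w : ℤ} (hv : v ≠ 0) : 1 ≤ ht v w := by
  unfold ht
  have h1 : Int.gcd v w ∣ v.natAbs := Int.natAbs_dvd_natAbs.2 (Int.gcd_dvd_left v w) 
  have hg : 0 < Int.gcd v w := Int.gcd_pos_of_ne_zero_left _ hv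
  refine (Nat.one_le_div_iff hg).2 ?_
  exact le_trans (Nat.le_of_dvd (Int.natAbs_pos.2 hv) h1) (le_max_left _ _)

/-- the pairs -/
lemma VH_pair (h1 : S_M1) (h2 : S_M2) (h3 : S_M3) {D : Finset ℤ} {η : ℝ} {K H : ℕ} (hD : 0 ∉ D)
    (hη : 0 ≤ η) (hη2 : η ≤ 1 / 2) (hH : 1 ≤ H) {v w : ℤ} (hv : v ∈ D) (hw : w ∈ D) :
    (volume : Measure T).real ((VH_S η v \ VH_B D K H η v) ∩ (VH_S η w \ VH_B D K H η w)) ≤
      4 * η ^ 2 + 2 * η * (if ht v w ≤ K then 1 / (ht v w : ℝ) else 0) + 2 * η / H := by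
  have hv0 : v ≠ 0 := fun h => hD (h ▸ hv)
  have hw0 : w ≠ 0 := fun h => hD (h ▸ hw)
  have hH0 : (0 : ℝ) < H := by exact_mod_cast hH
  have hht : (1 : ℝ) ≤ ht v w := by exact_mod_cast VH_ht_pos hv0
  have hHn : 0 ≤ 2 * η / (H : ℝ) := by positivity
  have hM2 := h2 v w η hv0 hw0 hη hη2
  have hsub : (VH_S η v \ VH_B D K H η v) ∩ (VH_S η w \ VH_B D K H η w) ⊆
      {α : T | ‖v • α‖ < η ∧ ‖w • α‖ < η} := fun α hα => ⟨hα.1.1, hα.2.1⟩
  have hle := le_trans (measureReal_mono (μ := (volume : Measure T)) hsub) hM2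
  by_cases hK : ht v w ≤ K
  · rw [if_pos hK, mul_one_div]
    linarith
  · rw [if_neg hK, mul_zero, add_zero]
    push Not at hK
    by_cases hHH : ht v w ≤ H
    · have hsub2 : (VH_S η v \ VH_B D K H η v) ∩ (VH_S η w \ VH_B D K H η w) ⊆
          {α : T | ‖v • α‖ < η ∧ ‖w • α‖ < η} \ VH_Co η v w := by
        intro α hα
        refine ⟨hsub hα, fun hc => hα.1.2 ?_⟩
        unfold VH_B
        rw [Set.mem_iUnion₂]
        exact ⟨w, Finset.mem_filter.2 ⟨hw, hK, hHH⟩, hc⟩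
      have hCo : (volume : Measure T).real (VH_Co η v w) = 2 * (η / ht v w) := by
        refine h1 (Int.gcd v w : ℤ) (η / ht v w) ?_ (by positivity) ?_
        · have := Int.gcd_pos_of_ne_zero_left w hv0
          exact_mod_cast this.ne'
        · refine le_trans (div_le_self hη hht) hη2
      have hd := measureReal_sdiff (μ := (volume : Measure T)) (h3 v w η hv0 hw0 hη)
        (VH_Co_meas η v w)
      have hle2 := measureReal_mono (μ := (volume : Measure T)) hsub2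
      have e : (volume : Measure T).real ({α : T | ‖v • α‖ < η ∧ ‖w • α‖ < η} \ VH_Co η v w) =
          (volume : Measure T).real {α : T | ‖v • α‖ < η ∧ ‖w • α‖ < η} - 2 * (η / ht v w) := by
        rw [← hCo]
        exact hd
      rw [e] at hle2
      have e2 : 2 * η / (ht v w : ℝ) = 2 * (η / ht v w) := by ring
      linarith
    · push Not at hHH
      have : 2 * η / (ht v w : ℝ) ≤ 2 * η / H :=
        div_le_div_of_nonneg_left (by positivity) hH0 (by exact_mod_cast hHH.le)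
      linarith

/-- the deleted part -/
lemma VH_del (h1 : S_M1) {D : Finset ℤ} {η r : ℝ} {K H : ℕ} (hD : 0 ∉ D)
    (hη : 0 ≤ η) (hη2 : η ≤ 1 / 2) (hK : 1 ≤ K) {v : ℤ} (hv : v ∈ D)
    (hr : ∑ q ∈ (D.filter (fun w => ht v w ≤ H)).image (qn v), (1 : ℝ) / max q K ≤ r) :
    (volume : Measure T).real (VH_S η v ∩ VH_B D K H η v) ≤ 2 * η * r := by
  have hv0 : v ≠ 0 := fun h => hD (h ▸ hv)
  have hsub : VH_S η v ∩ VH_B D K H η v ⊆
      ⋃ q ∈ (D.filter (fun w => ht v w ≤ H)).image (qn v),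
        VH_S (η / (max q K : ℕ)) ((v.natAbs / q : ℕ) : ℤ) := by
    rintro α ⟨-, hα⟩
    unfold VH_B at hα
    rw [Set.mem_iUnion₂] at hα
    obtain ⟨w, hw, hα⟩ := hα
    rw [Finset.mem_filter] at hw
    rw [Set.mem_iUnion₂]
    refine ⟨qn v w, Finset.mem_image_of_mem _ (Finset.mem_filter.2 ⟨hw.1, hw.2.2⟩), ?_⟩
    have hg : Int.gcd v w ∣ v.natAbs := Int.natAbs_dvd_natAbs.2 (Int.gcd_dvd_left v w)
    have e : v.natAbs / qn v w = Int.gcd v w :=
      Nat.div_div_self hg (Int.natAbs_ne_zero.2 hv0)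
    have hq : qn v w ≤ ht v w := Nat.div_le_div_right (le_max_left _ _)
    have hmax : max (qn v w) K ≤ ht v w := max_le hq hw.2.1.le
    have hmax0 : 0 < max (qn v w) K := lt_of_lt_of_le hK (le_max_right _ _)
    unfold VH_S
    rw [Set.mem_ofPred_eq, e]
    refine lt_of_lt_of_le hα ?_
    exact div_le_div_of_nonneg_left hη (by exact_mod_cast hmax0) (by exact_mod_cast hmax)
  refine le_trans (measureReal_mono hsub (measure_ne_top _ _))
    (le_trans (measureReal_biUnion_finset_le _ _) ?_)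
  calc ∑ q ∈ (D.filter (fun w => ht v w ≤ H)).image (qn v),
        (volume : Measure T).real (VH_S (η / (max q K : ℕ)) ((v.natAbs / q : ℕ) : ℤ))
      = ∑ q ∈ (D.filter (fun w => ht v w ≤ H)).image (qn v), 2 * η * ((1 : ℝ) / max q K) := by
        refine Finset.sum_congr rfl fun q hq => ?_
        obtain ⟨w, -, rfl⟩ := Finset.mem_image.1 hq
        have hg : Int.gcd v w ∣ v.natAbs := Int.natAbs_dvd_natAbs.2 (Int.gcd_dvd_left v w)
        have e : v.natAbs / qn v w = Int.gcd v w :=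
          Nat.div_div_self hg (Int.natAbs_ne_zero.2 hv0)
        have hmax0 : 1 ≤ max (qn v w) K := le_trans hK (le_max_right _ _)
        have hmax1 : (1 : ℝ) ≤ (max (qn v w) K : ℕ) := by exact_mod_cast hmax0
        have := h1 ((v.natAbs / qn v w : ℕ) : ℤ) (η / (max (qn v w) K : ℕ)) (by
          rw [e]
          exact_mod_cast (Int.gcd_pos_of_ne_zero_left w hv0).ne') (by positivity)
          (le_trans (div_le_self hη hmax1) hη2)
        unfold VH_S
        rw [this, Nat.cast_max]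
        ring
    _ = 2 * η * ∑ q ∈ (D.filter (fun w => ht v w ≤ H)).image (qn v), (1 : ℝ) / max q K := by
        rw [Finset.mul_sum]
    _ ≤ 2 * η * r := mul_le_mul_of_nonneg_left hr (by positivity)

theorem t_VH (h1 : S_M1) (h2 : S_M2) (h3 : S_M3) : S_VH := by
  intro D ρ η a r K H hD hρ hη hη2 ha hK hKH hr0 hr1 hr
  have : IsProbabilityMeasure (volume : Measure T) := ⟨UnitAddCircle.measure_univ⟩
  have hH : 1 ≤ H := le_trans hK hKH
  have hH0 : (0 : ℝ) < H := by exact_mod_cast hH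
  set σ := ∑ v ∈ D, ρ v with hσ
  have hσ0 : 0 ≤ σ := Finset.sum_nonneg fun v _ => hρ v
  have hset : {α : T | a < |∑ v ∈ D, ρ v * (ind η v α - 2 * η)|} =
      {α | a < |∑ v ∈ D, ρ v * (VH_S η v).indicator (fun _ => (1 : ℝ)) α - 2 * η * σ|} := by
    ext α
    rw [Set.mem_ofPred_eq, Set.mem_ofPred_eq]
    have : ∑ v ∈ D, ρ v * (ind η v α - 2 * η) =
        ∑ v ∈ D, ρ v * (VH_S η v).indicator (fun _ => (1 : ℝ)) α - 2 * η * σ := by
      rw [hσ, Finset.mul_sum, ← Finset.sum_sub_distrib]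
      refine Finset.sum_congr rfl fun v _ => ?_
      rw [VH_ind]
      ring
    rw [this]
  rw [hset]
  have hmain := VH_prob (volume : Measure T) D ρ hρ (VH_S η) (VH_B D K H η) (VH_S_meas η)
    (VH_B_meas D K H η) (2 * η * σ) a ha
  refine le_trans hmain ?_
  have hdel : ∑ v ∈ D, ρ v * (volume : Measure T).real (VH_S η v ∩ VH_B D K H η v) ≤
      2 * η * r * σ := by
    rw [hσ, Finset.mul_sum]
    refine Finset.sum_le_sum fun v hv => ?_
    rw [mul_comm (2 * η * r)]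
    exact mul_le_mul_of_nonneg_left (VH_del h1 hD hη hη2 hK hv (hr v hv)) (hρ v)
  have hmean : 2 * η * σ - 2 * η * r * σ ≤
      ∑ v ∈ D, ρ v * (volume : Measure T).real (VH_S η v \ VH_B D K H η v) := by
    have e : ∑ v ∈ D, ρ v * (volume : Measure T).real (VH_S η v \ VH_B D K H η v) +
        ∑ v ∈ D, ρ v * (volume : Measure T).real (VH_S η v ∩ VH_B D K H η v) = 2 * η * σ := by
      rw [← Finset.sum_add_distrib, hσ, Finset.mul_sum]
      refine Finset.sum_congr rfl fun v hv => ?_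
      have hv0 : v ≠ 0 := fun h => hD (h ▸ hv)
      rw [← mul_add, measureReal_sdiff_add_inter (VH_B_meas D K H η v)]
      have := h1 v η hv0 hη hη2
      unfold VH_S
      rw [this]
      ring
    linarith
  have hpairs : ∑ v ∈ D, ∑ w ∈ D, (ρ v * ρ w) * (volume : Measure T).real
      ((VH_S η v \ VH_B D K H η v) ∩ (VH_S η w \ VH_B D K H η w)) ≤
      4 * η ^ 2 * σ ^ 2 + 2 * η * G D ρ K + 2 * η * σ ^ 2 / H := by
    have e : 4 * η ^ 2 * σ ^ 2 + 2 * η * G D ρ K + 2 * η * σ ^ 2 / H =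
        ∑ v ∈ D, ∑ w ∈ D, (ρ v * ρ w) *
        (4 * η ^ 2 + 2 * η * (if ht v w ≤ K then 1 / (ht v w : ℝ) else 0) + 2 * η / H) := by
      have e1 : σ ^ 2 = ∑ v ∈ D, ∑ w ∈ D, ρ v * ρ w := by
        rw [hσ, sq, Finset.sum_mul_sum]
      have e2 : 2 * η * σ ^ 2 / H = (2 * η / H) * σ ^ 2 := by ring
      rw [e2, e1]
      unfold G
      simp only [Finset.mul_sum, ← Finset.sum_add_distrib]
      refine Finset.sum_congr rfl fun v _ => Finset.sum_congr rfl fun w _ => ?_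
      split_ifs <;> ring
    rw [e]
    refine Finset.sum_le_sum fun v hv => Finset.sum_le_sum fun w hw => ?_
    exact mul_le_mul_of_nonneg_left (VH_pair h1 h2 h3 hD hη hη2 hH hv hw)
      (mul_nonneg (hρ v) (hρ w))
  have hm0 : 0 ≤ 2 * (2 * η * σ) := by positivity
  have hnum : ∑ v ∈ D, ∑ w ∈ D, (ρ v * ρ w) * (volume : Measure T).real
      ((VH_S η v \ VH_B D K H η v) ∩ (VH_S η w \ VH_B D K H η w)) -
      2 * (2 * η * σ) * ∑ v ∈ D, ρ v * (volume : Measure T).real (VH_S η v \ VH_B D K H η v) +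
      (2 * η * σ) ^ 2 ≤
      8 * η ^ 2 * σ ^ 2 * r + 2 * η * G D ρ K + 2 * η * σ ^ 2 / H := by
    have := mul_le_mul_of_nonneg_left hmean hm0
    nlinarith [this, hpairs]
  have hA : (∑ v ∈ D, ρ v * (volume : Measure T).real (VH_S η v ∩ VH_B D K H η v)) / (a / 3) ≤
      12 * η * σ * r / a := by
    refine le_trans (div_le_div_of_nonneg_right hdel (by positivity)) ?_
    have : 2 * η * r * σ / (a / 3) = 6 * η * σ * r / a := by
      field_simp
      ring
    rw [this]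
    refine div_le_div_of_nonneg_right ?_ ha.le
    have : 0 ≤ η * σ * r := by positivity
    nlinarith
  have hB := div_le_div_of_nonneg_right hnum (by positivity : 0 ≤ (a / 3) ^ 2)
  have hC : (8 * η ^ 2 * σ ^ 2 * r + 2 * η * G D ρ K + 2 * η * σ ^ 2 / H) / (a / 3) ^ 2 =
      9 / a ^ 2 * (8 * η ^ 2 * σ ^ 2 * r + 2 * η * G D ρ K + 2 * η * σ ^ 2 / H) := by
    field_simp
    ring
  rw [hC] at hB
  linarith

end Pool.Agent.H505R5.PC
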