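import Pool.Agent.H505R5.PC.Defs

set_option autoImplicit false

open MeasureTheory Finset Filter Topology
open scoped BigOperators ENNReal

namespace Pool.Agent.H505R5.PC

theorem VL_meas (v : ℤ) (η : ℝ) : MeasurableSet {α : T | ‖v • α‖ < η} := by
  apply measurableSet_lt
  · exact (continuous_norm.comp (continuous_zsmul v)).measurable
  · exact measurable_const

theorem VL_ind_eq (v : ℤ) (η : ℝ) : ind η v = Set.indicator {α : T | ‖v • α‖ < η} (fun _ => (1:ℝ)) := by
  ext α
  simp [ind, Set.indicator]

theorem VL_ind_meas (v : ℤ) (η : ℝ) : Measurable (ind η v) := by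
  rw [VL_ind_eq]
  exact measurable_const.indicator (VL_meas v η)

theorem VL_ind_mul (v w : ℤ) (η : ℝ) : (fun α : T => ind η v α * ind η w α) =
    Set.indicator {α : T | ‖v • α‖ < η ∧ ‖w • α‖ < η} (fun _ => (1:ℝ)) := by
  ext α
  simp only [ind, Set.indicator, Set.mem_ofPred_eq]
  by_cases h1 : ‖v • α‖ < η <;> by_cases h2 : ‖w • α‖ < η <;> simp [h1, h2]

theorem VL_int_ind (v : ℤ) (η : ℝ) : ∫ α : T, ind η v α = (volume : Measure T).real {α | ‖v • α‖ < η} := by
  rw [VL_ind_eq, integral_indicator (VL_meas v η)]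
  simp

theorem VL_int_mul (v w : ℤ) (η : ℝ) : ∫ α : T, ind η v α * ind η w α =
    (volume : Measure T).real {α | ‖v • α‖ < η ∧ ‖w • α‖ < η} := by
  rw [VL_ind_mul, integral_indicator]
  · simp
  · exact (VL_meas v η).inter (VL_meas w η)

theorem VL_ind_bd (v : ℤ) (η : ℝ) (α : T) : |ind η v α| ≤ 1 := by
  unfold ind; split_ifs <;> simp

theorem VL_integrable (v : ℤ) (η : ℝ) : Integrable (ind η v) (volume : Measure T) := by
  refine Integrable.of_bound (VL_ind_meas v η).aestronglyMeasurable 1 ?_
  exact Filter.Eventually.of_forall (fun α => by simpa using VL_ind_bd v η α)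

theorem VL_integrable_mul (v w : ℤ) (η : ℝ) :
    Integrable (fun α : T => ind η v α * ind η w α) (volume : Measure T) := by
  refine Integrable.of_bound ((VL_ind_meas v η).mul (VL_ind_meas w η)).aestronglyMeasurable 1 ?_
  refine Filter.Eventually.of_forall (fun α => ?_)
  rw [Real.norm_eq_abs, abs_mul]
  have h1 := VL_ind_bd v η α
  have h2 := VL_ind_bd w η α
  nlinarith [abs_nonneg (ind η v α), abs_nonneg (ind η w α)]

theorem VL_univ : (volume : Measure T).real Set.univ = 1 := by
  simp [Measure.real]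

theorem t_VL (h1 : S_M1) (h2 : S_M2) : S_VL := by
  intro D ρ η a H h0 hρ hη0 hη ha hH
  have hcov : ∀ v ∈ D, ∀ w ∈ D, ∫ α : T, (ind η v α - 2 * η) * (ind η w α - 2 * η) ≤
      2 * η / ht v w := by
    intro v hv w hw
    have hv0 : v ≠ 0 := fun h => h0 (h ▸ hv)
    have hw0 : w ≠ 0 := fun h => h0 (h ▸ hw)
    have e : (fun α : T => (ind η v α - 2 * η) * (ind η w α - 2 * η)) =
        fun α : T => ind η v α * ind η w α - 2 * η * ind η v α - 2 * η * ind η w α + 4 * η ^ 2 := by
      ext α; ring
    have i1 := VL_integrable_mul v w η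
    have i2 := (VL_integrable v η).const_mul (2 * η)
    have i3 := (VL_integrable w η).const_mul (2 * η)
    have i4 : Integrable (fun α : T => ind η v α * ind η w α - 2 * η * ind η v α)
        (volume : Measure T) := i1.sub i2
    have i5 : Integrable (fun α : T => ind η v α * ind η w α - 2 * η * ind η v α -
        2 * η * ind η w α) (volume : Measure T) := i4.sub i3
    rw [e, integral_add i5 (integrable_const _), integral_sub i4 i3,
      integral_sub i1 i2, integral_const_mul, integral_const_mul, VL_int_mul, VL_int_ind, VL_int_ind,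
      h1 v η hv0 hη0 hη, h1 w η hw0 hη0 hη, integral_const, VL_univ]
    have := h2 v w η hv0 hw0 hη0 hη
    simp only [smul_eq_mul]
    linarith
  -- second moment
  set Y : T → ℝ := fun α => ∑ v ∈ D, ρ v * (ind η v α - 2 * η) with hY
  have hYm : Measurable Y := by
    apply Finset.measurable_fun_sum
    intro v _
    exact ((VL_ind_meas v η).sub measurable_const).const_mul _
  have hint : ∀ v w, Integrable (fun α : T => (ρ v * (ind η v α - 2 * η)) *
      (ρ w * (ind η w α - 2 * η))) (volume : Measure T) := by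
    intro v w
    have e : (fun α : T => (ρ v * (ind η v α - 2 * η)) * (ρ w * (ind η w α - 2 * η))) =
        fun α : T => (ρ v * ρ w) * (ind η v α * ind η w α) - (ρ v * ρ w * (2 * η)) * ind η v α -
          (ρ v * ρ w * (2 * η)) * ind η w α + ρ v * ρ w * (4 * η ^ 2) := by
      ext α; ring
    rw [e]
    exact ((((VL_integrable_mul v w η).const_mul _).sub ((VL_integrable v η).const_mul _)).sub
      ((VL_integrable w η).const_mul _)).add (integrable_const _)
  have hsq : (fun α => Y α ^ 2) = fun α => ∑ v ∈ D, ∑ w ∈ D, (ρ v * (ind η v α - 2 * η)) *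
      (ρ w * (ind η w α - 2 * η)) := by
    ext α
    rw [hY, sq, Finset.sum_mul_sum]
  have hYint : Integrable (fun α => Y α ^ 2) (volume : Measure T) := by
    rw [hsq]
    exact integrable_finsetSum _ (fun v _ => integrable_finsetSum _ (fun w _ => hint v w))
  have hEY : ∫ α : T, Y α ^ 2 ≤ 2 * η * G D ρ H + 2 * η * (∑ v ∈ D, ρ v) ^ 2 / H := by
    rw [hsq, integral_finsetSum _ (fun v _ => integrable_finsetSum _ (fun w _ => hint v w))]
    have h3 : ∀ v ∈ D, ∫ α : T, ∑ w ∈ D, (ρ v * (ind η v α - 2 * η)) *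
        (ρ w * (ind η w α - 2 * η)) ≤ ∑ w ∈ D, (2 * η * (if ht v w ≤ H then ρ v * ρ w / (ht v w : ℝ)
          else 0) + 2 * η * (ρ v * ρ w) / H) := by
      intro v hv
      rw [integral_finsetSum _ (fun w _ => hint v w)]
      apply Finset.sum_le_sum
      intro w hw
      have e : (fun α : T => (ρ v * (ind η v α - 2 * η)) * (ρ w * (ind η w α - 2 * η))) =
        fun α : T => (ρ v * ρ w) * ((ind η v α - 2 * η) * (ind η w α - 2 * η)) := by
        ext α; ring
      rw [e, integral_const_mul]
      have hr : 0 ≤ ρ v * ρ w := mul_nonneg (hρ v) (hρ w)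
      refine (mul_le_mul_of_nonneg_left (hcov v hv w hw) hr).trans ?_
      have hHr : (0:ℝ) < H := by exact_mod_cast hH
      split_ifs with hht
      · have : 0 ≤ 2 * η * (ρ v * ρ w) / H := by positivity
        have e2 : ρ v * ρ w * (2 * η / (ht v w : ℝ)) = 2 * η * (ρ v * ρ w / (ht v w : ℝ)) := by ring
        rw [e2]; linarith
      · rw [not_le] at hht
        have hht' : (H:ℝ) ≤ ht v w := by exact_mod_cast hht.le
        have : 2 * η / (ht v w : ℝ) ≤ 2 * η / H := by
          apply div_le_div_of_nonneg_left _ hHr hht'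
          linarith
        calc ρ v * ρ w * (2 * η / (ht v w : ℝ)) ≤ ρ v * ρ w * (2 * η / H) :=
              mul_le_mul_of_nonneg_left this hr
          _ = 2 * η * 0 + 2 * η * (ρ v * ρ w) / H := by ring
    refine (Finset.sum_le_sum h3).trans (le_of_eq ?_)
    simp only [Finset.sum_add_distrib]
    congr 1
    · unfold G
      rw [Finset.mul_sum]
      apply Finset.sum_congr rfl
      intro v _
      rw [Finset.mul_sum]
    · rw [sq, Finset.sum_mul_sum, Finset.mul_sum, Finset.sum_div]
      apply Finset.sum_congr rfl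
      intro v _
      rw [Finset.mul_sum, Finset.sum_div]
  -- Chebyshev
  have hmk := mul_meas_ge_le_integral_of_nonneg (μ := (volume : Measure T))
    (f := fun α => Y α ^ 2) (Filter.Eventually.of_forall (fun α => sq_nonneg _)) hYint (a ^ 2)
  have hsub : {α : T | a < |Y α|} ⊆ {α : T | a ^ 2 ≤ Y α ^ 2} := by
    intro α hα
    have hα' : a < |Y α| := hα
    show a ^ 2 ≤ Y α ^ 2
    rw [← sq_abs (Y α)]
    exact pow_le_pow_left₀ ha.le hα'.le 2
  have hmono := measureReal_mono (μ := (volume : Measure T)) hsub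
  rw [le_div_iff₀ (by positivity)]
  calc (volume : Measure T).real {α | a < |Y α|} * a ^ 2 ≤
      (volume : Measure T).real {α : T | a ^ 2 ≤ Y α ^ 2} * a ^ 2 :=
        mul_le_mul_of_nonneg_right hmono (by positivity)
    _ = a ^ 2 * (volume : Measure T).real {α : T | a ^ 2 ≤ Y α ^ 2} := mul_comm _ _
    _ ≤ ∫ α : T, Y α ^ 2 := hmk
    _ ≤ _ := hEY

end Pool.Agent.H505R5.PC
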